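import Pool.Agent.MP_23c9d7_co.H90.Smith

/-! The Borel formula for an elementary abelian group acting on a homology sphere. -/

namespace Pool.Agent.MP_23c9d7_co

open Classical Finset

noncomputable section

variable {F : Type*} [Field F] {L : Type*} [Fintype L] [PartialOrder L]
  {θ : Module.End F (Finset L → F)} {m : ℕ} {Y Y0 : Set L}

/-- the square of the determinant comparing two fundamental cycles -/
def Eul (θ : Module.End F (Finset L → F)) (m : ℕ) (Y : Set L) (z w : Finset L → F) (e : F) :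
    Prop :=
  ∃ u1 u2 v1 v2 : F, (w, 0) - (u1 • z, u2 • z) ∈ DB θ m Y ∧
    (0, w) - (v1 • z, v2 • z) ∈ DB θ m Y ∧ e = (u1 * v2 - u2 * v1) ^ 2

lemma Eul.uniq (S : Setup θ m Y Y0) {n : ℕ} {z w : Finset L → F} (hz : Sph F Y n z) {e e' : F}
    (h : Eul θ m Y z w e) (h' : Eul θ m Y z w e') : e = e' := by
  obtain ⟨u1, u2, v1, v2, a1, a2, rfl⟩ := h
  obtain ⟨u1', u2', v1', v2', b1, b2, rfl⟩ := h'
  obtain ⟨c1, c2⟩ := S.uniqD hz (u1 := u1' - u1) (u2 := u2' - u2) (by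
    convert sub_mem a1 b1 using 1
    ext1 <;> simp only [Prod.fst_sub, Prod.snd_sub] <;> module)
  obtain ⟨c3, c4⟩ := S.uniqD hz (u1 := v1' - v1) (u2 := v2' - v2) (by
    convert sub_mem a2 b2 using 1
    ext1 <;> simp only [Prod.fst_sub, Prod.snd_sub] <;> module)
  rw [sub_eq_zero.1 c1, sub_eq_zero.1 c2, sub_eq_zero.1 c3, sub_eq_zero.1 c4]

lemma Eul.mul {Y' : Set L} (hs : Y' ⊆ Y) {z w w' : Finset L → F} {e e' : F}
    (h : Eul θ m Y z w' e) (h' : Eul θ m Y' w' w e') : Eul θ m Y z w (e * e') := by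
  obtain ⟨u1, u2, v1, v2, a1, a2, rfl⟩ := h
  obtain ⟨x1, x2, y1, y2, b1, b2, rfl⟩ := h'
  refine ⟨x1 * u1 + x2 * v1, x1 * u2 + x2 * v2, y1 * u1 + y2 * v1, y1 * u2 + y2 * v2, ?_, ?_,
    by ring⟩
  · convert add_mem (DB_mono hs b1)
      (add_mem (Submodule.smul_mem _ x1 a1) (Submodule.smul_mem _ x2 a2)) using 1
    ext1
    · simp only [Prod.fst_add, Prod.smul_fst, Prod.fst_sub]; module
    · simp only [Prod.snd_add, Prod.smul_snd, Prod.snd_sub]; module
  · convert add_mem (DB_mono hs b2)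
      (add_mem (Submodule.smul_mem _ y1 a1) (Submodule.smul_mem _ y2 a2)) using 1
    ext1
    · simp only [Prod.fst_add, Prod.smul_fst, Prod.fst_sub]; module
    · simp only [Prod.snd_add, Prod.smul_snd, Prod.snd_sub]; module

lemma Eul.ne (S : Setup θ m Y Y0) {n : ℕ} {z w : Finset L → F} (hw : Sph F Y0 n w) {e : F}
    (h : Eul θ m Y z w e) : e ≠ 0 := by
  obtain ⟨u1, u2, v1, v2, a1, a2, rfl⟩ := h
  have indep : ∀ α β : F, α * u1 + β * v1 = 0 → α * u2 + β * v2 = 0 → α = 0 ∧ β = 0 := by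
    intro α β h1 h2
    obtain ⟨k1, k2⟩ := S.injDB (Submodule.smul_mem _ α hw.mem) (Submodule.smul_mem _ β hw.mem) (by
      convert add_mem (Submodule.smul_mem _ α a1) (Submodule.smul_mem _ β a2) using 1
      ext1
      · simp only [Prod.fst_add, Prod.smul_fst, Prod.fst_sub]
        linear_combination (norm := module) h1 • z
      · simp only [Prod.snd_add, Prod.smul_snd, Prod.snd_sub]
        linear_combination (norm := module) h2 • z)
    exact ⟨eq_zero_of_bd hw.not_bd k1, eq_zero_of_bd hw.not_bd k2⟩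
  intro h0
  have h := pow_eq_zero_iff (two_ne_zero) |>.1 h0
  obtain ⟨k1, k2⟩ := indep v2 (-u2) (by linear_combination h) (by ring)
  obtain ⟨k3, k4⟩ := indep v1 (-u1) (by ring) (by linear_combination -h)
  exact one_ne_zero (indep 1 0 (by simp [neg_eq_zero.1 k4]) (by simp [neg_eq_zero.1 k2])).1

/-- the zigzag -/
def zz (θ : Module.End F (Finset L → F)) (m : ℕ) (h : ℕ → Module.End F (Finset L → F))
    (w : Finset L → F) : ℕ → (Finset L → F) × (Finset L → F)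
  | 0 => (w, w)
  | i + 1 => ((θ ^ m) (h i (zz θ m h w i).2), - θ (h i (zz θ m h w i).1))

lemma zz_spec (S : Setup θ m Y Y0) {n n' : ℕ} (h : ℕ → Module.End F (Finset L → F))
    (hh : ∀ i, n' + i < n → ∀ f ∈ C F Y, f ∈ sup F (fun σ : Finset L => σ.card = n' + i) →
      bd F f = 0 → h i f ∈ C F Y ∧ h i f ∈ sup F (fun σ : Finset L => σ.card = n' + (i + 1)) ∧
        bd F (h i f) = f)
    {w : Finset L → F} (hw : w ∈ C F Y) (hwd : w ∈ sup F (fun σ : Finset L => σ.card = n'))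
    (hwb : bd F w = 0) (hθ : θ w = 0) (i : ℕ) (hi : n' + i ≤ n) :
    ((zz θ m h w i).1 ∈ C F Y ∧ (zz θ m h w i).1 ∈ sup F (fun σ : Finset L => σ.card = n' + i) ∧
      bd F (zz θ m h w i).1 = 0 ∧ θ (zz θ m h w i).1 = 0) ∧
    ((zz θ m h w i).2 ∈ C F Y ∧ (zz θ m h w i).2 ∈ sup F (fun σ : Finset L => σ.card = n' + i) ∧
      bd F (zz θ m h w i).2 = 0 ∧ (θ ^ m) (zz θ m h w i).2 = 0) ∧
    (((w, 0) - ((zz θ m h w i).1, 0) ∈ DB θ m Y ∧ (0, w) - (0, (zz θ m h w i).2) ∈ DB θ m Y) ∨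
     ((w, 0) - (0, (zz θ m h w i).2) ∈ DB θ m Y ∧ (0, w) - ((zz θ m h w i).1, 0) ∈ DB θ m Y)) := by
  induction i with
  | zero => exact ⟨⟨hw, hwd, hwb, hθ⟩, ⟨hw, hwd, hwb, S.killm hθ⟩, Or.inl (by simp [zz])⟩
  | succ i ih =>
    obtain ⟨⟨a1, a2, a3, a4⟩, ⟨b1, b2, b3, b4⟩, hc⟩ := ih (by omega)
    obtain ⟨c1, c2, c3⟩ := hh i (by omega) _ a1 a2 a3
    obtain ⟨d1, d2, d3⟩ := hh i (by omega) _ b1 b2 b3
    have hb' : ∀ f, (θ ^ m) (bd F f) = bd F ((θ ^ m) f) := by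
      intro f
      simpa using pow_comm_of (T := bd F) 1 (by simpa using S.cb) m f
    have h1 : ∀ f, (θ ^ m) (θ f) = 0 := by
      intro f
      rw [← Module.End.mul_apply, ← pow_succ, S.nil]; rfl
    have h2 : ∀ f, θ ((θ ^ m) f) = 0 := by
      intro f
      rw [← Module.End.mul_apply, ← pow_succ', S.nil]; rfl
    have e1 : ((zz θ m h w i).1, 0) - (0, (zz θ m h w (i + 1)).2) ∈ DB θ m Y :=
      ⟨(h i (zz θ m h w i).1, 0), ⟨c1, zero_mem _⟩, by rw [dl_apply]; simp [zz, c3]⟩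
    have e2 : (0, (zz θ m h w i).2) - ((zz θ m h w (i + 1)).1, 0) ∈ DB θ m Y :=
      ⟨(0, - h i (zz θ m h w i).2), ⟨zero_mem _, neg_mem d1⟩, by rw [dl_apply]; simp [zz, d3]⟩
    refine ⟨⟨pow_mem_of _ θ S.stab m _ d1,
      pow_mem_of _ θ (fun v hv => S.deg (fun k => k = n' + (i + 1)) hv) m _ d2, ?_, h2 _⟩,
      ⟨neg_mem (S.stab _ c1), neg_mem (S.deg (fun k => k = n' + (i + 1)) c2), ?_, ?_⟩, ?_⟩
    · simp only [zz]
      rw [← hb', d3, b4]
    · simp only [zz]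
      rw [map_neg, ← S.cb, c3, a4, neg_zero]
    · simp only [zz]
      rw [map_neg, h1, neg_zero]
    · rcases hc with ⟨k1, k2⟩ | ⟨k1, k2⟩
      · exact Or.inr ⟨by simpa only [sub_add_sub_cancel] using add_mem k1 e1,
          by simpa only [sub_add_sub_cancel] using add_mem k2 e2⟩
      · exact Or.inl ⟨by simpa only [sub_add_sub_cancel] using add_mem k1 e2,
          by simpa only [sub_add_sub_cancel] using add_mem k2 e1⟩

/-- a polynomial function of degree at most `d` with coefficient `t` in degree `d` -/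
def PolyF (d : ℕ) (f : F → F) (t : F) : Prop :=
  ∃ P : Polynomial F, P.natDegree ≤ d ∧ (∀ s, P.eval s = f s) ∧ P.coeff d = t

lemma PolyF.mul {d d' : ℕ} {f g : F → F} {t t' : F} (h : PolyF d f t) (h' : PolyF d' g t') :
    PolyF (d + d') (fun s => f s * g s) (t * t') := by
  obtain ⟨P, a1, a2, rfl⟩ := h
  obtain ⟨Q, b1, b2, rfl⟩ := h'
  exact ⟨P * Q, Polynomial.natDegree_mul_le.trans (add_le_add a1 b1), fun s => by simp [a2, b2],
    Polynomial.coeff_mul_add_eq_of_natDegree_le a1 b1⟩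

def PolyV {V : Type*} [AddCommGroup V] [Module F V] (d : ℕ) (f : F → V) (t : V) : Prop :=
  ∀ φ : V →ₗ[F] F, PolyF d (fun s => φ (f s)) (φ t)

lemma PolyV.map {V : Type*} [AddCommGroup V] [Module F V] {d : ℕ} {f : F → V} {t : V}
    (h : PolyV d f t) (T : Module.End F V) : PolyV d (fun s => T (f s)) (T t) :=
  fun φ => h (φ ∘ₗ T)

lemma PolyV.step {V : Type*} [AddCommGroup V] [Module F V] {d : ℕ} {f : F → V} {t : V}
    (h : PolyV d f t) (A B : Module.End F V) :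
    PolyV (d + 1) (fun s => (A + s • B) (f s)) (B t) := by
  intro φ
  obtain ⟨P, a1, a2, -⟩ := h (φ ∘ₗ A)
  obtain ⟨Q, b1, b2, b3⟩ := h (φ ∘ₗ B)
  refine ⟨P + Q * Polynomial.X, ?_, fun s => ?_, ?_⟩
  · refine (Polynomial.natDegree_add_le _ _).trans (max_le (by omega) ?_)
    exact Polynomial.natDegree_mul_le.trans (add_le_add b1 Polynomial.natDegree_X_le)
  · simp [a2, b2, mul_comm]
  · rw [Polynomial.coeff_add, Polynomial.coeff_mul_X, b3,
      Polynomial.coeff_eq_zero_of_natDegree_lt (by omega), zero_add]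
    rfl

lemma PolyV.pow {V : Type*} [AddCommGroup V] [Module F V] {d : ℕ} {f : F → V} {t : V}
    (h : PolyV d f t) (A B : Module.End F V) (m : ℕ) :
    PolyV (d + m) (fun s => ((A + s • B) ^ m) (f s)) ((B ^ m) t) := by
  induction m with
  | zero => simpa using h
  | succ m ih => simpa only [pow_succ', Module.End.mul_apply, add_assoc] using ih.step A B

omit [Fintype L] [PartialOrder L] in
lemma zz_poly (A B : Module.End F (Finset L → F)) (m : ℕ) (h : ℕ → Module.End F (Finset L → F))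
    (w : Finset L → F) (i : ℕ) : ∃ da db : ℕ, da + db = (m + 1) * i ∧
      PolyV da (fun s : F => (zz (A + s • B) m h w i).1) (zz B m h w i).1 ∧
      PolyV db (fun s : F => (zz (A + s • B) m h w i).2) (zz B m h w i).2 := by
  induction i with
  | zero =>
    have : PolyV 0 (fun _ : F => w) w := fun φ => ⟨Polynomial.C (φ w), by simp, by simp, by simp⟩
    exact ⟨0, 0, rfl, this, this⟩
  | succ i ih =>
    obtain ⟨da, db, h1, h2, h3⟩ := ih
    refine ⟨db + m, da + 1, by rw [mul_add, ← h1]; ring, (h3.map (h i)).pow A B m, ?_⟩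
    simpa [zz] using ((h2.map (h i)).step A B).map (-1)

lemma exists_eul {n n' : ℕ} {z w : Finset L → F} (hz : Sph F Y n z) (hw : w ∈ C F Y)
    (hwd : w ∈ sup F (fun σ : Finset L => σ.card = n')) (hwb : bd F w = 0) (hn : n' ≤ n)
    (A B : Module.End F (Finset L → F))
    (hs : ∀ s : F, (∃ Y0, Setup (A + s • B) m Y Y0) ∧ (A + s • B) w = 0)
    (hB : (∃ Y0, Setup B m Y Y0) ∧ B w = 0) :
    ∃ P : Polynomial F, P.natDegree ≤ 2 * (m + 1) * (n - n') ∧
      (∀ s, Eul (A + s • B) m Y z w (P.eval s)) ∧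
      Eul B m Y z w (P.coeff (2 * (m + 1) * (n - n'))) := by
  let D : C F Y →ₗ[F] (Finset L → F) := (bd F).domRestrict (C F Y)
  obtain ⟨g, hg⟩ := D.rangeRestrict.exists_rightInverse_of_surjective D.range_rangeRestrict
  obtain ⟨h0, hh0⟩ := ((C F Y).subtype ∘ₗ g).exists_extend
  have hh1 : ∀ u ∈ C F Y, h0 (bd F u) ∈ C F Y ∧ bd F (h0 (bd F u)) = bd F u := by
    intro u hu
    have h1 : h0 (bd F u) = g (D.rangeRestrict ⟨u, hu⟩) :=
      LinearMap.congr_fun hh0 (D.rangeRestrict ⟨u, hu⟩)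
    have h2 := congrArg Subtype.val (LinearMap.congr_fun hg (D.rangeRestrict ⟨u, hu⟩))
    rw [h1]
    exact ⟨Subtype.property _, h2⟩
  let h : ℕ → Module.End F (Finset L → F) := fun i => pr F (n' + i + 1) ∘ₗ h0
  have hh : ∀ i, n' + i < n → ∀ f ∈ C F Y, f ∈ sup F (fun σ : Finset L => σ.card = n' + i) →
      bd F f = 0 → h i f ∈ C F Y ∧ h i f ∈ sup F (fun σ : Finset L => σ.card = n' + (i + 1)) ∧
        bd F (h i f) = f := by
    intro i hi f hf hd hb
    obtain ⟨u, hu, -, hu2⟩ := hz.low_cycle hi.ne hf (by rw [pr_eq_self F hd, hb])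
    rw [pr_eq_self F hd] at hu2
    obtain ⟨k1, k2⟩ := hh1 u hu
    rw [hu2] at k1 k2
    refine ⟨pr_mem_C F _ k1, sup_mono F (fun _ h => h.2) (pr_mem F _ k1), ?_⟩
    show bd F (pr F (n' + i + 1) (h0 f)) = f
    rw [bd_pr_succ, k2, pr_eq_self F hd]
  obtain ⟨σ₀, s1, -⟩ := hz.exists_ne
  let ζ : (Finset L → F) →ₗ[F] F := (z σ₀)⁻¹ • LinearMap.proj σ₀
  have key : ∀ θ : Module.End F (Finset L → F), (∃ Y0, Setup θ m Y Y0) ∧ θ w = 0 →
      Eul θ m Y z w ((ζ (zz θ m h w (n - n')).1 * ζ (zz θ m h w (n - n')).2) *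
        (ζ (zz θ m h w (n - n')).1 * ζ (zz θ m h w (n - n')).2)) := by
    rintro θ ⟨⟨Y0, S⟩, h2⟩
    obtain ⟨⟨a1, a2, a3, -⟩, ⟨b1, b2, b3, -⟩, hc⟩ :=
      zz_spec S h hh hw hwd hwb h2 (n - n') (by omega)
    rw [Nat.add_sub_cancel' hn] at a2 b2
    obtain ⟨u, hu⟩ := hz.top_cycle a1 a3 a2
    obtain ⟨v, hv⟩ := hz.top_cycle b1 b3 b2
    rw [hu, hv] at hc ⊢
    have hζ : ∀ c : F, ζ (c • z) = c := by
      intro c
      simp only [ζ, map_smul, LinearMap.smul_apply, LinearMap.proj_apply, smul_eq_mul]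
      field_simp
    rw [hζ, hζ]
    rcases hc with ⟨k1, k2⟩ | ⟨k1, k2⟩
    · exact ⟨u, 0, 0, v, by simpa using k1, by simpa using k2, by ring⟩
    · exact ⟨0, v, u, 0, by simpa using k1, by simpa using k2, by ring⟩
  obtain ⟨da, db, h1, h2, h3⟩ := zz_poly A B m h w (n - n')
  obtain ⟨P, p1, p2, p3⟩ := ((h2 ζ).mul (h3 ζ)).mul ((h2 ζ).mul (h3 ζ))
  have : da + db + (da + db) = 2 * (m + 1) * (n - n') := by rw [h1]; ring
  rw [this] at p1 p3
  exact ⟨P, p1, fun s => p2 s ▸ key _ (hs s), p3 ▸ key _ hB⟩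

section borel

variable (p : ℕ) [Fact p.Prime] {ι : Type*} [Fintype ι]

lemma sep_dot (S : Submodule (ZMod p) (ι → ZMod p)) {a₀ : ι → ZMod p} (h : a₀ ∉ S) :
    ∃ ψ : ι → ZMod p, (∀ a ∈ S, ψ ⬝ᵥ a = 0) ∧ ψ ⬝ᵥ a₀ ≠ 0 := by
  obtain ⟨f, h1, h2⟩ := S.exists_dual_map_eq_bot_of_notMem h inferInstance
  have : ∀ a, (fun i => f (Pi.single i 1)) ⬝ᵥ a = f a := by
    intro a
    conv_rhs => rw [← univ_sum_single a, map_sum]
    refine sum_congr rfl fun i _ => ?_
    rw [mul_comm, ← smul_eq_mul, ← map_smul, ← Pi.single_smul, smul_eq_mul, mul_one]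
  refine ⟨fun i => f (Pi.single i 1), fun a ha => ?_, by rwa [this]⟩
  rw [this, ← Submodule.mem_bot (R := ZMod p), ← h2]
  exact ⟨a, ha, rfl⟩

lemma exists_dot_one {ψ : ι → ZMod p} (h : ψ ≠ 0) : ∃ a : ι → ZMod p, ψ ⬝ᵥ a = 1 := by
  obtain ⟨i, hi⟩ := Function.ne_iff.1 h
  exact ⟨Pi.single i (ψ i)⁻¹, by rw [dotProduct_single, mul_inv_cancel₀ hi]⟩

lemma eq_smul_of_ker {ψ ψ₀ : ι → ZMod p} (h0 : ψ₀ ≠ 0) (h : ∀ a, ψ₀ ⬝ᵥ a = 0 → ψ ⬝ᵥ a = 0) :
    ∃ c : ZMod p, ψ = c • ψ₀ := by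
  obtain ⟨b, hb⟩ := exists_dot_one p h0
  refine ⟨ψ ⬝ᵥ b, funext fun i => ?_⟩
  have := h (Pi.single i 1 - ψ₀ i • b) (by
    rw [dotProduct_sub, dotProduct_single, dotProduct_smul, hb]; simp)
  rw [dotProduct_sub, dotProduct_single, dotProduct_smul, mul_one, sub_eq_zero] at this
  rw [this, Pi.smul_apply, smul_eq_mul, smul_eq_mul, mul_comm]

omit [Fintype L] [Fintype ι] in
lemma IsTr.smul_fix {tr : (ι → ZMod p) → L ≃o L} (ht : IsTr tr) {a : ι → ZMod p} {y : L}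
    (h : tr a y = y) (c : ZMod p) : tr (c • a) y = y := by
  rw [← ZMod.natCast_zmod_val c, Nat.cast_smul_eq_nsmul, ht.nsmul]
  exact pow_fix h _

variable [Algebra (ZMod p) F]

lemma sum_cast_pow (i : ℕ) (hi : i < p - 1) : ∑ t : ZMod p, algebraMap (ZMod p) F t ^ i = 0 := by
  simp only [← map_pow]
  rw [← map_sum, FiniteField.sum_pow_lt_card_sub_one _ _ (by rwa [ZMod.card]), map_zero]

lemma sum_cast_pow_top : ∑ t : ZMod p, algebraMap (ZMod p) F t ^ (p - 2) *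
    algebraMap (ZMod p) F t = -1 := by
  have hp := (Fact.out : p.Prime).two_le
  have : ∀ t : ZMod p, algebraMap (ZMod p) F t ^ (p - 2) * algebraMap (ZMod p) F t =
      1 - if t = 0 then 1 else 0 := by
    intro t
    split_ifs with h
    · simp [h]
    · rw [← pow_succ, ← map_pow, show p - 2 + 1 = p - 1 by omega,
        ZMod.pow_card_sub_one_eq_one h, map_one, sub_zero]
  simp only [this]
  rw [sum_sub_distrib]
  have h2 : ((p : ℕ) : F) = 0 := by rw [← map_natCast (algebraMap (ZMod p) F)]; simp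
  simp [h2]

/-- the pairing -/
def pr2 (α : ι → F) (ψ : ι → ZMod p) : F := ∑ i, algebraMap (ZMod p) F (ψ i) * α i

lemma pr2_smul (α : ι → F) (c : ZMod p) (ψ : ι → ZMod p) :
    pr2 p α (c • ψ) = algebraMap (ZMod p) F c * pr2 p α ψ := by
  simp [pr2, mul_sum, mul_assoc]

/-- the operator attached to a point of the rank variety -/
def thA (tr : (ι → ZMod p) → L ≃o L) (α : ι → F) : Module.End F (Finset L → F) :=
  thE tr (fun j : ι × ZMod p => Pi.single j.1 j.2)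
    (fun j => α j.1 * algebraMap (ZMod p) F j.2 ^ (p - 2))

lemma sum_coef (α : ι → F) :
    ∑ j : ι × ZMod p, α j.1 * algebraMap (ZMod p) F j.2 ^ (p - 2) = 0 := by
  have hp := (Fact.out : p.Prime).two_le
  rw [Fintype.sum_prod_type]
  simp only [← mul_sum, sum_cast_pow p (p - 2) (by omega), mul_zero, sum_const_zero]

lemma setup_thA {tr : (ι → ZMod p) → L ≃o L} (ht : IsTr tr) (α : ι → F)
    (hY : ∀ t y, tr t y ∈ Y ↔ y ∈ Y) (Q : (ι → ZMod p) → Prop)
    (hk : ∀ f ∈ C F (Fq Y tr Q), thA p tr α f = 0)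
    (hf : ∀ y ∈ Y, ∀ ψ : ι → ZMod p, (∀ a, tr a y = y → ψ ⬝ᵥ a = 0) → pr2 p α ψ = 0 →
      ∀ a, Q a → ψ ⬝ᵥ a = 0) : Setup (thA p tr α) (p - 1) Y (Fq Y tr Q) := by
  have : CharP F p := charP_of_injective_algebraMap (algebraMap (ZMod p) F).injective p
  refine setup_of p (fun a => by ext; simp) ht _ _ (sum_coef p α) hY (Fq_inv ht hY Q)
    (fun y hy => hy.1) hk fun y hy hy0 => ?_
  have : ∃ a, Q a ∧ tr a y ≠ y := by
    by_contra h
    push Not at h
    exact hy0 ⟨hy, h⟩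
  obtain ⟨a₀, h1, h2⟩ := this
  let S : Submodule (ZMod p) (ι → ZMod p) :=
    { carrier := {a | tr a y = y}
      add_mem' := fun {a b} ha hb => by
        show tr (a + b) y = y
        rw [ht.add, RelIso.mul_apply, hb, ha]
      zero_mem' := by show tr 0 y = y; rw [ht.zero]; rfl
      smul_mem' := fun c a ha => ht.smul_fix p ha c }
  obtain ⟨ψ, k1, k2⟩ := sep_dot p S (a₀ := a₀) h2
  refine ⟨AddMonoidHom.mk' (fun a => algebraMap (ZMod p) F (ψ ⬝ᵥ a))
    (fun a b => by rw [dotProduct_add, map_add]), fun a ha => by simp [k1 a ha], fun h => ?_⟩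
  apply k2 (hf y hy ψ k1 ?_ a₀ h1)
  rw [Fintype.sum_prod_type] at h
  simp only [AddMonoidHom.mk'_apply, dotProduct_single, map_mul] at h
  rw [← neg_eq_zero, ← h, pr2, ← sum_neg_distrib]
  refine sum_congr rfl fun i _ => ?_
  rw [← mul_neg_one, ← sum_cast_pow_top p, mul_sum]
  refine sum_congr rfl fun t _ => by ring

omit [Fintype L] in
lemma kill_top (tr : (ι → ZMod p) → L ≃o L) (α : ι → F) :
    ∀ f ∈ C F (Fq Y tr fun _ => True), thA p tr α f = 0 := by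
  intro f hf
  rw [thA, thE_apply]
  have : ∀ a, pull F (tr a) f = f := fun a => pull_eq_self (fun y hy => hy.2 a trivial) hf
  simp only [this]
  rw [← sum_smul, sum_coef, zero_smul]

omit [Fintype L] in
lemma kill_ker {tr : (ι → ZMod p) → L ≃o L} (ht : IsTr tr) (α : ι → F) {ψ : ι → ZMod p}
    (h0 : ψ ≠ 0) (h : pr2 p α ψ = 0) :
    ∀ f ∈ C F (Fq Y tr fun a => ψ ⬝ᵥ a = 0), thA p tr α f = 0 := by
  intro f hf
  have hp := (Fact.out : p.Prime).two_le
  obtain ⟨b, hb⟩ := exists_dot_one p h0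
  let G : ZMod p → Finset L → F := fun t => pull F (tr (t • b)) f
  have h1 : ∀ a, pull F (tr a) f = G (ψ ⬝ᵥ a) := by
    intro a
    have : a = (a - (ψ ⬝ᵥ a) • b) + (ψ ⬝ᵥ a) • b := by abel
    conv_lhs => rw [this, ht.add, ← pull_pull]
    rw [pull_eq_self (fun y hy => hy.2 _ ?_) hf]
    show ψ ⬝ᵥ _ = 0
    rw [dotProduct_sub, dotProduct_smul, hb]; simp
  have h2 : ∀ c : ZMod p, ∑ t : ZMod p, algebraMap (ZMod p) F t ^ (p - 2) • G (c * t) =
      algebraMap (ZMod p) F c • ∑ t : ZMod p, algebraMap (ZMod p) F t ^ (p - 2) • G t := by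
    intro c
    by_cases hc : c = 0
    · simp only [hc, zero_mul, map_zero, zero_smul]
      rw [← sum_smul, sum_cast_pow p (p - 2) (by omega), zero_smul]
    · rw [smul_sum]
      refine Fintype.sum_equiv (Equiv.mulLeft₀ c hc) _ _ fun t => ?_
      rw [Equiv.mulLeft₀_apply, smul_smul, map_mul, mul_pow, ← mul_assoc, ← pow_succ',
        show p - 2 + 1 = p - 1 by omega, ← map_pow _ c, ZMod.pow_card_sub_one_eq_one hc, map_one,
        one_mul]
  rw [thA, thE_apply, Fintype.sum_prod_type]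
  simp only [h1, dotProduct_single, mul_smul, ← smul_sum, h2]
  simp only [smul_smul]
  rw [← sum_smul]
  rw [pr2] at h
  simp only [mul_comm (α _), h, zero_smul]

omit [Field F] in
lemma sum_count {T : Type*} (s : Finset T) (r : T → F) (k : ℕ) (M : Multiset F)
    (h : ∀ x ∈ M, (s.filter fun t => r t = x).card = k) :
    ∑ t ∈ s, M.count (r t) = k * M.card := by
  induction M using Multiset.induction_on with
  | empty => simp
  | cons a M ih =>
    simp only [Multiset.count_cons, sum_add_distrib, Multiset.card_cons]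
    rw [ih fun x hx => h x (Multiset.mem_cons_of_mem hx), ← card_filter,
      h a (Multiset.mem_cons_self _ _)]
    ring

lemma exists_indep : ∃ Q : ι → AlgebraicClosure (ZMod p), ∀ ψ, pr2 p Q ψ = 0 → ψ = 0 := by
  have h1 : ¬ Module.Finite (ZMod p) (AlgebraicClosure (ZMod p)) := by
    intro h
    have := Module.finite_of_finite (ZMod p) (M := AlgebraicClosure (ZMod p))
    exact not_finite (AlgebraicClosure (ZMod p))
  rw [← Module.rank_lt_aleph0_iff, not_lt] at h1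
  obtain ⟨f, hf⟩ := exists_linearIndependent_of_le_rank (R := ZMod p)
    (M := AlgebraicClosure (ZMod p)) (n := Fintype.card ι) (Cardinal.natCast_lt_aleph0.le.trans h1)
  have h2 := hf.comp _ (Fintype.equivFin ι).injective
  refine ⟨f ∘ Fintype.equivFin ι, fun ψ h => funext fun i => Fintype.linearIndependent_iff.1 h2 ψ ?_ i⟩
  simpa only [Algebra.smul_def, pr2] using h

theorem borel {tr : (ι → ZMod p) → L ≃o L} (ht : IsTr tr)
    (hG : Gor (AlgebraicClosure (ZMod p)) Y) (hY : ∀ t y, tr t y ∈ Y ↔ y ∈ Y) :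
    ∑ ψ ∈ univ.filter (fun ψ : ι → ZMod p => ψ ≠ 0),
      (dm (Fq Y tr fun a => ψ ⬝ᵥ a = 0) - dm (Fq Y tr fun _ => True)) =
      (p - 1) * (dm Y - dm (Fq Y tr fun _ => True)) := by
  have hpp : p.Prime := Fact.out
  have hp := hpp.two_le
  set k := AlgebraicClosure (ZMod p)
  have hE : ∀ a : ι → ZMod p, p • a = 0 := fun a => by ext; simp
  obtain ⟨Q, hQ⟩ := exists_indep p (ι := ι)
  let A := thA p tr fun i => Q i ^ p
  let B := thA p tr Q
  let α : k → ι → k := fun s i => Q i ^ p + s * Q i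
  have hAB : ∀ s, A + s • B = thA p tr (α s) := by
    intro s
    simp only [A, B, thA, thE, α, smul_sum, ← sum_add_distrib, smul_smul, ← add_smul]
    refine sum_congr rfl fun j _ => by congr 1; ring
  let r : (ι → ZMod p) → k := fun ψ => - pr2 p Q ψ ^ (p - 1)
  have hα : ∀ s ψ, pr2 p (α s) ψ = pr2 p Q ψ * (s - r ψ) := by
    intro s ψ
    have : pr2 p Q ψ ^ p = ∑ i, algebraMap (ZMod p) k (ψ i) * Q i ^ p := by
      rw [pr2, sum_pow_char]
      refine sum_congr rfl fun i _ => by rw [mul_pow, ← map_pow, ZMod.pow_card]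
    simp only [r]
    rw [sub_neg_eq_add, mul_add, ← pow_succ', Nat.sub_add_cancel hpp.one_le, this, pr2, pr2,
      sum_mul, ← sum_add_distrib]
    refine sum_congr rfl fun i _ => by simp only [α]; ring
  have hr : ∀ ψ ψ₀, ψ₀ ≠ 0 → r ψ = r ψ₀ → ∃ c : ZMod p, ψ = c • ψ₀ := by
    intro ψ ψ₀ h0 h
    have h1 : pr2 p Q ψ₀ ≠ 0 := fun h => h0 (hQ _ h)
    have h2 : (pr2 p Q ψ / pr2 p Q ψ₀) ^ p = pr2 p Q ψ / pr2 p Q ψ₀ := by
      have : ∀ x : k, x ^ p = x ^ (p - 1) * x := fun x => by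
        rw [← pow_succ, Nat.sub_add_cancel hpp.one_le]
      rw [this, div_pow, neg_inj.1 h, div_self (pow_ne_zero _ h1), one_mul]
    obtain ⟨c, hc⟩ := (mem_bot_iff_intCast p k).1 ((Subfield.mem_bot_iff_pow_eq_self k p).2 h2)
    refine ⟨c, sub_eq_zero.1 (hQ _ ?_)⟩
    have : pr2 p Q (ψ - (c : ZMod p) • ψ₀) = pr2 p Q ψ - pr2 p Q ((c : ZMod p) • ψ₀) := by
      simp [pr2, sub_mul, sum_sub_distrib]
    rw [this, pr2_smul, map_intCast, hc, div_mul_cancel₀ _ h1, sub_self]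
  have hgen : ∀ Y : Set L, (∀ t y, tr t y ∈ Y ↔ y ∈ Y) → ∀ s, (∀ ψ, ψ ≠ 0 → r ψ ≠ s) →
      Setup (A + s • B) (p - 1) Y (Fq Y tr fun _ => True) := by
    intro Y hY s hs
    rw [hAB]
    refine setup_thA p ht _ hY _ (kill_top p tr _) fun y _ ψ _ h a _ => ?_
    by_cases h0 : ψ = 0
    · simp [h0]
    · rw [hα, mul_eq_zero, sub_eq_zero] at h
      exact absurd (h.resolve_left fun h => h0 (hQ _ h)).symm (hs ψ h0)
  have hspec : ∀ Y : Set L, (∀ t y, tr t y ∈ Y ↔ y ∈ Y) → ∀ ψ₀, ψ₀ ≠ 0 →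
      Setup (A + r ψ₀ • B) (p - 1) Y (Fq Y tr fun a => ψ₀ ⬝ᵥ a = 0) := by
    intro Y hY ψ₀ h0
    rw [hAB]
    refine setup_thA p ht _ hY _ (kill_ker p ht _ h0 (by rw [hα, sub_self, mul_zero]))
      fun y _ ψ _ h a ha => ?_
    by_cases h1 : ψ = 0
    · simp [h1]
    · rw [hα, mul_eq_zero, sub_eq_zero] at h
      obtain ⟨c, rfl⟩ := hr ψ ψ₀ h0 (h.resolve_left fun h => h1 (hQ _ h)).symm
      rw [smul_dotProduct, ha, smul_zero]
  have hall : ∀ Y : Set L, (∀ t y, tr t y ∈ Y ↔ y ∈ Y) → ∀ s : k,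
      ∃ Y0, Setup (A + s • B) (p - 1) Y Y0 := by
    intro Y hY s
    by_cases h : ∀ ψ, ψ ≠ 0 → r ψ ≠ s
    · exact ⟨_, hgen Y hY s h⟩
    · push Not at h
      obtain ⟨ψ, h1, rfl⟩ := h
      exact ⟨_, hspec Y hY ψ h1⟩
  have hB : ∀ Y : Set L, (∀ t y, tr t y ∈ Y ↔ y ∈ Y) →
      Setup B (p - 1) Y (Fq Y tr fun _ => True) := fun Y hY =>
    setup_thA p ht _ hY _ (kill_top p tr _) fun y _ ψ _ h a _ => by simp [hQ _ h]
  have hP : ∀ Y Y' : Set L, (∀ t y, tr t y ∈ Y ↔ y ∈ Y) → (∀ t y, tr t y ∈ Y' ↔ y ∈ Y') →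
      Y' ⊆ Y → ∀ z w, Sph k Y (dm Y) z → Sph k Y' (dm Y') w →
      ∃ P : Polynomial k, P.natDegree ≤ 2 * (p - 1 + 1) * (dm Y - dm Y') ∧
      (∀ s, Eul (A + s • B) (p - 1) Y z w (P.eval s)) ∧
      Eul B (p - 1) Y z w (P.coeff (2 * (p - 1 + 1) * (dm Y - dm Y'))) := by
    intro Y Y' hY hY' hs z w hz hw
    refine exists_eul hz (C_mono k hs hw.mem) hw.deg hw.cyc (dm_mono hs) A B
      (fun s => ⟨hall Y hY s, ?_⟩) ⟨⟨_, hB Y hY⟩, (hB Y' hY').theta_z hw⟩
    obtain ⟨Y0, S⟩ := hall Y' hY' s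
    exact S.theta_z hw
  obtain ⟨z, hz⟩ := hG.sph
  obtain ⟨w, hw⟩ := (hG.fq p hE ht hY fun _ => True).sph
  obtain ⟨P, p1, p2, p3⟩ := hP Y _ hY (Fq_inv ht hY _) (fun y hy => hy.1) z w hz hw
  have p4 := p3.ne (hB Y hY) hw
  have p5 := le_antisymm p1 (Polynomial.le_natDegree_of_ne_zero p4)
  have p6 : P ≠ 0 := by rintro rfl; simp at p4
  have hcount : ∀ ψ ∈ univ.filter (fun ψ : ι → ZMod p => ψ ≠ 0), P.roots.count (r ψ) =
      2 * (p - 1 + 1) * (dm (Fq Y tr fun a => ψ ⬝ᵥ a = 0) - dm (Fq Y tr fun _ => True)) := by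
    intro ψ hψ
    have h0 : ψ ≠ 0 := (mem_filter.1 hψ).2
    have hY' := Fq_inv ht hY fun a => ψ ⬝ᵥ a = 0
    obtain ⟨w', hw'⟩ := (hG.fq p hE ht hY fun a => ψ ⬝ᵥ a = 0).sph
    have heq : Fq (Fq Y tr fun a => ψ ⬝ᵥ a = 0) tr (fun _ => True) = Fq Y tr fun _ => True := by
      ext y
      exact ⟨fun h => ⟨h.1.1, h.2⟩, fun h => ⟨⟨h.1, fun a _ => h.2 a trivial⟩, h.2⟩⟩
    obtain ⟨P1, -, q2, -⟩ := hP Y _ hY hY' (fun y hy => hy.1) z w' hz hw'
    obtain ⟨P2, r1, r2, r3⟩ := hP _ _ hY' (Fq_inv ht hY _)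
      (fun y hy => ⟨hy.1, fun a _ => hy.2 a trivial⟩) w' w hw' hw
    have r4 := r3.ne (heq ▸ hB _ hY') hw
    have r5 := le_antisymm r1 (Polynomial.le_natDegree_of_ne_zero r4)
    have hmul : P = P1 * P2 := by
      refine Polynomial.funext fun s => ?_
      obtain ⟨Y0, S⟩ := hall Y hY s
      rw [Polynomial.eval_mul]
      exact (p2 s).uniq S hz ((q2 s).mul (fun y hy => hy.1) (r2 s))
    rw [Polynomial.count_roots, hmul, Polynomial.rootMultiplicity_mul (hmul ▸ p6),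
      Polynomial.rootMultiplicity_eq_zero ((q2 _).ne (hspec Y hY ψ h0) hw'), zero_add,
      ← Polynomial.count_roots, ← r5, ← IsAlgClosed.card_roots_eq_natDegree,
      Multiset.count_eq_card]
    intro s hs
    by_contra hne
    refine (r2 s).ne (Y0 := Fq Y tr fun _ => True) ?_ hw (Polynomial.isRoot_of_mem_roots hs)
    rw [hAB, ← heq]
    refine setup_thA p ht _ hY' _ (kill_top p tr _) fun y hy ψ' k1 k2 a _ => ?_
    obtain ⟨c, rfl⟩ := eq_smul_of_ker p h0 fun a ha => k1 a (hy.2 a ha)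
    rw [pr2_smul, hα, mul_eq_zero, mul_eq_zero, sub_eq_zero, map_eq_zero] at k2
    rcases k2 with k2 | k2 | k2
    · simp [k2]
    · exact absurd (hQ _ k2) h0
    · exact absurd k2.symm hne
  have hsum := sum_count (univ.filter (fun ψ : ι → ZMod p => ψ ≠ 0)) r (p - 1) P.roots (by
    intro s hs
    have : ∃ ψ₀, ψ₀ ≠ 0 ∧ r ψ₀ = s := by
      by_contra h
      push Not at h
      exact (p2 s).ne (hgen Y hY s h) hw (Polynomial.isRoot_of_mem_roots hs)
    obtain ⟨ψ₀, h0, rfl⟩ := this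
    have h1 : (univ.filter (fun ψ : ι → ZMod p => ψ ≠ 0)).filter (fun ψ => r ψ = r ψ₀) =
        (univ.erase (0 : ZMod p)).image fun c => c • ψ₀ := by
      ext ψ
      simp only [mem_filter, mem_univ, true_and, mem_image, mem_erase, and_true]
      constructor
      · rintro ⟨h1, h2⟩
        obtain ⟨c, rfl⟩ := hr ψ ψ₀ h0 h2
        exact ⟨c, by rintro rfl; simp at h1, rfl⟩
      · rintro ⟨c, hc, rfl⟩
        refine ⟨smul_ne_zero hc h0, ?_⟩
        simp only [r]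
        rw [pr2_smul, mul_pow, ← map_pow, ZMod.pow_card_sub_one_eq_one hc, map_one, one_mul]
    rw [h1, card_image_of_injective _ (smul_left_injective _ h0), card_erase_of_mem (mem_univ _),
      card_univ, ZMod.card])
  rw [sum_congr rfl hcount, ← mul_sum, IsAlgClosed.card_roots_eq_natDegree, p5,
    mul_left_comm] at hsum
  exact Nat.eq_of_mul_eq_mul_left (by omega) hsum

end borel

end

end Pool.Agent.MP_23c9d7_co
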