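import Pool.Agent.MP_23c9d7_co.H90.Gor

/-! From modular to rational homology spheres; the Lefschetz fixed point formula. -/

namespace Pool.Agent.MP_23c9d7_co

open Classical Finset

noncomputable section

variable {L : Type*} [Fintype L] [PartialOrder L]

/-- the integral boundary operator -/
def bdZ : (Finset L → ℤ) →ₗ[ℤ] (Finset L → ℤ) where
  toFun f τ := ∑ x, if x ∉ τ ∧ IsCh (insert x τ) then
    (-1) ^ (τ.filter (· < x)).card * f (insert x τ) else 0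
  map_add' f g := by
    funext τ
    simp only [Pi.add_apply, ← sum_add_distrib]
    refine sum_congr rfl fun x _ => ?_
    split_ifs <;> ring
  map_smul' c f := by
    funext τ
    simp only [Pi.smul_apply, smul_eq_mul, RingHom.id_apply, mul_sum]
    refine sum_congr rfl fun x _ => ?_
    split_ifs <;> ring

def cs (F : Type*) [Field F] (f : Finset L → ℤ) : Finset L → F := fun σ => (f σ : F)

lemma bd_cs (F : Type*) [Field F] (f : Finset L → ℤ) : bd F (cs F f) = cs F (bdZ f) := by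
  funext τ
  rw [bd_apply]
  show _ = ((∑ x, if x ∉ τ ∧ IsCh (insert x τ) then
    (-1) ^ (τ.filter (· < x)).card * f (insert x τ) else 0 : ℤ) : F)
  push_cast
  rfl

def CZ (Y : Set L) : Submodule ℤ (Finset L → ℤ) where
  carrier := {f | ∀ σ, ¬ (IsCh σ ∧ (σ : Set L) ⊆ Y) → f σ = 0}
  add_mem' := by
    intro f g hf hg σ h
    simp [hf σ h, hg σ h]
  zero_mem' := by intro σ _; rfl
  smul_mem' := by
    intro c f hf σ h
    simp [hf σ h]

omit [Fintype L] in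
lemma cs_mem (F : Type*) [Field F] {Y : Set L} {f : Finset L → ℤ} (hf : f ∈ CZ Y) :
    cs F f ∈ C F Y := fun σ h => by simp [cs, hf σ h]

omit [Fintype L] in
lemma mem_of_cs {Y : Set L} {f : Finset L → ℤ} (hf : cs ℚ f ∈ C ℚ Y) : f ∈ CZ Y :=
  fun σ h => by simpa [cs] using hf σ h

omit [Fintype L] [PartialOrder L] in
lemma cs_inj {f : Finset L → ℤ} (h : cs ℚ f = 0) : f = 0 :=
  funext fun σ => by simpa [cs] using congrFun h σ

open Pointwise in
theorem Sph.transfer (p : ℕ) [Fact p.Prime] {Y : Set L} {n : ℕ} {z : Finset L → ZMod p}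
    (hz : Sph (ZMod p) Y n z) : ∃ z', Sph ℚ Y n z' := by
  have hp : p.Prime := Fact.out
  have hp0 : (p : ℤ) ≠ 0 := by exact_mod_cast hp.ne_zero
  obtain ⟨σ₀, s1, -, -, s4⟩ := hz.exists_ne
  have hlift : ∀ u ∈ C (ZMod p) Y, ∃ v ∈ CZ Y, cs (ZMod p) v = u := fun u hu =>
    ⟨fun σ => ((u σ).val : ℤ), fun σ h => by simp [hu σ h], funext fun σ => by simp [cs]⟩
  have hdiv : ∀ f : Finset L → ℤ, cs (ZMod p) f = 0 → ∃ g, f = (p : ℤ) • g := by
    intro f hf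
    choose g hg using fun σ => (ZMod.intCast_zmod_eq_zero_iff_dvd (f σ) p).1 (congrFun hf σ)
    exact ⟨g, funext hg⟩
  have htop : ∀ (F : Type) [Field F], ∀ u ∈ C F Y, bd F u σ₀ = 0 := by
    intro F _ u hu
    have := congrFun (pr_bd_top hz.top hu) σ₀
    rwa [pr_apply, if_pos s4] at this
  have htopZ : ∀ u ∈ CZ Y, bdZ u σ₀ = 0 := by
    intro u hu
    have := htop ℚ _ (cs_mem ℚ hu)
    rw [bd_cs] at this
    simpa [cs] using this
  have hmem : ∀ u ∈ CZ Y, bdZ u ∈ CZ Y := fun u hu =>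
    mem_of_cs (bd_cs ℚ u ▸ bd_mem ℚ (cs_mem ℚ hu))
  have hdd : ∀ u : Finset L → ℤ, bdZ (bdZ u) = 0 := fun u =>
    cs_inj (by rw [← bd_cs, ← bd_cs, bd_bd])
  let Z : Submodule ℤ (Finset L → ℤ) :=
    CZ Y ⊓ LinearMap.ker bdZ ⊓ LinearMap.ker (LinearMap.proj σ₀)
  have hZ : ∀ f, f ∈ Z ↔ (f ∈ CZ Y ∧ bdZ f = 0) ∧ f σ₀ = 0 := fun f => Iff.rfl
  have hcan : ∀ g, (p : ℤ) • g ∈ Z → g ∈ Z := by
    intro g hg
    obtain ⟨⟨a1, a2⟩, a3⟩ := (hZ _).1 hg
    rw [map_smul, smul_eq_zero] at a2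
    exact (hZ _).2 ⟨⟨fun σ h => (mul_eq_zero.1 (a1 σ h)).resolve_left hp0, a2.resolve_left hp0⟩,
      (mul_eq_zero.1 a3).resolve_left hp0⟩
  obtain ⟨r, hr1, hr⟩ := Submodule.exists_sub_one_mem_and_smul_le_of_fg_of_le_sup
    (I := Ideal.span {(p : ℤ)}) (N := (CZ Y).map bdZ) (N' := Z) (P := Z)
    (IsNoetherian.noetherian Z) le_rfl (by
      intro f hf
      obtain ⟨⟨a1, a2⟩, a3⟩ := (hZ _).1 hf
      obtain ⟨c, u, hu, h⟩ := hz.span _ (cs_mem _ a1) (by rw [bd_cs, a2]; funext σ; simp [cs])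
      have hc : c = 0 := by
        have := congrFun h σ₀
        simp only [cs, a3, Int.cast_zero, Pi.add_apply, Pi.smul_apply, htop _ u hu, add_zero,
          smul_eq_mul] at this
        exact (mul_eq_zero.1 this.symm).resolve_right s1
      obtain ⟨v, hv, rfl⟩ := hlift u hu
      rw [hc, zero_smul, zero_add, bd_cs] at h
      obtain ⟨g, hg⟩ := hdiv (f - bdZ v) (funext fun σ => by
        simpa [cs, sub_eq_zero] using congrFun h σ)
      have hgZ : g ∈ Z := hcan g (hg ▸ (hZ _).2 ⟨⟨sub_mem a1 (hmem v hv),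
        by rw [map_sub, a2, hdd, sub_zero]⟩, by rw [Pi.sub_apply, a3, htopZ v hv, sub_zero]⟩)
      have : f = bdZ v + (p : ℤ) • g := by rw [← hg]; abel
      rw [this]
      exact Submodule.add_mem_sup ⟨v, hv, rfl⟩
        (Submodule.smul_mem_smul (Ideal.mem_span_singleton_self _) hgZ))
  have hr' : ∀ f ∈ Z, ∃ u ∈ CZ Y, bdZ u = r • f := fun f hf =>
    hr (Submodule.smul_mem_pointwise_smul f r Z hf)
  have hr2 : (r : ZMod p) = 1 := by
    have := (ZMod.intCast_zmod_eq_zero_iff_dvd _ p).2 (Ideal.mem_span_singleton.1 hr1)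
    push_cast at this
    exact sub_eq_zero.1 this
  have hr0 : (r : ℚ) ≠ 0 := by
    intro h
    have : r = 0 := by exact_mod_cast h
    rw [this] at hr2
    simp at hr2
  have hQ : ∀ f ∈ C ℚ Y, bd ℚ f = 0 → f σ₀ = 0 → ∃ u ∈ C ℚ Y, bd ℚ u = f := by
    intro f hf hb h0
    obtain ⟨b, hb2⟩ := IsLocalization.exist_integer_multiples_of_finite (nonZeroDivisors ℤ) f
    choose g hg using hb2
    have hb0 : ((b : ℤ) : ℚ) ≠ 0 := by exact_mod_cast nonZeroDivisors.coe_ne_zero b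
    have h1 : cs ℚ g = ((b : ℤ) : ℚ) • f := funext fun σ => by simpa [cs] using hg σ
    obtain ⟨u, hu, hu2⟩ := hr' g ((hZ _).2 ⟨⟨mem_of_cs (h1 ▸ Submodule.smul_mem _ _ hf),
      cs_inj (by rw [← bd_cs, h1, map_smul, hb, smul_zero])⟩,
      by simpa [cs, h0] using congrFun h1 σ₀⟩)
    refine ⟨((r : ℚ) * ((b : ℤ) : ℚ))⁻¹ • cs ℚ u, Submodule.smul_mem _ _ (cs_mem ℚ hu), ?_⟩
    have : cs ℚ (r • g) = (r : ℚ) • cs ℚ g := funext fun σ => by simp [cs]
    rw [map_smul, bd_cs, hu2, this, h1, smul_smul, smul_smul, mul_assoc,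
      inv_mul_cancel₀ (mul_ne_zero hr0 hb0), one_smul]
  obtain ⟨v, hv, hv2⟩ := hlift z hz.mem
  obtain ⟨g, hg⟩ := hdiv (bdZ v) (by rw [← bd_cs, hv2, hz.cyc])
  obtain ⟨u, hu, hu2⟩ := hr' g (hcan g (hg ▸ (hZ _).2 ⟨⟨hmem v hv, hdd v⟩, htopZ v hv⟩))
  have hw : r • v - (p : ℤ) • u ∈ CZ Y :=
    sub_mem (Submodule.smul_mem _ _ hv) (Submodule.smul_mem _ _ hu)
  have hw1 : bd ℚ (pr ℚ n (cs ℚ (r • v - (p : ℤ) • u))) = 0 := by
    apply bd_pr_eq_zero
    rw [bd_cs, map_sub, map_smul, map_smul, hu2, hg, smul_comm, sub_self]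
    intro σ _
    simp [cs]
  have hw2 : pr ℚ n (cs ℚ (r • v - (p : ℤ) • u)) σ₀ ≠ 0 := by
    rw [pr_apply, if_pos s4]
    intro h
    have h1 : r * v σ₀ - p * u σ₀ = 0 := Int.cast_eq_zero.1 h
    have h2 := congrArg (Int.cast : ℤ → ZMod p) h1
    have h3 : ((v σ₀ : ℤ) : ZMod p) = z σ₀ := congrFun hv2 σ₀
    simp [hr2, h3, s1] at h2
  have hm := pr_mem_C ℚ n (cs_mem ℚ hw)
  have hd := sup_mono ℚ (fun _ h => h.2) (pr_mem ℚ n (cs_mem ℚ hw))
  generalize pr ℚ n (cs ℚ (r • v - (p : ℤ) • u)) = w at hw1 hw2 hm hd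
  refine ⟨w, hm, hw1, fun h => hw2 (congrFun h σ₀), hd, hz.top, fun f hf hb => ?_⟩
  obtain ⟨u, hu, hu2⟩ := hQ (f - (f σ₀ / w σ₀) • w) (sub_mem hf (Submodule.smul_mem _ _ hm))
    (by rw [map_sub, map_smul, hb, hw1, smul_zero, sub_zero]) (by simp [hw2])
  exact ⟨_, u, hu, by rw [hu2]; abel⟩

/-- reduced Euler characteristic -/
def chi (Y : Set L) : ℚ :=
  ∑ σ : Finset L, if IsCh σ ∧ (σ : Set L) ⊆ Y then (-1 : ℚ) ^ σ.card else 0

lemma chi_empty {Y : Set L} (h : ∀ y, y ∉ Y) : chi Y = 1 := by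
  rw [chi, sum_eq_single ∅]
  · simp [isCh_empty]
  · intro σ _ hσ
    obtain ⟨x, hx⟩ := nonempty_iff_ne_empty.2 hσ
    exact if_neg fun h2 => h x (h2.2 hx)
  · simp

lemma exists_deg {F : Type*} [Field F] {Y : Set L} {n : ℕ} {z : Finset L → F} (hz : Sph F Y n z)
    (e : L ≃o L) (hY : ∀ y, e y ∈ Y ↔ y ∈ Y) : ∃ a : F, pull F e z = a • z :=
  hz.top_cycle (pull_mem F e (fun y => (hY y).1) hz.mem) (by rw [bd_pull, hz.cyc, map_zero])
    (pull_homog e hz.deg)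

theorem lefschetz {Y : Set L} {n : ℕ} {z : Finset L → ℚ} (hz : Sph ℚ Y n z) (e : L ≃o L)
    (hY : ∀ y, e y ∈ Y ↔ y ∈ Y) {a : ℚ} (ha : pull ℚ e z = a • z) :
    (-1) ^ n * a = chi (Fx Y e) := by
  have h : ∀ x ∈ C ℚ Y, (eps ∘ₗ pull ℚ e) x ∈ C ℚ Y :=
    fun x hx => wt_mem ℚ _ (pull_mem ℚ e (fun y => (hY y).1) hx)
  have h1 := hopf (U := C ℚ Y) ((bd ℚ).restrict (fun x hx => bd_mem ℚ hx))
    ((eps ∘ₗ pull ℚ e).restrict h) (fun x => Subtype.ext (bd_bd ℚ x.1))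
    (fun x => Subtype.ext (by
      simp only [LinearMap.coe_restrict_apply, LinearMap.comp_apply, NegMemClass.coe_neg]
      rw [bd_eps, bd_pull, neg_neg])) ⟨z, hz.mem⟩ (Subtype.ext hz.cyc)
    (fun u hu => hz.not_bd u.1 u.2 (congrArg Subtype.val hu))
    (fun y hy => by
      obtain ⟨c, u, hu, hu2⟩ := hz.span y.1 y.2 (congrArg Subtype.val hy)
      exact ⟨c, ⟨u, hu⟩, Subtype.ext hu2⟩) ((-1) ^ n * a) 0 (Subtype.ext (by
      simp only [LinearMap.coe_restrict_apply, LinearMap.comp_apply, map_zero, add_zero,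
        SetLike.val_smul]
      rw [ha, map_smul, eps, wt_homog _ hz.deg, smul_smul, mul_comm]))
  rw [← h1, trace_formula e (fun y => (hY y).1) h, chi]
  have : Finite (L ≃o L) := Finite.of_injective _ RelIso.toEquiv_injective
  refine sum_congr rfl fun σ _ => if_congr ?_ rfl rfl
  constructor
  · rintro ⟨a1, a2, a3⟩
    refine ⟨a2, fun y hy => ⟨a3 hy, fixed_of_comparable (orderOf e) (orderOf_pos e) e
      (pow_orderOf_eq_one e) y (a2 _ ?_ y hy)⟩⟩
    rw [← a1]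
    exact mem_image_of_mem _ hy
  · rintro ⟨a1, a2⟩
    exact ⟨by rw [image_congr (g := id) (fun y hy => (a2 hy).2), image_id], a1,
      fun y hy => (a2 hy).1⟩

lemma lef_pair {Y : Set L} {n : ℕ} {z w : Finset L → ℚ} (hz : Sph ℚ Y (n + 1) z) (t g : L ≃o L)
    (ht : ∀ y, t y ∈ Y ↔ y ∈ Y) (hg : ∀ y, g y ∈ Y ↔ y ∈ Y) (hw : Sph ℚ (Fx Y t) n w) :
    ∃ x ∈ Y, g x = x ∨ g (t x) = x := by
  by_contra hcon
  push Not at hcon
  obtain ⟨a, ha⟩ := exists_deg hz t ht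
  obtain ⟨b, hb⟩ := exists_deg hz g hg
  have h1 := lefschetz hz t ht ha
  have h2 := lefschetz hz g hg hb
  have h3 := lefschetz hz (g * t) (fun y => by rw [RelIso.mul_apply, hg, ht]) (a := b * a)
    (by rw [← pull_pull, hb, map_smul, ha, smul_smul])
  have h4 := lefschetz hw 1 (fun y => Iff.rfl) (a := 1) (by rw [pull_one, one_smul])
  have h5 : Fx (Fx Y t) 1 = Fx Y t := by ext y; simp [Fx]
  rw [chi_empty fun y hy => (hcon y hy.1).1 hy.2] at h2
  rw [chi_empty fun y hy => (hcon y hy.1).2 hy.2, ← mul_assoc, h2, one_mul] at h3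
  rw [h5, ← h1, h3, pow_succ] at h4
  have : (-1 : ℚ) ^ n = 0 := by linarith
  simp at this

lemma lef_odd {Y : Set L} {n : ℕ} {z : Finset L → ℚ} (hz : Sph ℚ Y n z) (hn : Odd n)
    (e : L ≃o L) (hY : ∀ y, e y ∈ Y ↔ y ∈ Y) {k : ℕ} (hk : Odd k) (he : e ^ k = 1) :
    ∃ x ∈ Y, e x = x := by
  by_contra hcon
  push Not at hcon
  obtain ⟨a, ha⟩ := exists_deg hz e hY
  have h1 := lefschetz hz e hY ha
  rw [chi_empty fun y hy => hcon y hy.1 hy.2, hn.neg_one_pow] at h1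
  have h2 : ∀ j : ℕ, pull ℚ (e ^ j) z = a ^ j • z := by
    intro j
    induction j with
    | zero => simp [pull_one]
    | succ j ih => rw [pow_succ, ← pull_pull, ih, map_smul, ha, smul_smul, pow_succ]
  have h3 := h2 k
  have h4 : a = -1 := by linarith
  rw [he, pull_one, h4, hk.neg_one_pow] at h3
  apply hz.ne
  have : (2 : ℚ) • z = 0 := by linear_combination (norm := module) h3
  simpa using this

end

end Pool.Agent.MP_23c9d7_co
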