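import Pool.Agent.MP_23c9d7_co.H90.Smith
import Pool.Agent.MP_23c9d7_co.H90.Lef

/-! Symmetric groups whose transpositions act as reflections. -/

namespace Pool.Agent.MP_23c9d7_co

open Classical Finset Equiv

noncomputable section

variable {L : Type*} [Fintype L] [PartialOrder L] {Y : Set L}

/-- a chain of maximal size -/
def Flag (Y : Set L) (σ : Finset L) : Prop := IsCh σ ∧ (σ : Set L) ⊆ Y ∧ σ.card = dm Y

lemma Flag.image {σ : Finset L} (h : Flag Y σ) {e : L ≃o L} (he : ∀ y, e y ∈ Y ↔ y ∈ Y) :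
    Flag Y (σ.image e) :=
  ⟨(isCh_image e σ).2 h.1, (image_sub_iff he σ).2 h.2.1, (card_image_iso e σ).trans h.2.2⟩

lemma Ext.flag {τ : Finset L} {a : L} (h : Ext Y τ a) (h1 : (τ : Set L) ⊆ Y)
    (h2 : τ.card + 1 = dm Y) : Flag Y (insert a τ) :=
  ⟨h.2.2, by rw [coe_insert]; exact Set.insert_subset h.1 h1,
    by rw [card_insert_of_notMem h.2.1, h2]⟩

omit [Fintype L] in
lemma image_insert_fix {e : L ≃o L} {τ : Finset L} (hτ : ∀ y ∈ τ, e y = y) (a : L) :
    (insert a τ).image e = insert (e a) τ := by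
  rw [image_insert, image_congr (g := id) (fun y hy => hτ y hy), image_id]

lemma Ext.ne_of_dm {τ : Finset L} {a : L} (h : Ext Y τ a) (h1 : (τ : Set L) ⊆ Y)
    (h2 : τ.card + 1 = dm Y) {t : L ≃o L} (ht : dm (Fx Y t) + 1 = dm Y)
    (hτ : ∀ y ∈ τ, t y = y) : t a ≠ a := by
  intro h4
  have := le_dm (Y := Fx Y t) h.2.2 (by
    rw [coe_insert]; exact Set.insert_subset ⟨h.1, h4⟩ fun y hy => ⟨h1 hy, hτ y hy⟩)
  rw [card_insert_of_notMem h.2.1] at this
  omega

/-- `s` tells the two sides of the wall of `t` apart -/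
def Side (Y : Set L) (t : L ≃o L) (s : Finset L → Prop) : Prop :=
  ∀ τ : Finset L, (τ : Set L) ⊆ Y → τ.card + 1 = dm Y → ∀ a b, Ext Y τ a → Ext Y τ b → a ≠ b →
    ((s (insert a τ) ↔ s (insert b τ)) ↔ ¬ ∀ y ∈ τ, t y = y)

lemma Side.uniq {F : Type*} [Field F] (h : Gor F Y) {t : L ≃o L} {s s' : Finset L → Prop}
    (hs : Side Y t s) (hs' : Side Y t s') {σ σ' : Finset L} (h1 : Flag Y σ) (h2 : Flag Y σ')
    (e : s σ ↔ s' σ) : s σ' ↔ s' σ' := by
  refine h.const (fun σ => s σ ↔ s' σ) ?_ h1.1 h1.2.1 h1.2.2 h2.1 h2.2.1 h2.2.2 e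
  intro τ t1 t2 a b ha hb hP
  by_cases hab : a = b
  · rwa [← hab]
  · have := hs τ t1 t2 a b ha hb hab
    have := hs' τ t1 t2 a b ha hb hab
    tauto

lemma Side.not {t : L ≃o L} {s : Finset L → Prop} (hs : Side Y t s) :
    Side Y t fun σ => ¬ s σ := by
  intro τ t1 t2 a b ha hb hab
  have := hs τ t1 t2 a b ha hb hab
  tauto

lemma Side.congr {t : L ≃o L} {s s' : Finset L → Prop} (hs : Side Y t s)
    (h : ∀ σ, Flag Y σ → (s' σ ↔ s σ)) : Side Y t s' := by
  intro τ t1 t2 a b ha hb hab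
  rw [h _ (ha.flag t1 t2), h _ (hb.flag t1 t2)]
  exact hs τ t1 t2 a b ha hb hab

lemma Side.conj {t t' e : L ≃o L} {s : Finset L → Prop} (hs : Side Y t s)
    (he : ∀ y, e y ∈ Y ↔ y ∈ Y) (h : ∀ y, t (e y) = e (t' y)) :
    Side Y t' fun σ => s (σ.image e) := by
  intro τ t1 t2 a b ha hb hab
  have key : ∀ a, Ext Y τ a → Ext Y (τ.image e) (e a) := fun a ha =>
    ⟨(he a).2 ha.1, by simpa using ha.2.1, by
      rw [← image_insert]; exact (isCh_image e _).2 ha.2.2⟩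
  have := hs (τ.image e) ((image_sub_iff he τ).2 t1) (by rwa [card_image_iso]) _ _ (key a ha)
    (key b hb) (e.injective.ne hab)
  simpa [image_insert, h] using this

lemma exists_side (h : Gor (ZMod 2) Y) {t : L ≃o L} (h2 : t ^ 2 = 1)
    (ht : ∀ y, t y ∈ Y ↔ y ∈ Y) (hd : dm (Fx Y t) + 1 = dm Y) : ∃ s, Side Y t s := by
  have hG := h.fx 2 t h2 ht
  obtain ⟨z, hz⟩ := h.sph
  obtain ⟨w, hw⟩ := hG.sph
  obtain ⟨u, hu, -, hu2⟩ := hz.low_cycle (j := dm (Fx Y t)) (by omega)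
    (C_mono _ (fun y hy => hy.1) hw.mem) (by rw [pr_eq_self _ hw.deg, hw.cyc])
  rw [pr_eq_self _ hw.deg] at hu2
  refine ⟨fun σ => u σ = 1, fun τ t1 t2 a b ha hb hab => ?_⟩
  have h1 : w τ = u (insert a τ) + u (insert b τ) := by
    have hsg : ∀ x, sg (ZMod 2) x τ = 1 := fun x => by
      rw [sg, CharTwo.neg_eq, one_pow]
    rw [← hu2, bd_apply, ← sum_subset (subset_univ {a, b}), sum_pair hab, if_pos ha.2,
      if_pos hb.2, hsg, hsg, one_mul, one_mul]
    intro c _ hc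
    split_ifs with h3
    · rw [hu, mul_zero]
      intro h4
      exact hc (by simpa using h.two τ t1 t2 a b c ha hb ⟨h4.2 (by simp), h3⟩ hab)
    · rfl
  have h3 : w τ = 0 ↔ ¬ ∀ y ∈ τ, t y = y :=
    ⟨fun h4 h5 => hG.top_ne hw τ (ha.2.2.mono (subset_insert _ _))
      (fun y hy => ⟨t1 hy, h5 y hy⟩) (by omega) h4,
      fun h4 => hw.mem τ fun h5 => h4 fun y hy => (h5.2 hy).2⟩
  rw [← h3, h1]
  beta_reduce
  generalize u (insert a τ) = x, u (insert b τ) = y
  revert x y; decide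

/-- a symmetric group acting with transpositions as distinct reflections -/
structure RA (Y : Set L) {β : Type} [DecidableEq β] (ρ : Perm β →* (L ≃o L)) : Prop where
  gor : Gor (ZMod 2) Y
  inv : ∀ g y, ρ g y ∈ Y ↔ y ∈ Y
  refl : ∀ i j, i ≠ j → dm (Fx Y (ρ (swap i j))) + 1 = dm Y
  faith : ∀ i j k l, i ≠ j → k ≠ l → (∀ y ∈ Y, ρ (swap i j * swap k l) y = y) →
    swap i j = swap k l

variable {β : Type} [DecidableEq β] {ρ : Perm β →* (L ≃o L)}

omit [Fintype L] [DecidableEq β] in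
lemma rho_mul (g g' : Perm β) (y : L) : ρ (g * g') y = ρ g (ρ g' y) := by rw [map_mul]; rfl

omit [Fintype L] [DecidableEq β] in
lemma rho_image (g g' : Perm β) (σ : Finset L) :
    (σ.image (ρ g')).image (ρ g) = σ.image (ρ (g * g')) := by
  rw [image_image, map_mul]; rfl

lemma RA.wall (h : RA Y ρ) {i j k l : β} (hij : i ≠ j) (hkl : k ≠ l) {τ : Finset L} {a : L}
    (t1 : (τ : Set L) ⊆ Y) (t2 : τ.card + 1 = dm Y) (ha : Ext Y τ a)
    (h1 : ∀ y ∈ τ, ρ (swap i j) y = y) (h2 : ∀ y ∈ τ, ρ (swap k l) y = y) :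
    swap i j = swap k l := by
  have a1 := ha.ne_of_dm t1 t2 (h.refl i j hij) h1
  have a2 := ha.ne_of_dm t1 t2 (h.refl k l hkl) h2
  have a3 := (h.gor.two τ t1 t2 a _ _ ha (ha.map _ (fun y => (h.inv _ y).2) h1)
    (ha.map _ (fun y => (h.inv _ y).2) h2) a1.symm).resolve_left a2
  obtain ⟨f1, f2, f3⟩ := ha.flag t1 t2
  refine h.faith i j k l hij hkl (h.gor.fix _ (fun y => (h.inv _ y).2) f1 f2 f3 fun y hy => ?_)
  rw [rho_mul]
  rcases mem_insert.1 hy with rfl | hy'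
  · rw [a3, ← rho_mul, swap_mul_self, map_one]; rfl
  · rw [h2 y hy', h1 y hy']

lemma RA.ridge (h : RA Y ρ) {i j : β} (hij : i ≠ j) : ∃ (τ : Finset L) (a : L),
    (τ : Set L) ⊆ Y ∧ τ.card + 1 = dm Y ∧ Ext Y τ a ∧ ∀ y ∈ τ, ρ (swap i j) y = y := by
  obtain ⟨τ, h1, h2, h3⟩ := exists_dm (Fx Y (ρ (swap i j)))
  have h4 := h.refl i j hij
  obtain ⟨a, ha⟩ := h.gor.exists_ext τ h1 (fun y hy => (h2 hy).1) (by omega)
  exact ⟨τ, a, fun y hy => (h2 hy).1, by omega, ha, fun y hy => (h2 hy).2⟩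

omit [DecidableEq β] in
lemma exists_perm2 {i j k l : β} (hij : i ≠ j) (hkl : k ≠ l) :
    ∃ g : Perm β, g i = k ∧ g j = l := by
  refine ⟨swap (swap i k j) l * swap i k, ?_, by simp⟩
  rw [Perm.mul_apply, swap_apply_left, swap_apply_of_ne_of_ne _ hkl]
  intro h
  exact hij ((swap i k).injective ((swap_apply_left i k).trans h))

lemma RA.exists_lt [Fintype β] (h : RA Y ρ) {i₀ j₀ : β} (h0 : i₀ ≠ j₀) :
    ∃ lt : Finset L → β → β → Prop,
      (∀ σ g i j, lt (σ.image (ρ g)) (g i) (g j) ↔ lt σ i j) ∧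
      (∀ σ, Flag Y σ → ∀ i j, i ≠ j → (lt σ j i ↔ ¬ lt σ i j)) ∧
      ∀ i j, i ≠ j → Side Y (ρ (swap i j)) fun σ => lt σ i j := by
  obtain ⟨s, hs⟩ := exists_side h.gor (t := ρ (swap i₀ j₀))
    (by rw [← map_pow, sq, swap_mul_self, map_one]) (h.inv _) (h.refl _ _ h0)
  have hconj : ∀ (g : Perm β) i j, g i = i₀ → g j = j₀ →
      Side Y (ρ (swap i j)) fun σ => s (σ.image (ρ g)) := by
    rintro g i j rfl rfl
    exact hs.conj (h.inv g) fun y => by rw [← rho_mul, ← rho_mul, mul_swap_eq_swap_mul]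
  have hflip : ∀ σ, Flag Y σ → (s (σ.image (ρ (swap i₀ j₀))) ↔ ¬ s σ) := by
    intro σ hσ
    obtain ⟨τ, a, t1, t2, ha, hτ⟩ := h.ridge h0
    refine Side.uniq h.gor (hs.conj (h.inv _) fun y => rfl) hs.not (ha.flag t1 t2) hσ ?_
    have := hs τ t1 t2 a _ ha (ha.map _ (fun y => (h.inv _ y).2) hτ)
      (ha.ne_of_dm t1 t2 (h.refl _ _ h0) hτ).symm
    simp only [image_insert_fix hτ]
    tauto
  have hstab : ∀ g : Perm β, g i₀ = i₀ → g j₀ = j₀ → ∀ σ, Flag Y σ →
      (s (σ.image (ρ g)) ↔ s σ) := by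
    intro g g1 g2
    have hp : ∀ x, (g x ≠ i₀ ∧ g x ≠ j₀) ↔ (x ≠ i₀ ∧ x ≠ j₀) := by
      intro x
      conv_lhs => rw [← g1, ← g2]
      simp
    rw [← Perm.ofSubtype_subtypePerm (p := fun x => x ≠ i₀ ∧ x ≠ j₀) hp (fun x hx =>
      ⟨by rintro rfl; exact hx g1, by rintro rfl; exact hx g2⟩)]
    generalize g.subtypePerm (p := fun x => x ≠ i₀ ∧ x ≠ j₀) hp = g'
    induction g' using Perm.swap_induction_on with
    | one => intro σ _; simp
    | swap_mul f k l hkl ih =>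
      intro σ hσ
      rw [map_mul, Perm.ofSubtype_swap_eq, ← rho_image, ← ih σ hσ]
      have hkl' : (k : β) ≠ l := fun h => hkl (Subtype.ext h)
      obtain ⟨τ, a, t1, t2, ha, hτ⟩ := h.ridge hkl'
      have c1 : swap (k : β) l i₀ = i₀ := swap_apply_of_ne_of_ne k.2.1.symm l.2.1.symm
      refine Side.uniq h.gor (hconj (swap k l) i₀ j₀ c1
        (swap_apply_of_ne_of_ne k.2.2.symm l.2.2.symm)) hs (ha.flag t1 t2)
        (hσ.image (h.inv _)) ?_
      have := hs τ t1 t2 a _ ha (ha.map _ (fun y => (h.inv _ y).2) hτ)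
        (ha.ne_of_dm t1 t2 (h.refl _ _ hkl') hτ).symm
      simp only [image_insert_fix hτ]
      refine (this.2 fun h5 => h0 ?_).symm
      rw [← h.wall h0 hkl' t1 t2 ha h5 hτ, swap_apply_left] at c1
      exact c1.symm
  let lt : Finset L → β → β → Prop := fun σ i j =>
    ∃ g : Perm β, g i = i₀ ∧ g j = j₀ ∧ s (σ.image (ρ g))
  have hlt : ∀ σ, Flag Y σ → ∀ (g : Perm β) i j, g i = i₀ → g j = j₀ →
      (lt σ i j ↔ s (σ.image (ρ g))) := by
    intro σ hσ g i j g1 g2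
    refine ⟨?_, fun h => ⟨g, g1, g2, h⟩⟩
    rintro ⟨g', a1, a2, a3⟩
    have := hstab (g * g'⁻¹) 
      (by rw [Perm.mul_apply, Perm.inv_eq_iff_eq.2 a1.symm, g1])
      (by rw [Perm.mul_apply, Perm.inv_eq_iff_eq.2 a2.symm, g2]) _
      (hσ.image (h.inv g'))
    rw [rho_image, inv_mul_cancel_right] at this
    exact this.2 a3
  refine ⟨lt, fun σ g i j => ⟨?_, ?_⟩, fun σ hσ i j hij => ?_, fun i j hij => ?_⟩
  · rintro ⟨g', a1, a2, a3⟩
    exact ⟨g' * g, a1, a2, by rwa [rho_image] at a3⟩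
  · rintro ⟨g', a1, a2, a3⟩
    exact ⟨g' * g⁻¹, by simpa using a1, by simpa using a2,
      by rwa [rho_image, inv_mul_cancel_right]⟩
  · obtain ⟨g, g1, g2⟩ := exists_perm2 hij h0
    rw [hlt σ hσ g i j g1 g2, hlt σ hσ (swap i₀ j₀ * g) j i (by simp [g2]) (by simp [g1]),
      ← rho_image, hflip _ (hσ.image (h.inv g))]
  · obtain ⟨g, g1, g2⟩ := exists_perm2 hij h0
    exact (hconj g i j g1 g2).congr fun σ hσ => hlt σ hσ g i j g1 g2

omit [DecidableEq β] in
lemma no_cyc [Finite β] (r : β → β → Prop) (h1 : ∀ a, ¬ r a a)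
    (h2 : ∀ a b c, r a b → r b c → r a c) (g : Perm β) (i : β)
    (h : ∀ m : ℕ, r ((g ^ m) i) (g ((g ^ m) i))) : False := by
  have : ∀ m : ℕ, r i ((g ^ (m + 1)) i) := by
    intro m
    induction m with
    | zero => simpa using h 0
    | succ m ih => exact h2 _ _ _ ih (by rw [pow_succ' g (m + 1)]; exact h (m + 1))
  have h3 := this (orderOf g - 1)
  rw [Nat.sub_add_cancel (orderOf_pos g), pow_orderOf_eq_one] at h3
  exact h1 _ h3

lemma RA.vertex [Fintype β] (h : RA Y ρ) {x : L} (hx : x ∈ Y) {g : Perm β} (hg : ρ g x = x)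
    (i : β) : ρ (swap i (g i)) x = x := by
  by_contra hcon
  have hne : ∀ i j, ρ (swap i j) x ≠ x → i ≠ j := by
    rintro i j h rfl
    apply h
    rw [swap_self, ← Perm.one_def, map_one]; rfl
  obtain ⟨lt, hE, hA, hS⟩ := h.exists_lt (hne _ _ hcon)
  have step : ∀ i j k, i ≠ j → j ≠ k → k ≠ i → ∀ τ : Finset L, (τ : Set L) ⊆ Y →
      τ.card + 1 = dm Y → ∀ a, Ext Y τ a → lt (insert a τ) j k → lt (insert a τ) k i →
      ¬ ∀ y ∈ τ, ρ (swap i j) y = y := by
    intro i j k hij hjk hki τ t1 t2 a ha l1 l2 hτ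
    have hb := ha.map _ (fun y => (h.inv _ y).2) hτ
    have a1 := (hE _ (swap i j) _ _).2 l1
    rw [image_insert_fix hτ, swap_apply_right, swap_apply_of_ne_of_ne hki hjk.symm] at a1
    refine (hA _ (hb.flag t1 t2) k i hki).1 a1 (((hS k i hki τ t1 t2 a _ ha hb
      (ha.ne_of_dm t1 t2 (h.refl _ _ hij) hτ).symm).2 fun h5 => hjk ?_).1 l2)
    rw [← swap_apply_left i j, h.wall hij hki t1 t2 ha hτ h5, swap_apply_right]
  have tri : ∀ i j k, i ≠ j → j ≠ k → k ≠ i → ∀ σ, Flag Y σ →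
      ¬ (lt σ i j ∧ lt σ j k ∧ lt σ k i) := by
    intro i j k hij hjk hki σ hσ hP
    have hσ' := hσ.image (h.inv (swap i j))
    have := h.gor.const (fun σ => lt σ i j ∧ lt σ j k ∧ lt σ k i) (by
      intro τ t1 t2 a b ha hb ⟨l1, l2, l3⟩
      by_cases hab : a = b
      · exact hab ▸ ⟨l1, l2, l3⟩
      exact ⟨((hS i j hij τ t1 t2 a b ha hb hab).2
          (step i j k hij hjk hki τ t1 t2 a ha l2 l3)).1 l1,
        ((hS j k hjk τ t1 t2 a b ha hb hab).2 (step j k i hjk hki hij τ t1 t2 a ha l3 l1)).1 l2,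
        ((hS k i hki τ t1 t2 a b ha hb hab).2 (step k i j hki hij hjk τ t1 t2 a ha l1 l2)).1 l3⟩)
      hσ.1 hσ.2.1 hσ.2.2 hσ'.1 hσ'.2.1 hσ'.2.2 hP
    have a1 := (hE _ (swap i j) _ _).2 hP.1
    rw [swap_apply_left, swap_apply_right] at a1
    exact (hA _ hσ' i j hij).1 a1 this.1
  obtain ⟨c, c1, c2, c3, c4⟩ := h.gor.exists_flag hx
  have hc : Flag Y c := ⟨c1, c2, c3⟩
  have hdl := h.gor.dm_lk hx
  have loc : ∀ i j, ρ (swap i j) x ≠ x → ∀ σ σ', Flag Y σ → Flag Y σ' → x ∈ σ → x ∈ σ' →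
      lt σ i j → lt σ' i j := by
    intro i j hij σ σ' h1 h2 x1 x2 hl
    obtain ⟨a1, a2⟩ := erase_lk x1 h1.1 h1.2.1
    obtain ⟨b1, b2⟩ := erase_lk x2 h2.1 h2.2.1
    have a3 := card_erase_add_one x1
    have b3 := card_erase_add_one x2
    have a4 := h1.2.2
    have b4 := h2.2.2
    rw [← insert_erase x2]
    refine (h.gor.lk hx).const (fun σ => lt (insert x σ) i j) ?_ a1 a2 (by omega) b1 b2
      (by omega) (by rwa [insert_erase x1])
    intro τ t1 t2 a b ha hb hP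
    by_cases hab : a = b
    · rwa [← hab]
    obtain ⟨k1, -, k3⟩ := insert_lk hx (ha.2.2.mono (subset_insert _ _)) t1
    have key : ∀ a, Ext (Lk Y x) τ a → Ext Y (insert x τ) a := fun a ha =>
      ⟨ha.1.1, by simp [ha.1.2.1, ha.2.1], by
        rw [insert_comm]
        exact (insert_lk hx ha.2.2 (by rw [coe_insert]; exact Set.insert_subset ha.1 t1)).2.1⟩
    rw [insert_comm] at hP ⊢
    exact ((hS i j (hne i j hij) _ k3 (by rw [card_insert_of_notMem k1]; omega) a b (key a ha)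
      (key b hb) hab).2 fun h5 => hij (h5 x (mem_insert_self _ _))).1 hP
  have mv : ∀ i j, ρ (swap i j) x ≠ x → ρ (swap (g i) (g j)) x ≠ x ∧
      (lt c i j → lt c (g i) (g j)) := by
    intro i j hij
    have a1 : ρ (swap (g i) (g j)) x ≠ x := by
      intro h5
      apply hij
      apply (ρ g).injective
      rw [← rho_mul, mul_swap_eq_swap_mul, rho_mul, hg, h5]
    exact ⟨a1, fun l => loc _ _ a1 _ _ (hc.image (h.inv g)) hc
      (hg ▸ mem_image_of_mem _ c4) c4 ((hE c g i j).2 l)⟩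
  have it : ∀ i j, ρ (swap i j) x ≠ x → lt c i j → ∀ m : ℕ,
      ρ (swap ((g ^ m) i) ((g ^ m) j)) x ≠ x ∧ lt c ((g ^ m) i) ((g ^ m) j) := by
    intro i j h1 h2 m
    induction m with
    | zero => exact ⟨h1, h2⟩
    | succ m ih =>
      rw [pow_succ']
      exact ⟨(mv _ _ ih.1).1, (mv _ _ ih.1).2 ih.2⟩
  have tr : ∀ a b d, (a ≠ b ∧ lt c a b) → (b ≠ d ∧ lt c b d) → (a ≠ d ∧ lt c a d) := by
    rintro a b d ⟨a1, a2⟩ ⟨b1, b2⟩
    have : a ≠ d := by
      rintro rfl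
      exact (hA c hc a b a1).1 b2 a2
    refine ⟨this, ?_⟩
    by_contra h5
    exact tri a b d a1 b1 this.symm c hc ⟨a2, b2, (hA c hc a d this).2 h5⟩
  have cm : ∀ m : ℕ, (g ^ m) (g i) = g ((g ^ m) i) := fun m => by
    rw [← Perm.mul_apply, ← pow_succ, pow_succ', Perm.mul_apply]
  by_cases hl : lt c i (g i)
  · refine no_cyc (fun a b => a ≠ b ∧ lt c a b) (fun a h => h.1 rfl) tr g i fun m => ?_
    have := it _ _ hcon hl m
    rw [cm] at this
    exact ⟨hne _ _ this.1, this.2⟩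
  · refine no_cyc (fun a b => b ≠ a ∧ lt c b a) (fun a h => h.1 rfl)
      (fun a b d h1 h2 => tr d b a h2 h1) g i fun m => ?_
    have := it _ _ (swap_comm i (g i) ▸ hcon) ((hA c hc _ _ (hne _ _ hcon)).2 hl) m
    rw [cm] at this
    exact ⟨hne _ _ this.1, this.2⟩

lemma RA.link (h : RA Y ρ) {x : L} (hx : x ∈ Y) (hf : ∀ g, ρ g x = x) : RA (Lk Y x) ρ := by
  refine ⟨h.gor.lk hx, fun g => lk_inv (h.inv g) (hf g), fun i j hij => ?_,
    fun i j k l h1 h2 h3 => h.faith i j k l h1 h2 ?_⟩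
  · have h1 : Fx (Lk Y x) (ρ (swap i j)) = Lk (Fx Y (ρ (swap i j))) x := by
      ext y
      simp only [Fx, Lk, Set.mem_ofPred_eq]
      tauto
    have h2 := (h.gor.fx 2 (ρ (swap i j)) (by rw [← map_pow, sq, swap_mul_self, map_one])
      (h.inv _)).dm_lk (x := x) ⟨hx, hf _⟩
    have h3 := h.gor.dm_lk hx
    have h4 := h.refl i j hij
    rw [h1]
    omega
  · obtain ⟨c, c1, c2, c3, c4⟩ := h.gor.exists_flag hx
    refine h.gor.fix _ (fun y => (h.inv _ y).2) c1 c2 c3 fun y hy => ?_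
    by_cases hyx : y = x
    · rw [hyx, hf]
    · exact h3 y ⟨c2 hy, hyx, c1 y hy x c4⟩

lemma RA.sub (h : RA Y ρ) (P : β → Prop) [DecidablePred P] :
    RA Y (ρ.comp (Perm.ofSubtype : Perm (Subtype P) →* Perm β)) := by
  refine ⟨h.gor, fun g => h.inv _, fun i j hij => ?_, fun i j k l h1 h2 h3 => ?_⟩
  · rw [MonoidHom.comp_apply, Perm.ofSubtype_swap_eq]
    exact h.refl _ _ fun e => hij (Subtype.ext e)
  · apply Perm.ofSubtype_injective
    rw [Perm.ofSubtype_swap_eq, Perm.ofSubtype_swap_eq]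
    refine h.faith _ _ _ _ (fun e => h1 (Subtype.ext e)) (fun e => h2 (Subtype.ext e)) ?_
    simpa only [MonoidHom.comp_apply, map_mul, Perm.ofSubtype_swap_eq] using h3

theorem refl_bound (n : ℕ) : ∀ {β : Type} [Fintype β] [DecidableEq β] {ρ : Perm β →* (L ≃o L)}
    {Y : Set L}, RA Y ρ → dm Y = n → Fintype.card β ≤ n + 1 := by
  induction n with
  | zero =>
    intro β _ _ ρ Y h hn
    refine Fintype.card_le_one_iff.2 fun i j => ?_
    by_contra hij
    have := h.refl i j hij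
    omega
  | succ n ih =>
    intro β _ _ ρ Y h hn
    by_cases h1 : Fintype.card β ≤ 1
    · omega
    obtain ⟨i₀, i₁, h01⟩ := Fintype.exists_pair_of_one_lt_card (not_le.1 h1)
    obtain ⟨g, hg, hg2⟩ := Finset.exists_cycleOn (univ.erase i₀)
    have hg0 : g i₀ = i₀ := by
      by_contra h5
      simpa using hg2 (Perm.mem_support.2 h5)
    obtain ⟨z0, hz0⟩ := h.gor.sph
    obtain ⟨z, hz⟩ := hz0.transfer 2
    obtain ⟨w0, hw0⟩ := (h.gor.fx 2 (ρ (swap i₀ i₁))
      (by rw [← map_pow, sq, swap_mul_self, map_one]) (h.inv _)).sph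
    obtain ⟨w, hw⟩ := hw0.transfer 2
    have h2 : dm (Fx Y (ρ (swap i₀ i₁))) = n := by have := h.refl _ _ h01; omega
    rw [hn] at hz
    rw [h2] at hw
    obtain ⟨x, hx, hx2⟩ := lef_pair hz _ (ρ g) (h.inv _) (h.inv _) hw
    have tr : ∀ a b c, ρ (swap a b) x = x → ρ (swap b c) x = x → ρ (swap a c) x = x := by
      intro a b c k1 k2
      by_cases hab : a = b
      · rwa [hab]
      by_cases hac : a = c
      · rw [hac, swap_self, ← Perm.one_def, map_one]; rfl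
      rw [swap_comm, ← swap_mul_swap_mul_swap hab hac, rho_mul, rho_mul, k2, k1, k2]
    have h3 : ∀ i, i ≠ i₀ → ρ (swap i (g i)) x = x := by
      intro i hi
      rcases hx2 with k | k
      · exact h.vertex hx k i
      · rw [← rho_mul] at k
        have k' := h.vertex hx k
        by_cases hi1 : i = i₁
        · have a1 := k' i₀
          have a2 := k' i₁
          rw [Perm.mul_apply, swap_apply_left] at a1
          rw [Perm.mul_apply, swap_apply_right, hg0] at a2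
          rw [hi1]
          exact tr _ _ _ a2 a1
        · simpa [swap_apply_of_ne_of_ne hi hi1] using k' i
    have h4 : ∀ i j, i ≠ i₀ → j ≠ i₀ → ρ (swap i j) x = x := by
      intro i j hi hj
      obtain ⟨m, -, rfl⟩ := hg.exists_pow_eq (a := i) (b := j) (by simpa using hi)
        (by simpa using hj)
      clear hj
      induction m with
      | zero => rw [pow_zero, Perm.one_apply, swap_self, ← Perm.one_def, map_one]; rfl
      | succ m ih =>
        rw [pow_succ', Perm.mul_apply]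
        refine tr _ _ _ ih (h3 _ fun e => hi ?_)
        exact (g ^ m).injective (e.trans (Perm.pow_apply_eq_self_of_apply_eq_self hg0 m).symm)
    have h5 := (h.sub fun i => i ≠ i₀).link hx fun g => by
      induction g using Perm.swap_induction_on with
      | one => rw [map_one]; rfl
      | swap_mul f k l _ ih =>
        rw [rho_mul, ih, MonoidHom.comp_apply, Perm.ofSubtype_swap_eq, h4 _ _ k.2 l.2]
    have h6 := ih h5 (by have := h.gor.dm_lk hx; omega)
    rw [Fintype.card_subtype_compl, Fintype.card_subtype_eq] at h6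
    omega

theorem RA.bound [Fintype β] (h : RA Y ρ) : Fintype.card β ≤ dm Y + 1 := refl_bound _ h rfl

theorem RA.bound' [Fintype β] (h : RA Y ρ) {x : L} (hx : x ∈ Y) (hf : ∀ g, ρ g x = x) :
    Fintype.card β ≤ dm Y := h.gor.dm_lk hx ▸ (h.link hx hf).bound

end

end Pool.Agent.MP_23c9d7_co
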