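import Pool.Agent.MP_23c9d7_co.H90.Mono
import Pool.Agent.MP_23c9d7_co.H90.Refl

/-! Symmetric groups of even degree. -/

namespace Pool.Agent.MP_23c9d7_co

open Classical Finset Equiv

noncomputable section

variable {L : Type*} [Fintype L] [PartialOrder L] {X : Set L}

omit [Fintype L] in
lemma inv_iff [Finite L] (e : L ≃o L) {Z : Set L} (h : ∀ y ∈ Z, e y ∈ Z) (y : L) :
    e y ∈ Z ↔ y ∈ Z := by
  have := ((Set.toFinite Z).injOn_iff_bijOn_of_mapsTo h).1 e.injective.injOn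
  refine ⟨fun hy => ?_, h y⟩
  obtain ⟨y', h1, h2⟩ := this.surjOn hy
  rwa [← e.injective h2]

lemma choose_big {r k : ℕ} (hr : 5 ≤ r) (h1 : 2 ≤ k) (h2 : k + 2 ≤ r) : 2 * r ≤ r.choose k := by
  obtain ⟨m, rfl⟩ : ∃ m, r = m + 2 := ⟨r - 2, by omega⟩
  obtain ⟨j, rfl⟩ : ∃ j, k = j + 2 := ⟨k - 2, by omega⟩
  rw [Nat.choose_succ_succ' (m + 1), Nat.choose_succ_succ' m, Nat.choose_succ_succ' m]
  have a1 := le_choose m (j + 1) (by omega) (by omega)
  have a2 := Nat.choose_pos (n := m) (k := j) (by omega)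
  have a3 := Nat.choose_pos (n := m) (k := j + 1 + 1) (by omega)
  rcases Nat.eq_zero_or_pos j with rfl | hj
  · have := le_choose m (0 + 1 + 1) (by omega) (by omega)
    omega
  · have := le_choose m j hj (by omega)
    omega

lemma two_cases : ∀ x : ZMod 2, x = 0 ∨ x = 1 := by decide

variable {ι : Type} [Fintype ι] [DecidableEq ι] {ρ : Perm (ι × ZMod 2) →* (L ≃o L)}

lemma sp_le_one {ψ : ι → ZMod 2} (h : sp ψ ≤ 1) : ψ = 0 ∨ ∃ i, ψ = Pi.single i 1 := by
  by_cases h0 : ψ = 0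
  · exact Or.inl h0
  obtain ⟨i, hi⟩ := Function.ne_iff.1 h0
  refine Or.inr ⟨i, funext fun j => ?_⟩
  by_cases hj : j = i
  · rw [hj, Pi.single_eq_same]
    exact (two_cases _).resolve_left hi
  · rw [Pi.single_eq_of_ne hj]
    by_contra h5
    exact hj (card_le_one.1 h j (by simpa using h5) i (by simpa using hi))

omit [DecidableEq ι] in
lemma sp_add (ψ : ι → ZMod 2) : sp ψ + sp (1 + ψ) = Fintype.card ι := by
  rw [sp, sp, ← card_univ, ← card_filter_add_card_filter_not (s := univ) (fun i => ψ i ≠ 0)]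
  congr 2
  ext i
  have : ∀ x : ZMod 2, 1 + x ≠ 0 ↔ ¬ x ≠ 0 := by decide
  simp only [mem_filter, Pi.add_apply, Pi.one_apply, this]

lemma sp_single (i : ι) : sp (Pi.single i 1 : ι → ZMod 2) = 1 := by
  rw [sp, card_eq_one]
  refine ⟨i, ?_⟩
  ext j
  by_cases h : j = i <;> simp [h]

/-- the coordinates moved by `Q` -/
def mv (Q : (ι → ZMod 2) → Prop) : Finset ι := univ.filter fun i => ∃ a, Q a ∧ a i ≠ 0

lemma mem_mv {Q : (ι → ZMod 2) → Prop} {i : ι} : i ∈ mv Q ↔ ∃ a, Q a ∧ a i ≠ 0 := by simp [mv]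

lemma Act.cod0 (h : Act X ρ) (hr : 5 ≤ Fintype.card ι) (hd : dm X < 2 * Fintype.card ι) :
    ∃ ω, ∀ Q : (ι → ZMod 2) → Prop, (∀ a, Q a → ∑ i, a i = 0) →
      dm (Fq X (trr ρ) Q) + ω * #(mv Q) = dm X := by
  obtain ⟨i₀⟩ : Nonempty ι := Fintype.card_pos_iff.1 (by omega)
  refine ⟨W X ρ (Pi.single i₀ 1) + W X ρ (1 + Pi.single i₀ 1), fun Q hQ => ?_⟩
  have h1 := h.sub (fun _ => False) (univ.filter fun ψ => ψ ≠ 0) (by simp)
  have h2 := h.sub Q ((univ.filter fun ψ => ψ ≠ 0).filter fun ψ => ∀ a, Q a → ψ ⬝ᵥ a = 0)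
    (by simp)
  rw [Fq_false, ← sum_filter_add_sum_filter_not _ fun ψ => ∀ a, Q a → ψ ⬝ᵥ a = 0, h2] at h1
  have one : ∀ a, Q a → ∀ ψ : ι → ZMod 2, (1 + ψ) ⬝ᵥ a = ψ ⬝ᵥ a := by
    intro a ha ψ
    rw [add_dotProduct, one_dotProduct, hQ a ha, zero_add]
  have inj : Function.Injective fun i : ι => (Pi.single i 1 : ι → ZMod 2) := by
    intro i j hij
    by_contra hne
    simpa [hne] using congrFun hij i
  have h11 : ∀ ψ : ι → ZMod 2, 1 + (1 + ψ) = ψ := by
    intro ψ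
    ext i
    have : ∀ x : ZMod 2, 1 + (1 + x) = x := by decide
    exact this _
  rw [← sum_subset (s₁ := (mv Q).image (fun i => Pi.single i 1) ∪
      (mv Q).image fun i => 1 + Pi.single i 1), sum_union, sum_image inj.injOn,
    sum_image (fun i _ j _ e => inj (add_left_cancel e)), ← sum_add_distrib,
    sum_congr rfl (g := fun _ => W X ρ (Pi.single i₀ 1) + W X ρ (1 + Pi.single i₀ 1)),
    sum_const, smul_eq_mul, mul_comm (#(mv Q))] at h1
  · have m1 : dm (Fq X (trr ρ) fun _ => True) ≤ dm (Fq X (trr ρ) Q) :=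
      dm_mono fun y hy => ⟨hy.1, fun a _ => hy.2 a trivial⟩
    have m2 : dm (Fq X (trr ρ) Q) ≤ dm X := dm_mono fun y hy => hy.1
    omega
  · intro i _
    have a1 := sp_add (Pi.single i 1 : ι → ZMod 2)
    have a2 := sp_add (Pi.single i₀ 1 : ι → ZMod 2)
    rw [sp_single] at a1 a2
    rw [h.W_eq (ψ := Pi.single i 1) (ψ' := Pi.single i₀ 1) (by rw [sp_single, sp_single]),
      h.W_eq (ψ := 1 + Pi.single i 1) (ψ' := 1 + Pi.single i₀ 1) (by omega)]
  · rw [disjoint_left]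
    intro ψ a1 a2
    obtain ⟨i, -, rfl⟩ := mem_image.1 a1
    obtain ⟨j, -, e⟩ := mem_image.1 a2
    have := sp_add (Pi.single j 1 : ι → ZMod 2)
    rw [e, sp_single, sp_single] at this
    omega
  · intro ψ hψ
    have : ∃ a, Q a ∧ ψ ⬝ᵥ a ≠ 0 := by
      rcases mem_union.1 hψ with a1 | a1 <;> obtain ⟨i, hi, rfl⟩ := mem_image.1 a1 <;>
        obtain ⟨a, b1, b2⟩ := (mem_filter.1 hi).2
      · exact ⟨a, b1, by simpa using b2⟩
      · exact ⟨a, b1, by rw [one a b1]; simpa using b2⟩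
    obtain ⟨a, b1, b2⟩ := this
    refine mem_filter.2 ⟨mem_filter.2 ⟨mem_univ _, ?_⟩, fun h3 => b2 (h3 a b1)⟩
    rintro rfl
    simp at b2
  · intro ψ a1 a2
    obtain ⟨a1, a3⟩ := mem_filter.1 a1
    push Not at a3
    obtain ⟨a, b1, b2⟩ := a3
    rw [mem_union, not_or] at a2
    have c1 : ¬ sp ψ ≤ 1 := by
      intro hs
      rcases sp_le_one hs with rfl | ⟨i, rfl⟩
      · simp at b2
      · exact a2.1 (mem_image.2 ⟨i, mem_filter.2 ⟨mem_univ _, a, b1, by simpa using b2⟩, rfl⟩)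
    have c2 : ¬ sp (1 + ψ) ≤ 1 := by
      intro hs
      rw [← one a b1] at b2
      rcases sp_le_one hs with e | ⟨i, e⟩
      · simp [e] at b2
      · rw [e] at b2
        exact a2.2 (mem_image.2 ⟨i, mem_filter.2 ⟨mem_univ _, a, b1, by simpa using b2⟩,
          by rw [← e, h11]⟩)
    have c3 := sp_add ψ
    have c4 := choose_big hr (k := sp ψ) (by omega) (by omega)
    have c5 := h.W_bound (mem_filter.1 a1).2
    by_contra c6
    have := Nat.mul_le_mul c4 (Nat.one_le_iff_ne_zero.2 c6)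
    simp only [Nat.add_one_sub_one, one_pow, mul_one, one_mul] at c5
    omega

/-- the indicator vector -/
def ind (S : Finset ι) : ι → ZMod 2 := fun i => if i ∈ S then 1 else 0

lemma ind_even {S : Finset ι} (hS : Even #S) : ∑ i, ind S i = 0 := by
  simp only [ind, sum_boole, filter_mem_eq_inter, univ_inter]
  exact (ZMod.natCast_eq_zero_iff_even).2 hS

lemma mv_ind (S : Finset ι) : mv (fun a => a = ind S) = S := by
  ext i
  simp [mv, ind]

omit [Fintype L] [Fintype ι] [DecidableEq ι] in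
lemma Fq_eq (b : ι → ZMod 2) : Fq X (trr ρ) (fun a => a = b) = Fx X (ρ (tr0 2 b)) := by
  ext y
  simp [Fq, Fx, trr]

lemma exists_pair (hr : 5 ≤ Fintype.card ι) (i j k : ι) : ∃ l, l ≠ i ∧ l ≠ j ∧ l ≠ k := by
  by_contra h
  push Not at h
  have : (univ : Finset ι) ⊆ {i, j, k} := by
    intro l _
    have := h l
    simp only [mem_insert, mem_singleton]
    tauto
  have := (card_le_card this).trans card_le_three
  rw [card_univ] at this
  omega

lemma Act.cod (h : Act X ρ) (hr : 5 ≤ Fintype.card ι) (hd : dm X < 2 * Fintype.card ι)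
    (Q : (ι → ZMod 2) → Prop) (hQ : ∀ a, Q a → ∑ i, a i = 0) :
    dm (Fq X (trr ρ) Q) + #(mv Q) = dm X := by
  obtain ⟨ω, hω⟩ := h.cod0 hr hd
  have h1 := hω _ fun a ha => ha
  have h2 : mv (fun a : ι → ZMod 2 => ∑ i, a i = 0) = univ := by
    refine eq_univ_of_forall fun i => mem_mv.2 ?_
    obtain ⟨l, hl, -⟩ := exists_pair hr i i i
    exact ⟨ind {l, i}, ind_even (by rw [card_pair hl]; decide), by simp [ind]⟩
  rw [h2, card_univ] at h1
  obtain ⟨i⟩ : Nonempty ι := Fintype.card_pos_iff.1 (by omega)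
  obtain ⟨l, hl, -⟩ := exists_pair hr i i i
  have h3 := hω (fun a => a = ind {l, i})
    (by rintro _ rfl; exact ind_even (by rw [card_pair hl]; decide))
  have h4 := h.dm_lt (g := tr0 2 (ind {l, i})) fun e => by
    simpa [ind] using congrArg (fun g : Perm (ι × ZMod 2) => g (i, 0)) e
  rw [Fq_eq] at h3
  obtain rfl : ω = 1 := by
    rcases ω with _ | _ | ω
    · omega
    · rfl
    · nlinarith
  simpa using hω Q hQ

lemma Act.inv_cod (h : Act X ρ) (hr : 5 ≤ Fintype.card ι) (hd : dm X < 2 * Fintype.card ι)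
    {S : Finset ι} (hS : Even #S) {g : Perm (ι × ZMod 2)} (h1 : g ^ 2 = 1)
    (h2 : ∀ x, g x ≠ x ↔ x.1 ∈ S) {S' : Finset ι} (hS' : #S' = #S) :
    dm (Fx X (ρ g)) + #S' = dm X := by
  have h3 := h.cod hr hd (fun a => a = ind S) (by rintro _ rfl; exact ind_even hS)
  rw [mv_ind, Fq_eq] at h3
  rw [h.dm_eq 2 h1 (tr0_pow_p 2 (ind S)), hS', h3]
  congr 1
  ext ⟨i, t⟩
  simp [h2, ind]

/-- permute the blocks -/
def blk : Perm ι →* Perm (ι × ZMod 2) where
  toFun π := prodCongrLeft fun _ => π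
  map_one' := rfl
  map_mul' _ _ := rfl

omit [Fintype ι] [DecidableEq ι] in
@[simp] lemma blk_apply (π : Perm ι) (i : ι) (t : ZMod 2) : blk π (i, t) = (π i, t) := rfl

omit [Fintype ι] [DecidableEq ι] in
lemma tr0_blk (a : ι → ZMod 2) (π : Perm ι) : tr0 2 a * blk π = blk π * tr0 2 (a ∘ π) := by
  ext ⟨i, t⟩ <;> simp

omit [Fintype ι] [DecidableEq ι] in
lemma Act.fq_norm (h : Act X ρ) (Q : (ι → ZMod 2) → Prop) (c : Perm (ι × ZMod 2))
    (hc : ∀ a, Q a → ∃ a', Q a' ∧ tr0 2 a * c = c * tr0 2 a') (y : L) :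
    ρ c y ∈ Fq X (trr ρ) Q ↔ y ∈ Fq X (trr ρ) Q := by
  refine inv_iff (Z := Fq X (trr ρ) Q) (ρ c) (fun y hy => ⟨(h.inv _ _).2 hy.1, fun a ha => ?_⟩) y
  obtain ⟨a', b1, b2⟩ := hc a ha
  rw [trr, ← act_mul, b2, act_mul]
  exact congrArg _ (hy.2 a' b1)

omit [Fintype ι] [DecidableEq ι] in
lemma Act.gfq (h : Act X ρ) [Finite ι] (F : Type) [Field F] [CharP F 2]
    (Q : (ι → ZMod 2) → Prop) : Gor F (Fq X (trr ρ) Q) :=
  (h.gor F).fq 2 (fun a => by ext; exact CharTwo.two_nsmul _) isTr_trr (fun _ => h.inv _) Q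

omit [Fintype ι] in
lemma klein {i j : ι} (hij : i ≠ j) :
    swap (i, 1) (j, 0) * tr0 2 (ind {i, j}) * (swap (i, 1) (j, 0))⁻¹ = blk (swap i j) ∧
    swap (i, 1) (j, 1) * tr0 2 (ind {i, j}) * (swap (i, 1) (j, 1))⁻¹ =
      tr0 2 (ind {i, j}) * blk (swap i j) ∧ ind {i, j} ∘ swap i j = ind {i, j} := by
  have h11 : (1 + 1 : ZMod 2) = 0 := by decide
  have key : ∀ P : ι × ZMod 2 → Prop, P (i, 0) → P (i, 1) → P (j, 0) → P (j, 1) →
      (∀ k, k ≠ i → k ≠ j → ∀ s, P (k, s)) → ∀ x, P x := by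
    rintro P a1 a2 a3 a4 a5 ⟨k, s⟩
    by_cases k1 : k = i
    · rcases two_cases s with rfl | rfl <;> rwa [k1]
    by_cases k2 : k = j
    · rcases two_cases s with rfl | rfl <;> rwa [k2]
    exact a5 k k1 k2 s
  refine ⟨Equiv.ext (key _ ?_ ?_ ?_ ?_ fun k k1 k2 s => ?_),
    Equiv.ext (key _ ?_ ?_ ?_ ?_ fun k k1 k2 s => ?_), funext fun k => ?_⟩
  all_goals simp only [swap_apply_def, Perm.mul_apply, swap_inv, Function.comp_apply]
  all_goals try simp [ind, hij.symm, swap_apply_def, *]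
  split_ifs <;> simp_all

omit [Fintype ι] in
lemma dbl {i j k l : ι} (ij : i ≠ j) (ik : i ≠ k) (il : i ≠ l) (jk : j ≠ k) (jl : j ≠ l)
    (kl : k ≠ l) : (∀ x, (swap i j * swap k l) x ≠ x ↔ x ∈ ({i, j, k, l} : Finset ι)) ∧
      swap i j * swap k l * (swap i j * swap k l) = 1 := by
  refine ⟨fun x => ?_, Equiv.ext fun x => ?_⟩
  · simp only [Perm.mul_apply, swap_apply_def, mem_insert, mem_singleton]
    split_ifs <;> grind
  · simp only [Perm.mul_apply, swap_apply_def, Perm.one_apply]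
    split_ifs <;> grind

lemma Act.refl (h : Act X ρ) (hr : 5 ≤ Fintype.card ι) (hd : dm X < 2 * Fintype.card ι)
    {i j : ι} (hij : i ≠ j) :
    dm (Fx (Fq X (trr ρ) fun a => ∑ i, a i = 0) (ρ (blk (swap i j)))) + 1 =
      dm (Fq X (trr ρ) fun a => ∑ i, a i = 0) := by
  set Y := Fq X (trr ρ) fun a => ∑ i, a i = 0
  let K : (ι → ZMod 2) → Prop := fun a => ∑ i, a i = 0 ∧ a i = 0 ∧ a j = 0
  set Z := Fq X (trr ρ) K with hZ
  let u := ind {i, j}
  have hu : ∑ k, u k = 0 := ind_even (by rw [card_pair hij]; decide)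
  have hK : mv K = univ \ {i, j} := by
    ext k
    simp only [mem_mv, mem_univ, true_and, mem_sdiff, mem_insert, mem_singleton, not_or]
    constructor
    · rintro ⟨a, ha, hk⟩
      exact ⟨by rintro rfl; exact hk ha.2.1, by rintro rfl; exact hk ha.2.2⟩
    · rintro ⟨k1, k2⟩
      obtain ⟨l, l1, l2, l3⟩ := exists_pair hr i j k
      exact ⟨ind {l, k}, ⟨ind_even (by rw [card_pair l3]; decide), by simp [ind, l1.symm,
        Ne.symm k1], by simp [ind, l2.symm, Ne.symm k2]⟩, by simp [ind]⟩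
  have all : ∀ Q : (ι → ZMod 2) → Prop, (∀ a, K a → Q a) → Q u → mv Q = univ := by
    intro Q q1 q2
    refine eq_univ_of_forall fun k => mem_mv.2 ?_
    by_cases hk : k ∈ ({i, j} : Finset ι)
    · exact ⟨u, q2, by simp only [u, ind, if_pos hk]; decide⟩
    · obtain ⟨a, a1, a2⟩ := mem_mv.1 (hK ▸ mem_sdiff.2 ⟨mem_univ k, hk⟩ : k ∈ mv K)
      exact ⟨a, q1 a a1, a2⟩
  have d1 := h.cod hr hd K fun a ha => ha.1
  have d2 := h.cod hr hd (fun a => ∑ i, a i = 0) fun a ha => ha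
  have d3 := h.cod hr hd (fun a => K a ∨ a = u) (by
    rintro a (ha | rfl)
    exacts [ha.1, hu])
  rw [hK, card_sdiff_of_subset (subset_univ _), card_pair hij, card_univ] at d1
  rw [all _ (fun a ha => ha.1) hu, card_univ] at d2
  rw [all (fun a => K a ∨ a = u) (fun a ha => Or.inl ha) (Or.inr rfl), card_univ] at d3
  have e1 : Fx Z (ρ (tr0 2 u)) = Y := by
    refine Eq.trans ?_ ((h.gfq (ZMod 2) fun a => K a ∨ a = u).eq_of_dm (h.gfq _ _)
      (fun y hy => ⟨hy.1, ?_⟩) (by omega)).symm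
    · ext y
      simp only [Fx, hZ, Fq, Set.mem_ofPred_eq, or_imp, forall_and, forall_eq, and_assoc, trr]
    · rintro a (ha | rfl)
      exacts [hy.2 a ha.1, hy.2 _ hu]
  have cen : ∀ c : Perm (ι × ZMod 2), (∀ k s, k ≠ i → k ≠ j → c (k, s) = (k, s)) →
      ∀ y, ρ c y ∈ Z ↔ y ∈ Z := by
    intro c hc
    refine h.fq_norm K c fun a ha => ⟨a, ha, Perm.Disjoint.commute ?_⟩
    rintro ⟨k, s⟩
    by_cases k1 : k = i
    · left; simp [k1, ha.2.1]
    by_cases k2 : k = j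
    · left; simp [k2, ha.2.2]
    exact Or.inr (hc k s k1 k2)
  have e2 := dm_fx_conj ρ (swap (i, 1) (j, 0)) (tr0 2 u)
    (cen _ fun k s k1 k2 => swap_apply_of_ne_of_ne (by simp [k1]) (by simp [k2]))
  have e3 := dm_fx_conj ρ (swap (i, 1) (j, 1)) (tr0 2 u)
    (cen _ fun k s k1 k2 => swap_apply_of_ne_of_ne (by simp [k1]) (by simp [k2]))
  obtain ⟨c2, c3, c4⟩ := klein hij
  rw [c2] at e2
  rw [c3, map_mul] at e3
  have b := borel_two (h.gfq _ K) (u := ρ (tr0 2 u)) (v := ρ (blk (swap i j)))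
    (by rw [← map_mul, ← sq, tr0_pow_p, map_one])
    (by rw [← map_mul, ← map_mul, swap_mul_self, map_one, map_one])
    (Commute.map (by rw [Commute, SemiconjBy, tr0_blk, c4]) ρ)
    (cen _ fun k s k1 k2 => by simp [u, ind, k1, k2])
    (cen _ fun k s k1 k2 => by simp [swap_apply_of_ne_of_ne k1 k2])
  rw [← hZ, ← e2, ← e3, e1] at b
  change dm Z + _ = _ at d1
  change dm Y + _ = _ at d2
  omega

omit [DecidableEq ι] in
lemma blk_even (π : Perm ι) (a : ι → ZMod 2) (ha : ∑ i, a i = 0) :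
    ∃ a', ∑ i, a' i = 0 ∧ tr0 2 a * blk π = blk π * tr0 2 a' :=
  ⟨a ∘ π, (Equiv.sum_comp π a).trans ha, tr0_blk a π⟩

lemma Act.blk_faith (h : Act X ρ) (hr : 5 ≤ Fintype.card ι) (hd : dm X < 2 * Fintype.card ι)
    {π : Perm ι} (hπ : ∀ y ∈ Fq X (trr ρ) fun a => ∑ i, a i = 0, ρ (blk π) y = y) : π = 1 := by
  by_contra hne
  let N : Subgroup (Perm ι) :=
    { carrier := {π | ∀ y ∈ Fq X (trr ρ) fun a => ∑ i, a i = 0, ρ (blk π) y = y}
      mul_mem' := fun ha hb y hy => by rw [map_mul, act_mul, hb y hy, ha y hy]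
      one_mem' := fun y _ => by rw [map_one, map_one]; rfl
      inv_mem' := fun {a} ha y hy => by
        conv_lhs => rw [← ha y hy, ← act_mul, ← map_mul, inv_mul_cancel, map_one, map_one]
        rfl }
  have : N.Normal := ⟨fun a ha g y hy => by
    rw [map_mul blk, map_mul blk, act_mul, act_mul, ha _ ((h.fq_norm _ _ (blk_even g⁻¹) y).2 hy),
      ← act_mul, ← map_mul, mul_inv_cancel, map_one, map_one]
    rfl⟩
  have hN := Perm.alternatingGroup_le_of_normal (by simpa using hr) (N := N)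
    ⟨⟨π, hπ⟩, 1, fun e => hne (congrArg Subtype.val e)⟩
  obtain ⟨S, hS, hS2⟩ : ∃ S : Finset ι, Even #S ∧ Fintype.card ι ≤ #S + 1 := by
    rcases Nat.even_or_odd (Fintype.card ι) with h1 | h1
    · exact ⟨univ, h1, Nat.le_succ _⟩
    · obtain ⟨i⟩ : Nonempty ι := Fintype.card_pos_iff.1 (by omega)
      refine ⟨univ.erase i, ?_, by rw [card_erase_add_one (mem_univ i), card_univ]⟩
      rw [card_erase_of_mem (mem_univ i), card_univ]
      exact Nat.Odd.sub_odd h1 odd_one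
  obtain ⟨T, hT, hT2⟩ := exists_subset_card_eq (s := S) (n := 4) (by omega)
  obtain ⟨i, T', hi, rfl, hT3⟩ := card_eq_succ.1 hT2
  obtain ⟨j, k, l, jk, jl, kl, rfl⟩ := card_eq_three.1 hT3
  simp only [mem_insert, mem_singleton, not_or] at hi
  obtain ⟨ij, ik, il⟩ := hi
  let v := swap i j * swap k l
  have hv : v ∈ N := hN (by simp [v, ij, kl])
  obtain ⟨v1, v2⟩ : (∀ x, v x ≠ x ↔ x ∈ _) ∧ v * v = 1 := dbl ij ik il jk jl kl
  clear_value v
  have v3 : ind S ∘ v = ind S := by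
    ext x
    by_cases hx : v x = x
    · simp [hx]
    · have a1 := hT ((v1 x).1 hx)
      have a2 := hT ((v1 (v x)).1 fun e => hx (v.injective e))
      simp [ind, a1, a2]
  have hc : Commute (tr0 2 (ind S)) (blk v) := by rw [Commute, SemiconjBy, tr0_blk, v3]
  have b := borel_two (h.gor _) (u := ρ (tr0 2 (ind S))) (v := ρ (blk v))
    (by rw [← map_mul, ← sq, tr0_pow_p, map_one])
    (by rw [← map_mul, ← map_mul, v2, map_one, map_one]) (hc.map ρ) (h.inv _) (h.inv _)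
  have d1 := h.inv_cod hr hd hS (tr0_pow_p 2 (ind S)) (by rintro ⟨x, s⟩; simp [ind]) rfl
  have d2 := h.inv_cod hr hd (S := {i, j, k, l}) (g := blk v) (by rw [hT2]; decide)
    (by rw [sq, ← map_mul, v2, map_one]) (by rintro ⟨x, s⟩; simpa using v1 x) rfl
  have d3 := h.inv_cod hr hd hS (g := tr0 2 (ind S) * blk v)
    (by rw [hc.mul_pow, tr0_pow_p, sq, ← map_mul, v2, map_one, mul_one]) (by
      rintro ⟨x, s⟩
      by_cases hx : v x = x
      · simp [hx, ind]
      · simp [hx, hT ((v1 x).1 hx)]) rfl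
  have d4 := h.cod hr hd (fun a => ∑ i, a i = 0) fun a ha => ha
  have d5 : #(mv fun a : ι → ZMod 2 => ∑ i, a i = 0) ≤ Fintype.card ι := card_le_univ _
  have d6 : dm (Fq X (trr ρ) fun a => ∑ i, a i = 0) ≤
      dm (Fx (Fx X (ρ (tr0 2 (ind S)))) (ρ (blk v))) :=
    dm_mono fun y hy => ⟨⟨hy.1, hy.2 _ (ind_even hS)⟩, hv y hy⟩
  rw [map_mul] at d3
  omega

lemma sign_tr0 (a : ι → ZMod 2) (ha : ∑ i, a i = 0) : Perm.sign (tr0 2 a) = 1 := by
  let f : ZMod 2 → ℤˣ := fun t => Perm.sign (Equiv.addRight t)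
  have h1 : ∀ s : Finset ι, ∏ i ∈ s, f (a i) = f (∑ i ∈ s, a i) := by
    intro s
    induction s using Finset.induction_on with
    | empty => simp [f]
    | insert i s hi ih =>
      rw [prod_insert hi, sum_insert hi, ih]
      simp only [f, ← map_mul]
      congr 1
      ext x
      simp [add_comm, add_left_comm]
  rw [tr0, Perm.sign_prodCongrRight, h1, ha]
  simp [f]

theorem Act.even (h : Act X ρ) (hr : 5 ≤ Fintype.card ι) :
    2 * Fintype.card ι ≤ dm X + 1 ∧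
      ∀ x ∈ X, (∀ g, Perm.sign g = 1 → ρ g x = x) → 2 * Fintype.card ι ≤ dm X := by
  by_cases hd : dm X < 2 * Fintype.card ι
  swap
  · exact ⟨by omega, fun _ _ _ => by omega⟩
  have R : RA (Fq X (trr ρ) fun a => ∑ i, a i = 0) (ρ.comp blk) :=
    ⟨h.gfq _ _, fun g => h.fq_norm _ _ (blk_even g), fun i j hij => h.refl hr hd hij,
      fun i j k l _ _ h3 => by
        rw [← swap_inv k l]
        exact eq_inv_of_mul_eq_one_left (h.blk_faith hr hd h3)⟩
  have d1 := h.cod hr hd (fun a => ∑ i, a i = 0) fun a ha => ha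
  have d2 : mv (fun a : ι → ZMod 2 => ∑ i, a i = 0) = univ := by
    refine eq_univ_of_forall fun i => mem_mv.2 ?_
    obtain ⟨l, hl, -⟩ := exists_pair hr i i i
    exact ⟨ind {l, i}, ind_even (by rw [card_pair hl]; decide), by simp [ind]⟩
  rw [d2, card_univ] at d1
  have d3 := R.bound
  refine ⟨by omega, fun x hx hf => ?_⟩
  have := R.bound' (x := x) ⟨hx, fun a ha => hf _ (sign_tr0 a ha)⟩ fun g => hf _ (by
    show Perm.sign (prodCongrLeft fun _ : ZMod 2 => g) = 1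
    rw [Perm.sign_prodCongrLeft]
    simp [sq])
  omega

end

end Pool.Agent.MP_23c9d7_co
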