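import Pool.Agent.MP_23c9d7_co.Mg.Faces

/-! Posets all of whose iterated links are homology spheres. -/

namespace Pool.Agent.MP_23c9d7_co

open Classical Finset

noncomputable section

variable {L : Type*} [Fintype L] [PartialOrder L]

/-- the largest size of a chain inside `Y` -/
def dm (Y : Set L) : ℕ :=
  (univ.filter fun σ : Finset L => IsCh σ ∧ (σ : Set L) ⊆ Y).sup card

lemma le_dm {Y : Set L} {σ : Finset L} (h1 : IsCh σ) (h2 : (σ : Set L) ⊆ Y) : σ.card ≤ dm Y :=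
  le_sup (f := card) (mem_filter.2 ⟨mem_univ _, h1, h2⟩)

omit [Fintype L] in
lemma isCh_empty : IsCh (∅ : Finset L) := by intro a ha; simp at ha

omit [Fintype L] in
lemma isCh_singleton (x : L) : IsCh ({x} : Finset L) := by
  intro a ha b hb
  rw [mem_singleton.1 ha, mem_singleton.1 hb]; exact Or.inl le_rfl

lemma exists_dm (Y : Set L) : ∃ σ : Finset L, IsCh σ ∧ (σ : Set L) ⊆ Y ∧ σ.card = dm Y := by
  obtain ⟨σ, hσ, h⟩ := exists_mem_eq_sup
    (univ.filter fun σ : Finset L => IsCh σ ∧ (σ : Set L) ⊆ Y)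
    ⟨∅, mem_filter.2 ⟨mem_univ _, isCh_empty, by simp⟩⟩ card
  exact ⟨σ, (mem_filter.1 hσ).2.1, (mem_filter.1 hσ).2.2, h.symm⟩

lemma dm_mono {Y Y' : Set L} (h : Y ⊆ Y') : dm Y ≤ dm Y' := by
  obtain ⟨σ, h1, h2, h3⟩ := exists_dm Y
  rw [← h3]
  exact le_dm h1 (h2.trans h)

lemma dm_pos {Y : Set L} {x : L} (hx : x ∈ Y) : 0 < dm Y := by
  have := le_dm (Y := Y) (isCh_singleton x) (by simpa using hx)
  rwa [card_singleton] at this

lemma nonempty_of_dm_pos {Y : Set L} (h : 0 < dm Y) : Y.Nonempty := by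
  obtain ⟨σ, _, h2, h3⟩ := exists_dm Y
  obtain ⟨x, hx⟩ := card_pos.1 (h3 ▸ h)
  exact ⟨x, h2 hx⟩

lemma dm_le_of_iso (e : L ≃o L) {Y Y' : Set L} (h : ∀ y ∈ Y, e y ∈ Y') : dm Y ≤ dm Y' := by
  obtain ⟨σ, h1, h2, h3⟩ := exists_dm Y
  rw [← h3, ← card_image_iso e]
  refine le_dm ((isCh_image e σ).2 h1) ?_
  intro y hy
  obtain ⟨a, ha, rfl⟩ := mem_image.1 (mem_coe.1 hy)
  exact h a (h2 ha)

lemma dm_eq_of_iso (e : L ≃o L) {Y Y' : Set L} (h : ∀ y, e y ∈ Y' ↔ y ∈ Y) : dm Y = dm Y' :=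
  le_antisymm (dm_le_of_iso e fun y hy => (h y).2 hy)
    (dm_le_of_iso e.symm fun y hy => (h _).1 (by simpa using hy))

omit [Fintype L] in
lemma insert_lk {Y : Set L} {x : L} (hx : x ∈ Y) {τ : Finset L} (h1 : IsCh τ)
    (h2 : (τ : Set L) ⊆ Lk Y x) :
    x ∉ τ ∧ IsCh (insert x τ) ∧ ((insert x τ : Finset L) : Set L) ⊆ Y := by
  refine ⟨fun h => (h2 h).2.1 rfl, ?_, ?_⟩
  · intro a ha b hb
    rcases mem_insert.1 ha with rfl | ha'
    · rcases mem_insert.1 hb with rfl | hb'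
      · exact Or.inl le_rfl
      · exact (h2 hb').2.2.symm
    · rcases mem_insert.1 hb with rfl | hb'
      · exact (h2 ha').2.2
      · exact h1 a ha' b hb'
  · rw [coe_insert]
    exact Set.insert_subset hx fun y hy => (h2 hy).1

omit [Fintype L] in
lemma erase_lk {Y : Set L} {x : L} {σ : Finset L} (hx : x ∈ σ) (h1 : IsCh σ)
    (h2 : (σ : Set L) ⊆ Y) : IsCh (σ.erase x) ∧ ((σ.erase x : Finset L) : Set L) ⊆ Lk Y x := by
  refine ⟨h1.mono (erase_subset _ _), fun y hy => ?_⟩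
  have hy' := mem_erase.1 (mem_coe.1 hy)
  exact ⟨h2 hy'.2, hy'.1, h1 y hy'.2 x hx⟩

lemma dm_lk_lt {Y : Set L} {x : L} (hx : x ∈ Y) : dm (Lk Y x) + 1 ≤ dm Y := by
  obtain ⟨σ, h1, h2, h3⟩ := exists_dm (Lk Y x)
  obtain ⟨k1, k2, k3⟩ := insert_lk hx h1 h2
  rw [← h3, ← card_insert_of_notMem k1]
  exact le_dm k2 k3

lemma card_le_dm_lk {Y : Set L} {x : L} {σ : Finset L} (hx : x ∈ σ) (h1 : IsCh σ)
    (h2 : (σ : Set L) ⊆ Y) : σ.card ≤ dm (Lk Y x) + 1 := by
  obtain ⟨c1, c2⟩ := erase_lk hx h1 h2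
  have h4 := le_dm c1 c2
  have h5 := card_erase_add_one hx
  omega

variable {F : Type*} [Field F]

lemma Sph.exists_ne {Y : Set L} {n : ℕ} {z : Finset L → F} (hz : Sph F Y n z) :
    ∃ σ, z σ ≠ 0 ∧ IsCh σ ∧ (σ : Set L) ⊆ Y ∧ σ.card = n := by
  obtain ⟨σ, hσ⟩ := Function.ne_iff.1 hz.ne
  have h1 : IsCh σ ∧ (σ : Set L) ⊆ Y := by
    by_contra h; exact hσ (hz.mem σ h)
  exact ⟨σ, hσ, h1.1, h1.2, by by_contra h; exact hσ (hz.deg σ h)⟩

lemma Sph.dm_eq {Y : Set L} {n : ℕ} {z : Finset L → F} (hz : Sph F Y n z) : dm Y = n := by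
  obtain ⟨σ, -, h1, h2, h3⟩ := hz.exists_ne
  obtain ⟨τ, k1, k2, k3⟩ := exists_dm Y
  exact le_antisymm (k3 ▸ hz.top τ k1 k2) (h3 ▸ le_dm h1 h2)

lemma Sph.smul {Y : Set L} {n : ℕ} {z : Finset L → F} (hz : Sph F Y n z) {c : F} (hc : c ≠ 0) :
    Sph F Y n (c • z) := by
  refine ⟨Submodule.smul_mem _ _ hz.mem, by rw [map_smul, hz.cyc, smul_zero],
    smul_ne_zero hc hz.ne, Submodule.smul_mem _ _ hz.deg, hz.top, fun f hf hb => ?_⟩
  obtain ⟨a, u, hu, h⟩ := hz.span f hf hb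
  exact ⟨a * c⁻¹, u, hu, by rw [smul_smul, inv_mul_cancel_right₀ hc]; exact h⟩

lemma Sph.of_cycle {Y : Set L} {n : ℕ} {z : Finset L → F} (hz : Sph F Y n z)
    {f : Finset L → F} (hf : f ∈ C F Y) (hb : bd F f = 0)
    (hd : f ∈ sup F (fun σ : Finset L => σ.card = n)) (h0 : f ≠ 0) : Sph F Y n f := by
  obtain ⟨c, rfl⟩ := hz.top_cycle hf hb hd
  exact hz.smul (by rintro rfl; simp at h0)

omit [Fintype L] in
lemma su_ne (x : L) (τ : Finset L) : su F x τ ≠ 0 := by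
  intro h0
  have := su_mul_self F x τ
  rw [h0] at this
  simp at this

omit [Fintype L] in
lemma Rm_ne_iff {x : L} {z : Finset L → F} : Rm F x z ≠ 0 ↔ ∃ σ, x ∈ σ ∧ z σ ≠ 0 := by
  constructor
  · intro h
    obtain ⟨τ, hτ⟩ := Function.ne_iff.1 h
    rw [Rm_apply] at hτ
    split_ifs at hτ with h1
    · simp at hτ
    · exact ⟨insert x τ, mem_insert_self _ _, fun h2 => hτ (by simp [h2])⟩
  · rintro ⟨σ, h1, h2⟩ h
    have := congrFun h (σ.erase x)
    rw [Rm_apply, if_pos (notMem_erase _ _), insert_erase h1] at this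
    exact mul_ne_zero (su_ne _ _) h2 this

omit [Fintype L] in
lemma Rm_deg (x : L) {n : ℕ} {z : Finset L → F}
    (hz : z ∈ sup F (fun σ : Finset L => σ.card = n + 1)) :
    Rm F x z ∈ sup F (fun σ : Finset L => σ.card = n) := by
  intro τ hτ
  rw [Rm_apply]
  split_ifs with h
  · rfl
  · rw [hz, mul_zero]
    show ¬ (insert x τ).card = n + 1
    rw [card_insert_of_notMem h]
    exact fun h2 => hτ (Nat.succ_injective h2)

lemma Sph.link {Y : Set L} {n k : ℕ} {z w : Finset L → F} (hz : Sph F Y n z) {x : L}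
    (hx : x ∈ Y) (h0 : Rm F x z ≠ 0) (hw : Sph F (Lk Y x) k w) :
    n = k + 1 ∧ Sph F (Lk Y x) k (Rm F x z) := by
  have h1 : n = k + 1 := by
    have a1 := dm_lk_lt hx
    obtain ⟨σ, b1, b2⟩ := Rm_ne_iff.1 h0
    have b3 : IsCh σ ∧ (σ : Set L) ⊆ Y := by
      by_contra h; exact b2 (hz.mem σ h)
    have b4 : σ.card = n := by by_contra h; exact b2 (hz.deg σ h)
    obtain ⟨c1, c2⟩ := erase_lk b1 b3.1 b3.2
    have a2 := hw.top _ c1 c2
    have a3 := card_erase_add_one b1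
    rw [hz.dm_eq, hw.dm_eq] at a1
    omega
  subst h1
  exact ⟨rfl, hw.of_cycle (Rm_mem F x hz.mem) (by rw [bd_Rm F x hz.mem, hz.cyc, map_zero])
    (Rm_deg x hz.deg) h0⟩

lemma bd_empty (f : Finset L → F) : bd F f ∅ = ∑ y, f {y} := by
  rw [bd_apply]
  refine sum_congr rfl fun y _ => ?_
  rw [if_pos ⟨notMem_empty _, by simpa using isCh_singleton y⟩]
  simp [sg]

lemma pt_cycle {Y : Set L} {x y : L} (hx : x ∈ Y) (hy : y ∈ Y) :
    (Pi.single {x} 1 - Pi.single {y} 1 : Finset L → F) ∈ C F Y ∧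
    (Pi.single {x} 1 - Pi.single {y} 1 : Finset L → F) ∈
      sup F (fun σ : Finset L => σ.card = 1) ∧
    bd F (Pi.single {x} 1 - Pi.single {y} 1 : Finset L → F) = 0 := by
  have h1 : ∀ x ∈ Y, (Pi.single {x} 1 : Finset L → F) ∈ C F Y := by
    intro x hx σ hσ
    rw [Pi.single_apply, if_neg]
    rintro rfl
    exact hσ ⟨isCh_singleton x, by simpa using hx⟩
  have h2 : ∀ x : L, (Pi.single {x} 1 : Finset L → F) ∈
      sup F (fun σ : Finset L => σ.card = 1) := by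
    intro x σ hσ
    rw [Pi.single_apply, if_neg]
    rintro rfl
    exact hσ (card_singleton x)
  have h3 := sub_mem (h2 x) (h2 y)
  refine ⟨sub_mem (h1 x hx) (h1 y hy), h3, ?_⟩
  rw [← pr_eq_self F h3, bd_pr_succ]
  funext σ
  rw [pr_apply]
  split_ifs with h
  · rw [card_eq_zero.1 h, bd_empty]
    simp [Pi.single_apply, sum_sub_distrib]
  · rfl

variable (F) in
/-- all iterated links are homology spheres -/
inductive Gor : Set L → Prop
  | mk {Y : Set L} {n : ℕ} {z : Finset L → F} (h : Sph F Y n z)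
      (hl : ∀ x ∈ Y, Gor (Lk Y x)) : Gor Y

lemma Gor.sph {Y : Set L} (h : Gor F Y) : ∃ z, Sph F Y (dm Y) z := by
  obtain ⟨hz, -⟩ := h
  exact ⟨_, hz.dm_eq ▸ hz⟩

lemma Gor.lk {Y : Set L} (h : Gor F Y) {x : L} (hx : x ∈ Y) : Gor F (Lk Y x) := by
  obtain ⟨-, hl⟩ := h
  exact hl x hx

lemma Gor.rm_ne {Y : Set L} (h : Gor F Y) :
    ∀ {n : ℕ} {z : Finset L → F}, Sph F Y n z → ∀ x ∈ Y, Rm F x z ≠ 0 := by
  induction h with
  | @mk Y _ _ _ hl ih =>
  intro n z hz x hx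
  by_contra hx0
  have hclo : ∀ a, Rm F a z ≠ 0 → ∀ b ∈ Y, (b ≤ a ∨ a ≤ b) → Rm F b z ≠ 0 := by
    intro a ha b hb hab
    by_cases hba : b = a
    · rwa [hba]
    have haY : a ∈ Y := by
      obtain ⟨σ, k1, k2⟩ := Rm_ne_iff.1 ha
      by_contra h
      exact k2 (hz.mem σ fun h2 => h (h2.2 k1))
    obtain ⟨w, hw⟩ := (hl a haY).sph
    obtain ⟨τ, k1, k2⟩ := Rm_ne_iff.1 (ih a haY (hz.link haY ha hw).2 b ⟨hb, hba, hab⟩)
    rw [Rm_apply] at k2
    split_ifs at k2 with h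
    · simp at k2
    · exact Rm_ne_iff.2 ⟨insert a τ, mem_insert_of_mem k1, right_ne_zero_of_mul k2⟩
  obtain ⟨σ₀, s1, s2, s3, s4⟩ := hz.exists_ne
  have hn : 0 < n := hz.dm_eq ▸ dm_pos hx
  obtain ⟨x₀, hx₀⟩ := card_pos.1 (s4 ▸ hn)
  have hx₀G : Rm F x₀ z ≠ 0 := Rm_ne_iff.2 ⟨σ₀, hx₀, s1⟩
  obtain ⟨p1, -, p3⟩ := pt_cycle (F := F) hx (s3 hx₀)
  obtain ⟨c, u, hu, hu2⟩ := hz.span _ p1 p3
  let u₁ := mulf F (fun σ : Finset L => if ∀ a ∈ σ, Rm F a z = 0 then 1 else 0) u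
  have h1 : ∀ y, bd F u₁ {y} = if Rm F y z = 0 then bd F u {y} else 0 := by
    intro y
    split_ifs with hy
    · rw [bd_apply, bd_apply]
      refine sum_congr rfl fun a _ => ?_
      split_ifs with ha
      · simp only [u₁, mulf_apply]
        split_ifs with h2
        · simp
        · have : u (insert a {y}) = 0 := by
            apply hu
            intro h3
            apply h2
            intro b hb
            by_contra h4
            exact hclo b h4 y (h3.2 (by simp)) (h3.1 y (by simp) b hb) hy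
          rw [this]; simp
      · rfl
    · rw [bd_apply]
      refine sum_eq_zero fun a _ => ?_
      split_ifs with ha
      · simp only [u₁, mulf_apply]
        rw [if_neg (fun h => hy (h y (by simp)))]
        simp
      · rfl
  have h2 := congrFun (bd_bd F u₁) ∅
  rw [bd_empty] at h2
  have h3 : ∀ y, bd F u₁ {y} = if y = x then 1 else 0 := by
    intro y
    rw [h1]
    by_cases hy : Rm F y z = 0
    · rw [if_pos hy]
      have a1 := congrFun hu2 {y}
      have a2 : z {y} = 0 := by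
        by_contra h
        exact Rm_ne_iff.2 ⟨_, mem_singleton_self y, h⟩ hy
      have a3 : y ≠ x₀ := by rintro rfl; exact hx₀G hy
      simp only [Pi.sub_apply, Pi.add_apply, Pi.smul_apply, a2, smul_zero, zero_add,
        Pi.single_apply, singleton_inj, if_neg a3, sub_zero] at a1
      exact a1.symm
    · rw [if_neg hy, if_neg]
      rintro rfl
      exact hy hx0
  simp [h3] at h2

lemma Gor.link {Y : Set L} (h : Gor F Y) {n : ℕ} {z : Finset L → F} (hz : Sph F Y n z) {x : L}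
    (hx : x ∈ Y) : n = dm (Lk Y x) + 1 ∧ Sph F (Lk Y x) (dm (Lk Y x)) (Rm F x z) := by
  obtain ⟨w, hw⟩ := (h.lk hx).sph
  exact hz.link hx (h.rm_ne hz x hx) hw

lemma Gor.dm_lk {Y : Set L} (h : Gor F Y) {x : L} (hx : x ∈ Y) : dm (Lk Y x) + 1 = dm Y := by
  obtain ⟨z, hz⟩ := h.sph
  exact (h.link hz hx).1.symm

lemma Gor.top_ne {Y : Set L} (h : Gor F Y) : ∀ {n : ℕ} {z : Finset L → F}, Sph F Y n z →
    ∀ σ : Finset L, IsCh σ → (σ : Set L) ⊆ Y → σ.card = n → z σ ≠ 0 := by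
  induction h with
  | @mk Y _ _ h0 hl ih =>
  intro n z hz σ h1 h2 h3
  rcases σ.eq_empty_or_nonempty with rfl | ⟨x, hx⟩
  · obtain ⟨τ, k1, -, -, k4⟩ := hz.exists_ne
    rw [← h3, card_empty, card_eq_zero] at k4
    rwa [k4] at k1
  · obtain ⟨k1, k2⟩ := (Gor.mk h0 hl).link hz (h2 hx)
    obtain ⟨c1, c2⟩ := erase_lk hx h1 h2
    have := ih x (h2 hx) k2 _ c1 c2 (by have := card_erase_add_one hx; omega)
    rw [Rm_apply, if_pos (notMem_erase _ _), insert_erase hx] at this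
    exact right_ne_zero_of_mul this

/-- every vertex lies in a flag -/
lemma Gor.exists_flag {Y : Set L} (h : Gor F Y) {x : L} (hx : x ∈ Y) :
    ∃ σ : Finset L, IsCh σ ∧ (σ : Set L) ⊆ Y ∧ σ.card = dm Y ∧ x ∈ σ := by
  obtain ⟨τ, h1, h2, h3⟩ := exists_dm (Lk Y x)
  obtain ⟨k1, k2, k3⟩ := insert_lk hx h1 h2
  exact ⟨_, k2, k3, by rw [card_insert_of_notMem k1, h3, h.dm_lk hx], mem_insert_self _ _⟩

lemma Gor.subset_of_cycle {Y Y' : Set L} (h : Gor F Y) {w : Finset L → F} (hw : w ∈ C F Y')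
    (hs : Y' ⊆ Y) (hb : bd F w = 0) (hd : w ∈ sup F (fun σ : Finset L => σ.card = dm Y))
    (h0 : w ≠ 0) : Y ⊆ Y' := by
  obtain ⟨z, hz⟩ := h.sph
  intro x hx
  obtain ⟨σ, k1, k2⟩ := Rm_ne_iff.1 (h.rm_ne (hz.of_cycle (C_mono F hs hw) hb hd h0) x hx)
  by_contra h2
  exact k2 (hw σ fun h3 => h2 (h3.2 k1))

lemma Gor.eq_of_dm {Y Y' : Set L} (h : Gor F Y) (h' : Gor F Y') (hs : Y' ⊆ Y)
    (hd : dm Y ≤ dm Y') : Y' = Y := by
  obtain ⟨w, hw⟩ := h'.sph
  have : dm Y' = dm Y := le_antisymm (dm_mono hs) hd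
  exact Set.Subset.antisymm hs (h.subset_of_cycle hw.mem hs hw.cyc (this ▸ hw.deg) hw.ne)

/-- `x` extends the chain `τ` inside `Y` -/
def Ext (Y : Set L) (τ : Finset L) (x : L) : Prop := x ∈ Y ∧ x ∉ τ ∧ IsCh (insert x τ)

/-- a ridge lies in at most two flags -/
lemma Gor.two {Y : Set L} (h : Gor F Y) : ∀ τ : Finset L, (τ : Set L) ⊆ Y →
    τ.card + 1 = dm Y → ∀ a b c, Ext Y τ a → Ext Y τ b → Ext Y τ c → a ≠ b → c = a ∨ c = b := by
  induction h with
  | @mk Y n z h0 hl ih =>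
  intro τ h2 h3 a b c ha hb hc hab
  rcases τ.eq_empty_or_nonempty with rfl | ⟨x, hx⟩
  · by_contra hcon
    push Not at hcon
    obtain ⟨p1, p2, p3⟩ := pt_cycle (F := F) ha.1 hb.1
    have hn : n = 1 := by rw [← h0.dm_eq, ← h3]; rfl
    subst hn
    have hne : (Pi.single {a} 1 - Pi.single {b} 1 : Finset L → F) ≠ 0 := by
      intro h
      have := congrFun h {a}
      simp [hab] at this
    apply (Gor.mk h0 hl).top_ne (h0.of_cycle p1 p3 p2 hne) {c} (isCh_singleton c)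
      (by simpa using hc.1) (card_singleton c)
    simp [hcon.1, hcon.2]
  · have hch : IsCh τ := ha.2.2.mono (subset_insert _ _)
    have key : ∀ a, Ext Y τ a → Ext (Lk Y x) (τ.erase x) a := by
      intro a ha
      refine ⟨⟨ha.1, by rintro rfl; exact ha.2.1 hx,
        ha.2.2 a (mem_insert_self _ _) x (mem_insert_of_mem hx)⟩,
        fun h => ha.2.1 (mem_of_mem_erase h),
        ha.2.2.mono (insert_subset_insert _ (erase_subset _ _))⟩
    refine ih x (h2 hx) (τ.erase x) (erase_lk hx hch h2).2 ?_ a b c (key a ha) (key b hb)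
      (key c hc) hab
    have := (Gor.mk h0 hl).dm_lk (h2 hx)
    have := card_erase_add_one hx
    omega

/-- a property of flags that passes through ridges holds for all flags -/
lemma Gor.const {Y : Set L} (h : Gor F Y) (P : Finset L → Prop)
    (hP : ∀ τ : Finset L, (τ : Set L) ⊆ Y → τ.card + 1 = dm Y → ∀ a b, Ext Y τ a → Ext Y τ b →
      P (insert a τ) → P (insert b τ))
    {σ σ' : Finset L} (h1 : IsCh σ) (h2 : (σ : Set L) ⊆ Y) (h3 : σ.card = dm Y)
    (k1 : IsCh σ') (k2 : (σ' : Set L) ⊆ Y) (k3 : σ'.card = dm Y) (hσ : P σ) : P σ' := by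
  obtain ⟨z, hz⟩ := h.sph
  let f := mulf F (fun σ : Finset L => if P σ then 1 else 0) z
  have hb : bd F f = 0 := by
    funext τ
    by_cases hex : ∃ a, Ext Y τ a ∧ P (insert a τ) ∧ z (insert a τ) ≠ 0
    · obtain ⟨a, a1, a2, a3⟩ := hex
      rw [← congrFun hz.cyc τ, bd_apply, bd_apply]
      refine sum_congr rfl fun b _ => ?_
      split_ifs with hb
      · by_cases hzb : z (insert b τ) = 0
        · simp [f, hzb]
        · have b1 : ((insert b τ : Finset L) : Set L) ⊆ Y := by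
            by_contra h; exact hzb (hz.mem _ fun h' => h h'.2)
          have b2 : (insert b τ).card = dm Y := by by_contra h; exact hzb (hz.deg _ h)
          rw [card_insert_of_notMem hb.1] at b2
          have := hP τ (fun y hy => b1 (by simp [mem_coe.1 hy])) b2 a b a1
            ⟨b1 (by simp), hb.1, hb.2⟩ a2
          simp [f, this]
      · rfl
    · rw [bd_apply]
      refine sum_eq_zero fun b _ => ?_
      split_ifs with hb
      · by_cases hzb : z (insert b τ) = 0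
        · simp [f, hzb]
        · have b1 : ((insert b τ : Finset L) : Set L) ⊆ Y := by
            by_contra h; exact hzb (hz.mem _ fun h' => h h'.2)
          have : ¬ P (insert b τ) := fun h => hex ⟨b, ⟨b1 (by simp), hb.1, hb.2⟩, h, hzb⟩
          simp [f, this]
      · rfl
  have hne : f ≠ 0 := by
    intro h0
    have := congrFun h0 σ
    simp only [f, mulf_apply, if_pos hσ, one_mul] at this
    exact h.top_ne hz σ h1 h2 h3 this
  have := h.top_ne (hz.of_cycle (mulf_mem F _ hz.mem) hb (mulf_mem F _ hz.deg) hne) σ' k1 k2 k3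
  by_contra hcon
  apply this
  simp [hcon]

omit [Fintype L] in
lemma Ext.map {Y : Set L} (e : L ≃o L) (hY : ∀ y ∈ Y, e y ∈ Y) {τ : Finset L}
    (hτ : ∀ y ∈ τ, e y = y) {a : L} (ha : Ext Y τ a) : Ext Y τ (e a) := by
  have h1 : (insert a τ).image e = insert (e a) τ := by
    rw [image_insert, image_congr (g := id) (fun y hy => hτ y hy), image_id]
  refine ⟨hY a ha.1, fun h => ha.2.1 ?_, h1 ▸ (isCh_image e _).2 ha.2.2⟩
  rwa [e.injective (hτ _ h)] at h

/-- an automorphism fixing a flag is trivial -/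
lemma Gor.fix {Y : Set L} (h : Gor F Y) (e : L ≃o L) (hY : ∀ y ∈ Y, e y ∈ Y)
    {σ : Finset L} (h1 : IsCh σ) (h2 : (σ : Set L) ⊆ Y) (h3 : σ.card = dm Y)
    (h4 : ∀ y ∈ σ, e y = y) : ∀ y ∈ Y, e y = y := by
  intro x hx
  obtain ⟨σ', k1, k2, k3, k4⟩ := h.exists_flag hx
  refine h.const (fun σ => ∀ y ∈ σ, e y = y) ?_ h1 h2 h3 k1 k2 k3 h4 x k4
  intro τ t1 t2 a b ha hb hP y hy
  have hτ : ∀ y ∈ τ, e y = y := fun y hy => hP y (mem_insert_of_mem hy)
  have hea : e a = a := hP a (mem_insert_self _ _)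
  rcases mem_insert.1 hy with rfl | hy'
  · by_cases hab : a = y
    · rwa [← hab]
    · rcases h.two τ t1 t2 a y (e y) ha hb (hb.map e hY hτ) hab with h5 | h5
      · exact absurd (e.injective (hea.trans h5.symm)) hab
      · exact h5
  · exact hτ y hy'

/-- fixed points inside `Y` -/
def Fx (Y : Set L) (e : L ≃o L) : Set L := {y | y ∈ Y ∧ e y = y}

lemma Gor.fix_of_dm {Y : Set L} (h : Gor F Y) (e : L ≃o L) (hY : ∀ y ∈ Y, e y ∈ Y)
    (hd : dm Y ≤ dm (Fx Y e)) : ∀ y ∈ Y, e y = y := by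
  obtain ⟨σ, h1, h2, h3⟩ := exists_dm (Fx Y e)
  exact h.fix e hY h1 (fun y hy => (h2 hy).1)
    (le_antisymm (le_dm h1 fun y hy => (h2 hy).1) (h3 ▸ hd)) fun y hy => (h2 hy).2

lemma Gor.exists_ext {Y : Set L} (h : Gor F Y) : ∀ τ : Finset L, IsCh τ → (τ : Set L) ⊆ Y →
    τ.card < dm Y → ∃ a, Ext Y τ a := by
  induction h with
  | @mk Y n z h0 hl ih =>
  intro τ h1 h2 h3
  rcases τ.eq_empty_or_nonempty with rfl | ⟨x, hx⟩
  · obtain ⟨a, ha⟩ := nonempty_of_dm_pos (Y := Y) (by simpa using h3)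
    exact ⟨a, ha, notMem_empty _, by simpa using isCh_singleton a⟩
  · obtain ⟨c1, c2⟩ := erase_lk hx h1 h2
    obtain ⟨a, a1, a2, a3⟩ := ih x (h2 hx) _ c1 c2 (by
      have := (Gor.mk h0 hl).dm_lk (h2 hx)
      have := card_erase_add_one hx
      omega)
    refine ⟨a, a1.1, fun h => a2 (mem_erase.2 ⟨a1.2.1, h⟩), ?_⟩
    have := (insert_lk (h2 hx) a3 (by rw [coe_insert]; exact Set.insert_subset a1 c2)).2.1
    rwa [insert_comm, insert_erase hx] at this

/-- an automorphism of odd order cannot fix a ridge without fixing a flag -/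
lemma Gor.odd_codim {Y : Set L} (h : Gor F Y) (e : L ≃o L) (hY : ∀ y ∈ Y, e y ∈ Y) {k : ℕ}
    (hk : Odd k) (he : e ^ k = 1) : dm (Fx Y e) + 1 ≠ dm Y := by
  intro hd
  obtain ⟨τ, h1, h2, h3⟩ := exists_dm (Fx Y e)
  have t1 : (τ : Set L) ⊆ Y := fun y hy => (h2 hy).1
  have hτ : ∀ y ∈ τ, e y = y := fun y hy => (h2 hy).2
  obtain ⟨a, ha⟩ := h.exists_ext τ h1 t1 (by omega)
  have hne : e a ≠ a := by
    intro h4
    have := le_dm (Y := Fx Y e) ha.2.2 (by
      rw [coe_insert]; exact Set.insert_subset ⟨ha.1, h4⟩ h2)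
    rw [card_insert_of_notMem ha.2.1] at this
    omega
  have h5 : e (e a) = a := by
    rcases h.two τ t1 (by omega) a (e a) (e (e a)) ha (ha.map e hY hτ)
      ((ha.map e hY hτ).map e hY hτ) hne.symm with h5 | h5
    · exact h5
    · exact absurd (e.injective h5) hne
  obtain ⟨j, rfl⟩ := hk
  have h6 : ∀ j : ℕ, (e ^ (2 * j)) a = a := by
    intro j
    induction j with
    | zero => rfl
    | succ j ih =>
      rw [mul_add, pow_add, RelIso.mul_apply, mul_one, sq, RelIso.mul_apply, h5, ih]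
  apply hne
  have : (e ^ (2 * j + 1)) a = a := by rw [he]; rfl
  rwa [pow_succ', RelIso.mul_apply, h6] at this

/-- the face poset of a polytope -/
theorem gor_lat {V : Type*} [Fintype V] {𝒜 : Submodule ℝ (V → ℝ)} (F : Type*) [Field F]
    {A B : Lat 𝒜} (k : ℕ) : ∀ (S : Set (Lat 𝒜)), A ∈ S → B ∈ S → (∀ y, A ≤ y) → (∀ y, y ≤ B) →
    (∀ a ∈ S, ∀ b ∈ S, a ≤ b ∨ b ≤ a) →
    {y | y ∉ S ∧ ∀ a ∈ S, y ≤ a ∨ a ≤ y}.ncard = k →
    Gor F {y | y ∉ S ∧ ∀ a ∈ S, y ≤ a ∨ a ≤ y} := by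
  induction k using Nat.strong_induction_on with
  | _ k ih =>
  intro S hA hB hA' hB' hS hk
  set Y : Set (Lat 𝒜) := {y | y ∉ S ∧ ∀ a ∈ S, y ≤ a ∨ a ≤ y} with hY
  have hl : ∀ x ∈ Y, Gor F (Lk Y x) := by
    intro x hx
    have hlk : Lk Y x = {y | y ∉ insert x S ∧ ∀ a ∈ insert x S, y ≤ a ∨ a ≤ y} := by
      ext y
      simp only [Lk, hY, Set.mem_ofPred_eq, Set.mem_insert_iff, not_or, forall_eq_or_imp]
      tauto
    rw [hlk]
    refine ih _ ?_ (insert x S) (Or.inr hA) (Or.inr hB) hA' hB' ?_ rfl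
    · rw [← hk, ← hlk]
      apply Set.ncard_lt_ncard _ (Set.toFinite _)
      exact ⟨fun a ha => ha.1, fun h => (h hx).2.1 rfl⟩
    · rintro a (rfl | ha) b (rfl | hb)
      · exact Or.inl le_rfl
      · exact hx.2 b hb
      · exact (hx.2 a ha).symm
      · exact hS a ha b hb
  obtain ⟨σ, s1, s2, s3⟩ := exists_dm Y
  rcases σ.eq_empty_or_nonempty with h0 | hne
  · have : Y = ∅ := by
      by_contra h
      obtain ⟨x, hx⟩ := Set.nonempty_iff_ne_empty.2 h
      have := dm_pos hx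
      rw [← s3, h0] at this
      simp at this
    exact Gor.mk (n := 0) (this ▸ sph_empty F) hl
  obtain ⟨x, hx⟩ := σ.exists_minimal hne
  have hxσ : x ∈ σ := hx.1
  have hxmin : ∀ y ∈ σ, x ≤ y := by
    intro y hy
    rcases s1 x hxσ y hy with h | h
    · exact h
    · exact hx.2 hy h
  have hxY : x ∈ Y := s2 hxσ
  have hmin : ∀ y ∈ Y, ¬ y < x := by
    intro y hy hyx
    have hy' : y ∉ σ := fun h => not_le_of_gt hyx (hxmin y h)
    have := le_dm (Y := Y) (σ := insert y σ) (by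
      intro a ha b hb
      rcases mem_insert.1 ha with rfl | ha'
      · rcases mem_insert.1 hb with rfl | hb'
        · exact Or.inl le_rfl
        · exact Or.inl (hyx.le.trans (hxmin b hb'))
      · rcases mem_insert.1 hb with rfl | hb'
        · exact Or.inr (hyx.le.trans (hxmin a ha'))
        · exact s1 a ha' b hb') (by rw [coe_insert]; exact Set.insert_subset hy s2)
    rw [card_insert_of_notMem hy'] at this
    omega
  obtain ⟨a, ha⟩ := (Set.toFinite {a | a ∈ S ∧ a ≤ x}).exists_maximal ⟨A, hA, hA' x⟩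
  obtain ⟨b, hb⟩ := (Set.toFinite {a | a ∈ S ∧ x ≤ a}).exists_minimal ⟨B, hB, hB' x⟩
  have ha' : ∀ c ∈ S, c ≤ x → c ≤ a := by
    intro c hc h
    rcases hS c hc a ha.1.1 with h2 | h2
    · exact h2
    · exact ha.2 ⟨hc, h⟩ h2
  have hb' : ∀ c ∈ S, x ≤ c → b ≤ c := by
    intro c hc h
    rcases hS c hc b hb.1.1 with h2 | h2
    · exact hb.2 ⟨hc, h⟩ h2
    · exact h2
  have hax : a < x := lt_of_le_of_ne ha.1.2 (by rintro rfl; exact hxY.1 ha.1.1)
  have hxb : x < b := lt_of_le_of_ne hb.1.2 (by rintro rfl; exact hxY.1 hb.1.1)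
  have hI : Set.Ioo a b ⊆ Y := by
    intro y hy
    refine ⟨fun h => ?_, fun c hc => ?_⟩
    · rcases hxY.2 y h with h2 | h2
      · exact not_le_of_gt hy.2 (hb' y h h2)
      · exact not_le_of_gt hy.1 (ha' y h h2)
    · rcases hxY.2 c hc with h2 | h2
      · exact Or.inl (hy.2.le.trans (hb' c hc h2))
      · exact Or.inr ((ha' c hc h2).trans hy.1.le)
  have hcov : a ⋖ x := ⟨hax, fun y hy hyx => hmin y (hI ⟨hy, hyx.trans hxb⟩) hyx⟩
  have hab : ∀ y ∈ Y, a < y := by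
    intro y hy
    rcases hy.2 a ha.1.1 with h | h
    · exact absurd (h.trans_lt hax) (hmin y hy)
    · exact lt_of_le_of_ne h (by rintro rfl; exact hy.1 ha.1.1)
  have hsub : Set.Ioo a b \ {x} ⊆ Y \ {x} := fun y hy => ⟨hI hy.1, hy.2⟩
  have hac : Acyc F (Y \ {x}) := by
    refine acyc_of_rel F hsub (quillen F _ _ _ rfl hsub ?_ ?_) (acyc_remove F hcov hxb)
    · intro y hy y' hy' hle
      exact ⟨⟨hab y hy.1, hle.trans_lt hy'.1.2⟩, hy.2⟩
    · intro G hG hG'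
      have hbG : b ≤ G := by
        rcases hG.1.2 b hb.1.1 with h | h
        · exact absurd ⟨⟨hab G hG.1, lt_of_le_of_ne h (by rintro rfl; exact hG.1.1 hb.1.1)⟩,
            hG.2⟩ hG'
        · exact h
      have : {y | y ∈ Set.Ioo a b \ {x} ∧ y < G} = Set.Ioo a b \ {x} := by
        ext y
        exact ⟨fun h => h.1, fun h => ⟨h, h.1.2.trans_le hbG⟩⟩
      rw [this]
      exact acyc_remove F hcov hxb
  obtain ⟨w, hw⟩ := (hl x hxY).sph
  obtain ⟨z, hz⟩ := sph_step F hxY hac hw (by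
    intro τ h1 h2
    have h3 := le_dm h1 h2
    have h4 := card_le_dm_lk hxσ s1 s2
    omega)
  exact Gor.mk hz hl

end

end Pool.Agent.MP_23c9d7_co
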