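import Mathlib

/-! A criterion for a permutation group to contain the alternating group. -/

namespace Pool.Agent.MP_23c9d7_co

open Finset Equiv

variable {α : Type} [DecidableEq α] {H : Subgroup (Perm α)}

/-- the three-cycles on `a, b, c` lie in `H` -/
def G3 (H : Subgroup (Perm α)) (a b c : α) : Prop :=
  a ≠ b ∧ a ≠ c ∧ b ≠ c ∧ swap a b * swap a c ∈ H

lemma G3.swap23 {a b c : α} (h : G3 H a b c) : G3 H a c b :=
  ⟨h.2.1, h.1, h.2.2.1.symm, by simpa using H.inv_mem h.2.2.2⟩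

lemma G3.rot {a b c : α} (h : G3 H a b c) : G3 H b c a := by
  obtain ⟨h1, h2, h3, h4⟩ := h
  refine ⟨h3, h1.symm, h2.symm, ?_⟩
  have : swap b c * swap b a = swap a b * swap a c := by
    ext x
    simp only [Perm.mul_apply, swap_apply_def]
    split_ifs <;> grind
  rwa [this]

lemma G3.conj {a b c : α} (h : G3 H a b c) {g : Perm α} (hg : g ∈ H) : G3 H (g a) (g b) (g c) := by
  refine ⟨g.injective.ne h.1, g.injective.ne h.2.1, g.injective.ne h.2.2.1, ?_⟩
  have := H.mul_mem (H.mul_mem hg h.2.2.2) (H.inv_mem hg)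
  rw [swap_apply_apply, swap_apply_apply]
  simpa [mul_assoc] using this

lemma G3.trans {a b c x : α} (h : G3 H a b x) (h' : G3 H a x c) (hbc : b ≠ c) : G3 H a b c :=
  ⟨h.1, h'.2.1, hbc, by simpa [mul_assoc] using H.mul_mem h.2.2.2 h'.2.2.2⟩

/-- the orbits of the three-cycles in `H` -/
def Rl (H : Subgroup (Perm α)) (a b : α) : Prop := a = b ∨ ∃ x, G3 H a b x

lemma Rl.symm {a b : α} (h : Rl H a b) : Rl H b a := by
  rcases h with h | ⟨x, h⟩
  exacts [Or.inl h.symm, Or.inr ⟨x, h.rot.swap23⟩]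

lemma Rl.conj {a b : α} (h : Rl H a b) {g : Perm α} (hg : g ∈ H) : Rl H (g a) (g b) := by
  rcases h with h | ⟨x, h⟩
  exacts [Or.inl (congrArg g h), Or.inr ⟨_, h.conj hg⟩]

lemma Rl.g3 {a b c : α} (h : Rl H a b) (h' : Rl H a c) (ab : a ≠ b) (ac : a ≠ c) (bc : b ≠ c) :
    G3 H a b c := by
  obtain ⟨x, hx⟩ := h.resolve_left ab
  obtain ⟨y, hy⟩ := h'.resolve_left ac
  by_cases xc : x = c
  · exact xc ▸ hx
  by_cases yb : y = b
  · exact (yb ▸ hy).swap23
  by_cases xy : x = y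
  · exact hx.trans (xy ▸ hy.swap23) bc
  have h1 := hx.conj hy.2.2.2
  have e1 : (swap a c * swap a y) a = y := by
    simp [swap_apply_of_ne_of_ne hy.2.1.symm hy.2.2.1.symm]
  have e2 : (swap a c * swap a y) b = b := by
    simp [swap_apply_of_ne_of_ne ab.symm (Ne.symm yb), swap_apply_of_ne_of_ne ab.symm bc]
  have e3 : (swap a c * swap a y) x = x := by
    simp [swap_apply_of_ne_of_ne hx.2.1.symm xy, swap_apply_of_ne_of_ne hx.2.1.symm xc]
  rw [e1, e2, e3] at h1
  have h2 : G3 H b a y := hx.rot.swap23.trans h1.rot hy.2.1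
  exact h2.rot.swap23.trans hy.swap23 bc

lemma Rl.trans {a b c : α} (h : Rl H a b) (h' : Rl H b c) : Rl H a c := by
  by_cases ab : a = b
  · rwa [ab]
  by_cases bc : b = c
  · rwa [← bc]
  by_cases ac : a = c
  · exact Or.inl ac
  exact Or.inr ⟨b, (h.symm.g3 h' (Ne.symm ab) bc ac).rot⟩

lemma Rl.two {a b c d : α} (h1 : Rl H a b) (h2 : Rl H a c) (h3 : Rl H c d) (ab : a ≠ b)
    (cd : c ≠ d) : swap a b * swap c d ∈ H := by
  have key : ∀ a b c, Rl H a b → Rl H a c → a ≠ b → a ≠ c → swap a b * swap a c ∈ H := by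
    intro a b c h1 h2 ab ac
    by_cases bc : b = c
    · simp [bc, H.one_mem]
    · exact (h1.g3 h2 ab ac bc).2.2.2
  by_cases ac : a = c
  · subst ac
    exact key a b d h1 h3 ab cd
  · have := H.mul_mem (key a b c h1 h2 ab ac) (key c a d h2.symm h3 (Ne.symm ac) cd)
    rwa [swap_comm c a, mul_assoc, swap_mul_self_mul] at this

lemma sq_mem [Fintype α] (k : ℕ) : ∀ π : Perm α, #π.support = k → (∀ a, Rl H a (π a)) →
    π * π ∈ H := by
  induction k using Nat.strong_induction_on with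
  | _ k ih =>
  intro π hk hπ
  by_cases h1 : π = 1
  · simp [h1, H.one_mem]
  obtain ⟨a, ha⟩ : ∃ a, π a ≠ a := by
    by_contra h
    push Not at h
    exact h1 (Equiv.ext h)
  have h2 : ∀ b, Rl H b (swap a (π a) b) := by
    intro b
    rw [swap_apply_def]
    split_ifs with b1 b2
    exacts [b1 ▸ hπ _, b2 ▸ (hπ a).symm, Or.inl rfl]
  have h3 : ∀ b, Rl H b ((swap a (π a) * π) b) := fun b => (hπ b).trans (h2 _)
  have h4 := ih _ (hk ▸ Perm.card_support_swap_mul ha) _ rfl h3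
  have h5 := (hπ a).two (h3 a) ((h3 a).symm.trans ((hπ a).trans (h3 _))) ha.symm
    ((swap a (π a) * π).injective.ne ha.symm)
  rw [swap_apply_apply (swap a (π a) * π)] at h5
  simpa [mul_assoc] using H.mul_mem h5 h4

lemma even_mem [Fintype α] (h : ∀ a b, Rl H a b) (g : Perm α) (hg : Perm.sign g = 1) : g ∈ H := by
  have : (Perm.sign g = 1 → g ∈ H) ∧ (Perm.sign g = -1 → ∀ a b, a ≠ b → swap a b * g ∈ H) := by
    clear hg
    induction g using Perm.swap_induction_on with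
    | one => exact ⟨fun _ => H.one_mem, by simp⟩
    | swap_mul f x y hxy ih =>
      rw [map_mul, Perm.sign_swap hxy, neg_one_mul, neg_eq_iff_eq_neg, neg_inj]
      refine ⟨fun h1 => ih.2 h1 x y hxy, fun h1 a b hab => ?_⟩
      rw [← mul_assoc]
      exact H.mul_mem ((h a b).two (h a x) (h x y) hab hxy) (ih.1 h1)
  exact this.1 hg

lemma pow_addRight {G : Type} [AddCommGroup G] (t : G) (k : ℕ) :
    Equiv.addRight t ^ k = Equiv.addRight (k • t) := by
  induction k with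
  | zero => simp
  | succ k ih => rw [pow_succ', ih, succ_nsmul]; ext; simp [add_assoc]

lemma exists_g3 {u v : Perm α} (hu : u ∈ H) (hv : v ∈ H) {o : α} (u0 : u o ≠ o) (v0 : v o ≠ o)
    (h : ∀ b, u b ≠ b → v b ≠ b → b = o) : G3 H (v o) o (u o) := by
  have h1 : u (v o) = v o := by
    by_contra h1
    exact v0 (h _ h1 (v.injective.ne v0))
  have h2 : Commute (swap o (v o) * v) u := by
    refine Perm.Disjoint.commute fun b => ?_
    by_contra h3
    push Not at h3
    obtain ⟨a1, a2⟩ := Perm.ne_and_ne_of_swap_mul_apply_ne_self h3.1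
    exact a2 (h b h3.2 a1)
  refine ⟨v0, fun e => v0 (u.injective (h1.trans e)), u0.symm, ?_⟩
  have h3 := H.mul_mem (H.mul_mem (H.mul_mem hv hu) (H.inv_mem hv)) (H.inv_mem hu)
  have h4 : v * u * v⁻¹ * u⁻¹ = swap (v o) o * swap (u (v o)) (u o) := by
    rw [swap_apply_apply, swap_comm (v o) o]
    have h5 : v * u = swap o (v o) * u * (swap o (v o) * v) := by
      rw [mul_assoc, ← h2.eq, ← mul_assoc, swap_mul_self_mul]
    rw [h5]
    group
  rwa [h4, h1] at h3

theorem odd_core {G : Type} [AddCommGroup G] [Fintype G] [DecidableEq G] (hn : Odd (Nat.card G))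
    {H : Subgroup (Perm G)} (h1 : ∀ t, Equiv.addRight t ∈ H) {l l' : ℕ} (hl : l.Prime)
    (hl' : l'.Prime) (hne : l ≠ l') (d1 : l ∣ Nat.card G) (d2 : l' ∣ Nat.card G)
    (hc : ∀ l, l.Prime → l ∣ Nat.card G → ∀ σ ∈ H, σ ^ l = 1 → (∀ a, σ a ≠ a) → ∀ a,
      ∃ u ∈ H, u a = σ a ∧ ∀ b, u b ≠ b → ∃ k : ℕ, b = (σ ^ k) a)
    (g : Perm G) (hg : Perm.sign g = 1) : g ∈ H := by
  have cyc : ∀ l, l.Prime → l ∣ Nat.card G → ∃ u ∈ H, u 0 ≠ 0 ∧ ∀ b, u b ≠ b → l • b = 0 := by
    intro l hl d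
    have : Fact l.Prime := ⟨hl⟩
    obtain ⟨t, ht⟩ := exists_prime_addOrderOf_dvd_card' l d
    have t0 : t ≠ 0 := by
      rintro rfl
      exact hl.ne_one (by simpa using ht.symm)
    have t1 : l • t = 0 := ht ▸ addOrderOf_nsmul_eq_zero t
    obtain ⟨u, u1, u2, u3⟩ := hc l hl d _ (h1 t) (by rw [pow_addRight, t1]; simp)
      (by simpa using t0) 0
    refine ⟨u, u1, by simpa [u2] using t0, fun b hb => ?_⟩
    obtain ⟨k, rfl⟩ := u3 b hb
    simp [smul_comm l k, t1]
  obtain ⟨u, u1, u2, u3⟩ := cyc l hl d1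
  obtain ⟨v, v1, v2, v3⟩ := cyc l' hl' d2
  have h3 := exists_g3 u1 v1 u2 v2 fun b b1 b2 => by
    have := Nat.dvd_gcd (addOrderOf_dvd_of_nsmul_eq_zero (u3 b b1))
      (addOrderOf_dvd_of_nsmul_eq_zero (v3 b b2))
    rw [(Nat.coprime_primes hl hl').2 hne] at this
    simpa using this
  let D : AddSubgroup G :=
    { carrier := {t | Rl H t 0}
      zero_mem' := Or.inl rfl
      add_mem' := fun {a b} ha hb =>
        Rl.trans (by simpa using Rl.conj ha (h1 b)) hb
      neg_mem' := fun {a} ha => by simpa using (Rl.conj ha (h1 (-a))).symm }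
  have hD : ∀ a b : G, (a : G ⧸ D) = b ↔ Rl H a b := by
    intro a b
    rw [QuotientAddGroup.eq_iff_sub_mem]
    exact ⟨fun h => by simpa using Rl.conj h (h1 b),
      fun h => show Rl H _ 0 by simpa [sub_eq_add_neg] using h.conj (h1 (-b))⟩
  refine even_mem (fun a b => (hD a b).1 ?_) g hg
  by_contra hab
  have : Nontrivial (G ⧸ D) := ⟨_, _, hab⟩
  obtain ⟨q, hq, q2⟩ := Nat.exists_prime_and_dvd (Finite.one_lt_card (α := G ⧸ D)).ne'
  have : Fact q.Prime := ⟨hq⟩
  obtain ⟨z, hz⟩ := exists_prime_addOrderOf_dvd_card' q q2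
  have z0 : z ≠ 0 := by
    rintro rfl
    exact hq.ne_one (by simpa using hz.symm)
  let f : (G ⧸ D) → G → G := fun z a => a + ((a : G ⧸ D) + z).out - (a : G ⧸ D).out
  have f1 : ∀ z a, (f z a : G ⧸ D) = a + z := by
    intro z a
    simp [f]
  have f2 : ∀ z z' a, f z (f z' a) = f (z' + z) a := by
    intro z z' a
    simp only [f] at f1 ⊢
    rw [f1, add_assoc (a : G ⧸ D)]
    abel
  have f3 : ∀ a, f 0 a = a := fun a => by simp [f]
  let σ : Perm G := ⟨f z, f (-z), fun a => by simp [f2, f3], fun a => by simp [f2, f3]⟩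
  have s1 : ∀ k : ℕ, ∀ a, (σ ^ k) a = f (k • z) a := by
    intro k a
    induction k with
    | zero => simp [f3]
    | succ k ih => rw [pow_succ', Perm.mul_apply, ih, succ_nsmul, ← f2]; rfl
  let κ := Equiv.addRight (-z.out) * σ
  have k1 : ∀ a, (κ a : G ⧸ D) = a := by
    intro a
    simp [κ, σ, f1]
  have k2 : ∀ k : ℕ, ∀ a, (κ ^ k) a = a + k • (κ a - a) ∧ ((κ ^ k) a : G ⧸ D) = a := by
    intro k a
    induction k with
    | zero => simp
    | succ k ih =>
      rw [pow_succ', Perm.mul_apply, k1]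
      refine ⟨?_, ih.2⟩
      show f z _ + _ = a + _ • (f z a + _ - a)
      simp only [f]
      rw [ih.2, ih.1]
      show a + k • (f z a + _ - a) + _ - _ + _ = _
      simp only [f, succ_nsmul]
      abel
  have k3 : κ ∈ H := by
    obtain ⟨m, hm⟩ := hn
    have a1 : κ ^ Nat.card G = 1 := by
      ext a
      rw [(k2 _ a).1, card_nsmul_eq_zero']
      simp
    have a2 := H.pow_mem (sq_mem _ κ rfl fun a => (hD _ _).1 (k1 a).symm) (m + 1)
    rwa [← sq, ← pow_mul, show 2 * (m + 1) = Nat.card G + 1 by omega, pow_succ, a1,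
      one_mul] at a2
  have s2 : σ ∈ H := (H.mul_mem_cancel_left (h1 _)).1 k3
  obtain ⟨w, w1, w2, w3⟩ := hc q hq (q2.trans (AddSubgroup.card_quotient_dvd_card D)) σ s2
    (by
      ext a
      rw [s1, ← hz, addOrderOf_nsmul_eq_zero, f3]
      rfl)
    (fun a e => z0 (by simpa [show f z a = a from e] using (f1 z a).symm)) 0
  have r0 : Rl H (v 0) 0 := Or.inr ⟨_, h3⟩
  have w4 : w (v 0) = v 0 := by
    by_contra h4
    obtain ⟨k, hk⟩ := w3 _ h4
    have a1 := f1 (k • z) 0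
    rw [← s1, ← hk, (hD _ _).2 r0, left_eq_add] at a1
    rw [s1, a1, f3] at hk
    exact v2 hk
  have a2 := (hD _ _).2 (r0.conj w1)
  rw [w4, w2, (hD _ _).2 r0] at a2
  exact z0 (by simpa using (a2.trans (f1 z 0)).symm)

end Pool.Agent.MP_23c9d7_co
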