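import Pool.Agent.MP_23c9d7_co.H90.Even
import Pool.Agent.MP_23c9d7_co.H90.Odd
import Pool.Agent.MP_23c9d7_co.Mg.Upper

/-! The convex polytope dimension of the symmetric groups. -/

namespace Pool.Agent.MP_23c9d7_co

open Classical Finset Equiv

noncomputable section

variable {L : Type*} [Fintype L] [PartialOrder L] {X : Set L}

lemma Act.field {F : Type} [Field F] [Fintype F] {ρ : Perm F →* (L ≃o L)} (h : Act X ρ) :
    Fintype.card F - 1 ≤ dm X := by
  obtain ⟨g, hg⟩ := IsCyclic.exists_generator (α := Fˣ)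
  have hord : orderOf g = Fintype.card F - 1 := by
    rw [orderOf_eq_card_of_forall_mem_zpowers hg, Nat.card_eq_fintype_card, Fintype.card_units]
  obtain ⟨z, hz⟩ := (h.gor F).sph
  rcases smith (fun t : F => ρ (Equiv.addLeft t)) (by simp)
    (fun a b => by rw [← map_mul]; congr 1; ext; simp) g hord
    (ρ (Equiv.mulLeft₀ (g : F) g.ne_zero))
    (fun t => by rw [← map_mul, ← map_mul]; congr 1; ext; simp [mul_add])
    (fun t => h.inv _) (h.inv _) hz with h1 | ⟨w, w1, w2, w3, w4⟩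
  · exact h1
  · have h2 := (h.gor F).subset_of_cycle w1 (fun y hy => hy.1) w3 w2 w4
    have h3 := h.faith (Equiv.addLeft 1) fun y hy => (h2 hy).2 1
    simpa using congrArg (fun g : Perm F => g 0) h3

lemma exists_hom {α β : Type} [Fintype α] [Fintype β] [DecidableEq α] [DecidableEq β]
    (h : Fintype.card β ≤ Fintype.card α) : ∃ φ : Perm β →* Perm α, Function.Injective φ ∧
      ∀ g, Perm.sign (φ g) = Perm.sign g := by
  obtain ⟨f⟩ := Function.Embedding.nonempty_of_card_le h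
  exact ⟨Perm.extendDomainHom (ofInjective f f.2), Perm.extendDomainHom_injective _,
    fun g => Perm.sign_extendDomain g _⟩

variable {α : Type} [Fintype α] [DecidableEq α] {ρ : Perm α →* (L ≃o L)}

lemma Act.primePow (h : Act X ρ) {q : ℕ} (hq : IsPrimePow q) (hle : q ≤ Fintype.card α) :
    q - 1 ≤ dm X := by
  obtain ⟨p, k, hp, hk, rfl⟩ := (isPrimePow_nat_iff q).1 hq
  have : Fact p.Prime := ⟨hp⟩
  let _ := Fintype.ofFinite (GaloisField p k)
  have hc : Fintype.card (GaloisField p k) = p ^ k := by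
    rw [← Nat.card_eq_fintype_card, GaloisField.card p k hk.ne']
  obtain ⟨φ, h1, -⟩ := exists_hom (hc ▸ hle)
  exact hc ▸ (h.comp φ h1).field

omit [Fintype α] [DecidableEq α] in
lemma Act.four (h : Act X ρ) (hd : dm X = 4) {g u v : Perm α} (hg : g ^ 3 = 1) (hu : u * u = 1)
    (hv : v * v = 1) (u1 : u ≠ 1) (hc : u * v = v * u) (h1 : g * u * g⁻¹ = v)
    (h2 : g * v * g⁻¹ = u * v) (h3 : g * (u * v) * g⁻¹ = u) : ∃ x ∈ X, ρ g x = x := by
  have iv : ∀ y, ρ v y ∈ Fx X (ρ u) ↔ y ∈ Fx X (ρ u) := inv_iff _ fun y hy =>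
    ⟨(h.inv _ _).2 hy.1, by rw [← act_mul, hc, act_mul, hy.2]⟩
  have b := borel_two (h.gor _) (u := ρ u) (v := ρ v) (by rw [← map_mul, hu, map_one])
    (by rw [← map_mul, hv, map_one]) (Commute.map hc ρ) (h.inv _) (h.inv _)
  have e1 := dm_fx_conj ρ g u (h.inv g)
  have e2 := dm_fx_conj ρ g v (h.inv g)
  rw [h1] at e1
  rw [h2, map_mul] at e2
  have e3 := h.dm_lt u1
  have G := ((h.gor (ZMod 2)).fx 2 (ρ u) (by rw [sq, ← map_mul, hu, map_one]) (h.inv u)).fx 2
    (ρ v) (by rw [sq, ← map_mul, hv, map_one]) iv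
  have e4 := G.odd_codim (ρ g) (fun y hy => ⟨⟨(h.inv _ _).2 hy.1.1, by
      rw [← h3, ← act_mul, inv_mul_cancel_right, act_mul, act_mul, hy.2, hy.1.2]⟩, by
      rw [← h1, ← act_mul, inv_mul_cancel_right, act_mul, hy.1.2]⟩) (k := 3) (by decide)
    (by rw [← map_pow, hg, map_one])
  obtain ⟨x, hx⟩ := nonempty_of_dm_pos (Y := Fx (Fx (Fx X (ρ u)) (ρ v)) (ρ g)) (by omega)
  exact ⟨x, hx.1.1.1, hx.2⟩

lemma Act.six (h : Act X ρ) (hle : 6 ≤ Fintype.card α) : 5 ≤ dm X := by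
  have h4 := h.primePow (q := 5) Nat.prime_five.isPrimePow (by omega)
  by_contra h5
  have hd : dm X = 4 := by omega
  obtain ⟨φ, h1, -⟩ := exists_hom (β := Fin 2 × ZMod 3) (α := α) (by simpa using hle)
  have h' := h.comp φ h1
  refine six_three h' hd fun g hg => ?_
  have key : ∀ g', g' ^ 3 = 1 → #g'.support = #g.support →
      (∃ x ∈ X, (ρ.comp φ) g' x = x) → ∃ x ∈ X, (ρ.comp φ) g x = x := by
    rintro g' a1 a2 ⟨x, x1, x2⟩
    obtain ⟨c, rfl⟩ := isConj_of_prime 3 a1 hg a2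
    exact ⟨_, (h'.inv c x).2 x1, by rw [← act_mul, inv_mul_cancel_right, act_mul, x2]⟩
  have c1 : 3 ∣ #g.support := by
    rw [← Perm.sum_cycleType, Perm.cycleType_of_pow_prime_eq_one hg, Multiset.sum_replicate]
    exact Dvd.intro_left _ rfl
  have c2 : #g.support ≤ 6 := card_le_univ _
  have c3 : #g.support = 0 ∨ #g.support = 3 ∨ #g.support = 6 := by omega
  rcases c3 with c3 | c3 | c3
  · obtain ⟨x, hx⟩ := nonempty_of_dm_pos (Y := X) (by omega)
    exact key 1 (one_pow _) (by simp [c3]) ⟨x, hx, by rw [map_one]; rfl⟩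
  · exact key (tr0 3 ![1, 0]) (tr0_pow_p 3 _) (by rw [c3]; decide)
      (h'.four hd (u := swap (0, 0) (0, 1) * swap (0, 2) (1, 0))
        (v := swap (0, 1) (0, 2) * swap (0, 0) (1, 0)) (tr0_pow_p 3 _) (by decide) (by decide)
        (by decide) (by decide) (by decide) (by decide) (by decide))
  · exact key (tr0 3 ![1, 1]) (tr0_pow_p 3 _) (by rw [c3]; decide)
      (h'.four hd (u := swap (0, 1) (1, 1) * swap (0, 2) (1, 2))
        (v := swap (0, 2) (1, 2) * swap (0, 0) (1, 0)) (tr0_pow_p 3 _) (by decide) (by decide)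
        (by decide) (by decide) (by decide) (by decide) (by decide))

lemma Act.even' (h : Act X ρ) {r : ℕ} (hr : 5 ≤ r) (hle : 2 * r ≤ Fintype.card α) :
    2 * r ≤ dm X + 1 ∧ ∀ x ∈ X, (∀ g, Perm.sign g = 1 → ρ g x = x) → 2 * r ≤ dm X := by
  obtain ⟨φ, h1, h2⟩ := exists_hom (β := Fin r × ZMod 2) (α := α) (by simpa [mul_comm] using hle)
  have := (h.comp φ h1).even (by simpa using hr)
  rw [Fintype.card_fin] at this
  exact ⟨this.1, fun x hx hf => this.2 x hx fun g hg => hf _ ((h2 g).trans hg)⟩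

lemma Act.odd {r : ℕ} {ρ : Perm (ZMod (2 * r + 1)) →* (L ≃o L)} (h : Act X ρ) (hr : 5 ≤ r)
    (hn : ¬ IsPrimePow (2 * r + 1)) : 2 * r ≤ dm X := by
  obtain ⟨e1, e2⟩ := h.even' hr (by simp)
  by_contra hd
  obtain ⟨z, hz⟩ := (h.gor ℚ).sph
  obtain ⟨x, hx, x1⟩ := lef_odd hz ⟨r - 1, by omega⟩ (ρ (Equiv.addRight 1)) (h.inv _)
    (k := 2 * r + 1) ⟨r, rfl⟩ (by
      rw [← map_pow, pow_addRight, nsmul_eq_mul, ZMod.natCast_self]
      simp)
  let H : Subgroup (Perm (ZMod (2 * r + 1))) :=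
    { carrier := {g | ρ g x = x}
      mul_mem' := fun ha hb => by rw [Set.mem_ofPred_eq, act_mul, hb, ha]
      one_mem' := by rw [Set.mem_ofPred_eq, map_one]; rfl
      inv_mem' := fun {a} ha => by
        rw [Set.mem_ofPred_eq]
        conv_lhs => rw [← show ρ a x = x from ha, ← act_mul, inv_mul_cancel, map_one]
        rfl }
  obtain ⟨l, hl, d1⟩ := Nat.exists_prime_and_dvd (n := 2 * r + 1) (by omega)
  obtain ⟨l', ⟨hl', d2⟩, hne⟩ : ∃ l', (l'.Prime ∧ l' ∣ 2 * r + 1) ∧ l' ≠ l := by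
    by_contra h1
    push Not at h1
    exact hn (isPrimePow_iff_unique_prime_dvd.2 ⟨l, ⟨hl, d1⟩, h1⟩)
  refine hd (e2 x hx (odd_core (H := H) (by simp) (fun t => ?_) hl' hl hne (by simpa) (by simpa)
    fun p hp hdv σ s1 s2 s3 a => ?_))
  · have := H.pow_mem (show Equiv.addRight 1 ∈ H from x1) t.val
    rwa [pow_addRight, nsmul_eq_mul, mul_one, ZMod.natCast_zmod_val] at this
  · have : Fact p.Prime := ⟨hp⟩
    rw [Nat.card_zmod] at hdv
    obtain ⟨m, hm⟩ := hdv
    have o : Odd (p * m) := ⟨r, hm.symm⟩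
    obtain ⟨k, rfl⟩ := (Nat.odd_mul.1 o).2
    have : k ≠ 0 := by
      rintro rfl
      exact hn (by rw [hm]; simpa using hp.isPrimePow)
    exact h.cyc (Nat.odd_mul.1 o).1 (m := 2 * k + 1) (by omega) (by simpa using hm) (by omega)
      s2 s3 hx s1 a

theorem Act.bound (h : Act X ρ) : Fintype.card α - 1 ≤ dm X := by
  by_cases h1 : IsPrimePow (Fintype.card α)
  · exact h.primePow h1 le_rfl
  by_cases h2 : Fintype.card α ≤ 9
  · have a2 := Nat.prime_two.isPrimePow
    have a3 := Nat.prime_three.isPrimePow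
    have a4 : IsPrimePow 4 := a2.pow (k := 2) (by decide)
    have a5 := Nat.prime_five.isPrimePow
    have a7 := Nat.prime_seven.isPrimePow
    have a8 : IsPrimePow 8 := a2.pow (k := 3) (by decide)
    have a9 : IsPrimePow 9 := a3.pow (k := 2) (by decide)
    have := h.six
    generalize Fintype.card α = n at *
    interval_cases n <;> first | omega | contradiction
  rcases Nat.even_or_odd' (Fintype.card α) with ⟨r, hr | hr⟩
  · have := (h.even' (r := r) (by omega) hr.ge).1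
    omega
  · obtain ⟨φ, h3, -⟩ := exists_hom (β := ZMod (2 * r + 1)) (α := α) (by simp [hr])
    have := (h.comp φ h3).odd (by omega) (hr ▸ h1)
    omega

lemma act_bdd {A B : L} (hA : ∀ y, A ≤ y) (hB : ∀ y, y ≤ B) (hρ : Function.Injective ρ)
    (hG : ∀ (F : Type) [Field F],
      Gor F {y | y ∉ ({A, B} : Set L) ∧ ∀ a ∈ ({A, B} : Set L), y ≤ a ∨ a ≤ y}) :
    Fintype.card α - 1 ≤ dm (Set.Ioo A B) := by
  have fA : ∀ g : L ≃o L, g A = A := fun g =>
    le_antisymm (by simpa using g.monotone (hA (g.symm A))) (hA _)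
  have fB : ∀ g : L ≃o L, g B = B := fun g =>
    le_antisymm (hB _) (by simpa using g.monotone (hB (g.symm B)))
  have hX : {y | y ∉ ({A, B} : Set L) ∧ ∀ a ∈ ({A, B} : Set L), y ≤ a ∨ a ≤ y} =
      Set.Ioo A B := by
    ext y
    simp [lt_iff_le_and_ne, hA, hB, @eq_comm _ A]
  refine Act.bound (ρ := ρ) ⟨hX ▸ hG, fun g y => ?_,
    fun g hg => (map_eq_one_iff ρ hρ).1 (RelIso.ext fun y => ?_)⟩
  · conv_lhs => rw [← fA (ρ g), ← fB (ρ g)]
    simp
  · by_cases a1 : y = A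
    · rw [a1]; exact fA _
    by_cases a2 : y = B
    · rw [a2]; exact fB _
    exact hg y ⟨lt_of_le_of_ne (hA y) (Ne.symm a1), lt_of_le_of_ne (hB y) a2⟩

theorem sym_lower {d : ℕ} (h : HasPolytope d (Perm α)) : Fintype.card α - 1 ≤ d := by
  obtain ⟨s, ⟨Ψ⟩⟩ := h
  have hs : (s : Set (EuclideanSpace ℝ (Fin d))) = Set.range (Subtype.val : s → _) := by simp
  rw [hs] at Ψ
  obtain ⟨φ⟩ := exists_faceIso (Subtype.val : s → EuclideanSpace ℝ (Fin d))
  have h3 := finrank_affSp (Subtype.val : s → EuclideanSpace ℝ (Fin d))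
  have hone := one_mem_affSp (Subtype.val : s → EuclideanSpace ℝ (Fin d))
  have ρ := Ψ.symm.trans (autCongr φ)
  generalize affSp (Subtype.val : s → EuclideanSpace ℝ (Fin d)) = 𝒜 at *
  let A : Lat 𝒜 := ⟨∅, _, hone, fun _ => zero_le_one, by simp⟩
  let B : Lat 𝒜 := ⟨Set.univ, 0, zero_mem _, fun _ => le_rfl, by simp⟩
  have hA : ∀ G, A ≤ G := fun G => Set.empty_subset _
  have hB : ∀ G, G ≤ B := fun G => Set.subset_univ _
  have := act_bdd (ρ := ρ.toMonoidHom) hA hB ρ.injective fun F _ =>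
    gor_lat F _ {A, B} (Or.inl rfl) (Or.inr rfl) hA hB (by
      rintro a (rfl | rfl) b -
      exacts [Or.inl (hA b), Or.inr (hB b)]) rfl
  obtain ⟨σ, s1, s2, s3⟩ := exists_dm (Set.Ioo A B)
  have := chain_bound σ s1 s2
  omega

omit [DecidableEq α] in
theorem sym_upper : HasPolytope (Fintype.card α - 1) (Perm α) := by
  obtain ⟨x, hall⟩ : ∃ x : α → EuclideanSpace ℝ (Fin (Fintype.card α - 1)),
      ∀ S, IsFace (affSp x) S := by
    rcases isEmpty_or_nonempty α with h | ⟨⟨o⟩⟩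
    · exact ⟨fun _ => 0, fun S => ⟨0, zero_mem _, fun v => h.elim v, fun v => h.elim v⟩⟩
    obtain ⟨x, hx⟩ := realize (V := α) o rfl (fun v => LinearMap.proj v) (fun v => by simp)
    refine ⟨x, fun S => (hx S).2 ⟨fun v => if v ∈ S then 0 else 1, fun v => ?_, fun v => ?_⟩⟩
    · simp only [LinearMap.proj_apply]
      split_ifs <;> norm_num
    · simp only [LinearMap.proj_apply]
      split_ifs with h <;> simp [h]
  exact hasPolytope_of x (aut_equiv _ (MonoidHom.id _) Function.injective_id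
    (fun _ _ _ => hall _) (hall _) (fun _ => hall _) fun π _ => ⟨π, rfl⟩)

theorem sym_main (n : ℕ) : IsLeast {d : ℕ | HasPolytope d (Perm (Fin n))} (n - 1) :=
  ⟨by simpa using sym_upper (α := Fin n), fun d hd => by simpa using sym_lower hd⟩

end

end Pool.Agent.MP_23c9d7_co
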