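import Pool.Agent.MP_23c9d7_co.H90.Borel

/-! Elementary abelian subgroups of symmetric groups generated by disjoint cycles. -/

namespace Pool.Agent.MP_23c9d7_co

open Classical Finset Equiv

noncomputable section

variable {L : Type*} [Fintype L] [PartialOrder L] {X : Set L}

lemma borel_sub (p : ℕ) [Fact p.Prime] {ι : Type*} [Fintype ι] {tr : (ι → ZMod p) → L ≃o L}
    (ht : IsTr tr) {Y : Set L} (hG : Gor (AlgebraicClosure (ZMod p)) Y)
    (hY : ∀ t y, tr t y ∈ Y ↔ y ∈ Y) (Q : (ι → ZMod p) → Prop) (T : Finset (ι → ZMod p))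
    (hT : ∀ ψ, ψ ∈ T ↔ ψ ≠ 0 ∧ ∀ a, Q a → ψ ⬝ᵥ a = 0) :
    ∑ ψ ∈ T, (dm (Fq Y tr fun a => ψ ⬝ᵥ a = 0) - dm (Fq Y tr fun _ => True)) =
      (p - 1) * (dm (Fq Y tr Q) - dm (Fq Y tr fun _ => True)) := by
  have h := borel p ht (hG.fq p (fun a => by ext; simp) ht hY Q) (Fq_inv ht hY Q)
  have h0 : Fq (Fq Y tr Q) tr (fun _ => True) = Fq Y tr fun _ => True := by
    ext y
    exact ⟨fun h => ⟨h.1.1, h.2⟩, fun h => ⟨⟨h.1, fun a _ => h.2 a trivial⟩, h.2⟩⟩
  rw [h0] at h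
  rw [← h, ← sum_subset (s₁ := T) (fun ψ hψ => mem_filter.2 ⟨mem_univ _, ((hT ψ).1 hψ).1⟩)]
  · refine sum_congr rfl fun ψ hψ => ?_
    congr 2
    ext y
    exact ⟨fun h => ⟨⟨h.1, fun a ha => h.2 a (((hT ψ).1 hψ).2 a ha)⟩, h.2⟩, fun h => ⟨h.1.1, h.2⟩⟩
  · intro ψ h1 h2
    have : ∃ b, Q b ∧ ψ ⬝ᵥ b ≠ 0 := by
      by_contra h3
      push Not at h3
      exact h2 ((hT ψ).2 ⟨(mem_filter.1 h1).2, h3⟩)
    obtain ⟨b, b1, b2⟩ := this
    refine Nat.sub_eq_zero_of_le (dm_mono fun y hy => ⟨hy.1.1, fun a _ => ?_⟩)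
    have e : a = (a - (ψ ⬝ᵥ a / ψ ⬝ᵥ b) • b) + (ψ ⬝ᵥ a / ψ ⬝ᵥ b) • b := by abel
    rw [e, ht.add, RelIso.mul_apply, ht.smul_fix p (hy.1.2 b b1), hy.2]
    show ψ ⬝ᵥ _ = 0
    rw [dotProduct_sub, dotProduct_smul, smul_eq_mul, div_mul_cancel₀ _ b2, sub_self]

lemma borel_two {Z : Set L} (hG : Gor (AlgebraicClosure (ZMod 2)) Z) {u v : L ≃o L}
    (hu : u * u = 1) (hv : v * v = 1) (huv : Commute u v) (iu : ∀ y, u y ∈ Z ↔ y ∈ Z)
    (iv : ∀ y, v y ∈ Z ↔ y ∈ Z) :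
    dm (Fx Z u) + dm (Fx Z v) + dm (Fx Z (u * v)) = dm Z + 2 * dm (Fx (Fx Z u) v) := by
  let f : (L ≃o L) → ZMod 2 → L ≃o L := fun u x => if x = 0 then 1 else u
  have two : ∀ x : ZMod 2, x = 0 ∨ x = 1 := by decide
  have h11 : (1 + 1 : ZMod 2) = 0 := by decide
  have hf : ∀ u, u * u = 1 → ∀ x y, f u (x + y) = f u x * f u y := by
    intro u hu x y
    rcases two x with rfl | rfl <;> rcases two y with rfl | rfl <;> simp [f, hu, h11]
  have hc : ∀ x y, Commute (f u x) (f v y) := by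
    intro x y
    rcases two x with rfl | rfl <;> rcases two y with rfl | rfl <;> simp [f, huv]
  let tr : (Fin 2 → ZMod 2) → L ≃o L := fun a => f u (a 0) * f v (a 1)
  have ht : IsTr tr := ⟨by simp [tr, f], fun s t => by
    simp only [tr, Pi.add_apply, hf u hu, hf v hv]
    exact (hc _ _).mul_mul_mul_comm _ _⟩
  have hZ : ∀ t y, tr t y ∈ Z ↔ y ∈ Z := by
    intro t y
    simp only [tr, f]
    split_ifs <;> simp [iu, iv]
  have h := borel_sub 2 ht hG hZ (fun _ => False) {![1, 0], ![0, 1], ![1, 1]} (by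
    simp only [false_imp_iff, imp_true_iff, and_true]
    decide)
  have all : ∀ P : (Fin 2 → ZMod 2) → Prop, (∀ a, P a) ↔
      P ![0, 0] ∧ P ![1, 0] ∧ P ![0, 1] ∧ P ![1, 1] := by
    intro P
    refine ⟨fun h => ⟨h _, h _, h _, h _⟩, fun h a => ?_⟩
    have : ∀ a : Fin 2 → ZMod 2, a = ![0, 0] ∨ a = ![1, 0] ∨ a = ![0, 1] ∨ a = ![1, 1] := by decide
    rcases this a with rfl | rfl | rfl | rfl <;> tauto
  have e0 : Fq Z tr (fun _ => False) = Z := by ext y; simp [Fq]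
  have e1 : Fq Z tr (fun a => ![1, 0] ⬝ᵥ a = 0) = Fx Z v := by
    ext y; simp [Fq, Fx, all, tr, f]
  have e2 : Fq Z tr (fun a => ![0, 1] ⬝ᵥ a = 0) = Fx Z u := by
    ext y; simp [Fq, Fx, all, tr, f]
  have e3 : Fq Z tr (fun a => ![1, 1] ⬝ᵥ a = 0) = Fx Z (u * v) := by
    ext y; simp [Fq, Fx, all, tr, f, h11]
  have e4 : Fq Z tr (fun _ => True) = Fx (Fx Z u) v := by
    ext y
    simp only [Fq, Fx, all, tr, f, Set.mem_ofPred_eq]
    simp only [Matrix.cons_val_zero, Matrix.cons_val_one, if_true, one_ne_zero, if_false, mul_one,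
      one_mul, RelIso.mul_apply, true_imp_iff]
    exact ⟨fun h => ⟨⟨h.1, h.2.2.1⟩, h.2.2.2.1⟩, fun h => ⟨h.1.1, rfl, h.1.2, h.2, by
      rw [h.2, h.1.2]⟩⟩
  rw [sum_insert (by decide), sum_pair (by decide), e0, e1, e2, e3, e4] at h
  have m1 : dm (Fx (Fx Z u) v) ≤ dm (Fx Z u) := dm_mono fun y hy => hy.1
  have m2 : dm (Fx (Fx Z u) v) ≤ dm (Fx Z v) := dm_mono fun y hy => ⟨hy.1.1, hy.2⟩
  have m3 : dm (Fx (Fx Z u) v) ≤ dm (Fx Z (u * v)) :=
    dm_mono fun y hy => ⟨hy.1.1, by rw [RelIso.mul_apply, hy.2, hy.1.2]⟩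
  have m4 : dm (Fx Z u) ≤ dm Z := dm_mono fun y hy => hy.1
  omega

/-- a faithful action of a symmetric group -/
structure Act (X : Set L) {α : Type} (ρ : Perm α →* (L ≃o L)) : Prop where
  gor : ∀ (F : Type) [Field F], Gor F X
  inv : ∀ g y, ρ g y ∈ X ↔ y ∈ X
  faith : ∀ g, (∀ y ∈ X, ρ g y = y) → g = 1

lemma Act.comp {α β : Type} {ρ : Perm α →* (L ≃o L)} (h : Act X ρ) (φ : Perm β →* Perm α)
    (hφ : Function.Injective φ) : Act X (ρ.comp φ) :=
  ⟨h.gor, fun _ => h.inv _, fun _ hg => hφ ((h.faith _ hg).trans (map_one φ).symm)⟩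

omit [Fintype L] in
lemma act_mul {α : Type} (ρ : Perm α →* (L ≃o L)) (g g' : Perm α) (y : L) :
    ρ (g * g') y = ρ g (ρ g' y) := by rw [map_mul]; rfl

lemma Act.dm_lt {α : Type} {ρ : Perm α →* (L ≃o L)} (h : Act X ρ) {g : Perm α} (hg : g ≠ 1) :
    dm (Fx X (ρ g)) < dm X := by
  by_contra h1
  exact hg (h.faith g ((h.gor ℚ).fix_of_dm _ (fun y => (h.inv g y).2) (not_lt.1 h1)))

lemma dm_fx_conj {α : Type} (ρ : Perm α →* (L ≃o L)) {Z : Set L} (c g : Perm α)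
    (hc : ∀ y, ρ c y ∈ Z ↔ y ∈ Z) : dm (Fx Z (ρ g)) = dm (Fx Z (ρ (c * g * c⁻¹))) := by
  refine dm_eq_of_iso (ρ c) fun y => ?_
  simp only [Fx, Set.mem_ofPred_eq, hc]
  rw [← act_mul, inv_mul_cancel_right, act_mul, EmbeddingLike.apply_eq_iff_eq]

lemma isConj_of_prime {α : Type} [Fintype α] [DecidableEq α] (p : ℕ) [Fact p.Prime]
    {g g' : Perm α} (h : g ^ p = 1) (h' : g' ^ p = 1) (hs : #g.support = #g'.support) :
    ∃ c, c * g * c⁻¹ = g' := by
  refine isConj_iff.1 (Perm.isConj_iff_cycleType_eq.2 ?_)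
  rw [← Perm.sum_cycleType, ← Perm.sum_cycleType, Perm.cycleType_of_pow_prime_eq_one h,
    Perm.cycleType_of_pow_prime_eq_one h', Multiset.sum_replicate, Multiset.sum_replicate,
    smul_eq_mul, smul_eq_mul] at hs
  rw [Perm.cycleType_of_pow_prime_eq_one h, Perm.cycleType_of_pow_prime_eq_one h',
    Nat.eq_of_mul_eq_mul_right (Fact.out : p.Prime).pos hs]

lemma Act.dm_eq {α : Type} [Fintype α] [DecidableEq α] {ρ : Perm α →* (L ≃o L)} (h : Act X ρ)
    (p : ℕ) [Fact p.Prime] {g g' : Perm α} (h1 : g ^ p = 1) (h2 : g' ^ p = 1)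
    (hs : #g.support = #g'.support) : dm (Fx X (ρ g)) = dm (Fx X (ρ g')) := by
  obtain ⟨c, rfl⟩ := isConj_of_prime p h1 h2 hs
  exact dm_fx_conj ρ c g (h.inv c)

lemma le_choose (m : ℕ) : ∀ k, 1 ≤ k → k + 1 ≤ m → m ≤ m.choose k := by
  induction m with
  | zero => intro k _ h; omega
  | succ m ih =>
    intro k h1 h2
    obtain ⟨j, rfl⟩ : ∃ j, k = j + 1 := ⟨k - 1, by omega⟩
    rw [Nat.choose_succ_succ']
    have a1 := Nat.choose_pos (n := m) (k := j) (by omega)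
    have a2 := Nat.choose_pos (n := m) (k := j + 1) (by omega)
    by_cases h : j + 2 ≤ m
    · have := ih (j + 1) (by omega) h
      omega
    · obtain rfl : m = j + 1 := by omega
      rw [Nat.choose_succ_self_right]
      omega

variable (p : ℕ) {ι : Type} [Fintype ι]

/-- rotate the block `i` by `a i` -/
def tr0 (a : ι → ZMod p) : Perm (ι × ZMod p) := prodCongrRight fun i => Equiv.addRight (a i)

omit [Fintype ι] in
@[simp] lemma tr0_apply (a : ι → ZMod p) (i : ι) (t : ZMod p) : tr0 p a (i, t) = (i, t + a i) :=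
  rfl

omit [Fintype ι] in
lemma tr0_add (a b : ι → ZMod p) : tr0 p (a + b) = tr0 p a * tr0 p b := by
  ext ⟨i, t⟩ <;> simp [add_assoc, add_comm (a i)]

omit [Fintype ι] in
lemma tr0_zero : tr0 p (0 : ι → ZMod p) = 1 := by ext ⟨i, t⟩ <;> simp

omit [Fintype ι] in
lemma tr0_pow (a : ι → ZMod p) (k : ℕ) : tr0 p a ^ k = tr0 p (k • a) := by
  induction k with
  | zero => simp [tr0_zero]
  | succ k ih => rw [pow_succ, ih, ← tr0_add, succ_nsmul]

omit [Fintype ι] in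
lemma tr0_pow_p (a : ι → ZMod p) : tr0 p a ^ p = 1 := by
  rw [tr0_pow, ← tr0_zero]
  congr 1
  ext; simp

variable {p} {ρ : Perm (ι × ZMod p) →* (L ≃o L)}

/-- the action of the block rotations -/
def trr (ρ : Perm (ι × ZMod p) →* (L ≃o L)) (a : ι → ZMod p) : L ≃o L := ρ (tr0 p a)

omit [Fintype L] [Fintype ι] in
lemma isTr_trr : IsTr (trr ρ) :=
  ⟨by rw [trr, tr0_zero, map_one], fun a b => by rw [trr, tr0_add, map_mul]; rfl⟩

/-- the size of the support -/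
def sp (ψ : ι → ZMod p) : ℕ := #(univ.filter fun i => ψ i ≠ 0)

def W (X : Set L) (ρ : Perm (ι × ZMod p) →* (L ≃o L)) (ψ : ι → ZMod p) : ℕ :=
  dm (Fq X (trr ρ) fun a => ψ ⬝ᵥ a = 0) - dm (Fq X (trr ρ) fun _ => True)

variable [Fact p.Prime]

lemma Act.W_eq (h : Act X ρ) {ψ ψ' : ι → ZMod p} (hs : sp ψ = sp ψ') : W X ρ ψ = W X ρ ψ' := by
  have key : ∀ ψ ψ' : ι → ZMod p, sp ψ = sp ψ' → W X ρ ψ' ≤ W X ρ ψ := by
    intro ψ ψ' hs
    obtain ⟨π, hπ⟩ := Perm.exists_map_finset_eq _ _ hs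
    have h1 : ∀ i, ψ' (π i) ≠ 0 ↔ ψ i ≠ 0 := by
      intro i
      have : π i ∈ univ.filter (fun i => ψ' i ≠ 0) ↔ i ∈ univ.filter (fun i => ψ i ≠ 0) := by
        rw [← hπ]; simp
      simpa using this
    let u : ι → ZMod p := fun i => if ψ i = 0 then 1 else ψ i / ψ' (π i)
    have hu : ∀ i, u i ≠ 0 := by
      intro i
      simp only [u]
      split_ifs with h2
      · exact one_ne_zero
      · exact div_ne_zero h2 ((h1 i).2 h2)
    have hu2 : ∀ i, ψ' (π i) * u i = ψ i := by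
      intro i
      simp only [u]
      split_ifs with h2
      · rw [h2, mul_one]
        by_contra h3
        exact (h1 i).1 h3 h2
      · rw [mul_div_cancel₀ _ ((h1 i).2 h2)]
    let κ : Perm (ι × ZMod p) := prodShear π fun i => Equiv.mulLeft₀ (u i) (hu i)
    refine Nat.sub_le_sub_right (dm_le_of_iso (ρ κ⁻¹) fun y hy => ?_) _
    refine ⟨(h.inv _ y).2 hy.1, fun a ha => ?_⟩
    have e : tr0 p a * κ⁻¹ = κ⁻¹ * tr0 p fun j => u (π.symm j) * a (π.symm j) := by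
      rw [eq_inv_mul_iff_mul_eq, ← mul_assoc, mul_inv_eq_iff_eq_mul]
      ext ⟨i, t⟩ <;> simp [κ, mul_add]
    rw [trr, ← act_mul, e, act_mul]
    congr 1
    refine hy.2 _ (Eq.trans ?_ ha)
    rw [dotProduct, dotProduct, ← Equiv.sum_comp π]
    exact sum_congr rfl fun i _ => by rw [π.symm_apply_apply, ← mul_assoc, hu2]
  exact le_antisymm (key _ _ hs.symm) (key _ _ hs)

lemma card_sp (k : ℕ) : (Fintype.card ι).choose k * (p - 1) ^ k ≤
    #(univ.filter fun ψ : ι → ZMod p => sp ψ = k) := by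
  rw [card_eq_sum_card_fiberwise (f := fun ψ : ι → ZMod p => univ.filter fun i => ψ i ≠ 0)
    (t := powersetCard k univ) (fun ψ hψ => by
      simpa [mem_powersetCard, sp] using hψ), ← card_univ, ← card_powersetCard, ← smul_eq_mul]
  refine card_nsmul_le_sum _ _ _ fun S hS => ?_
  have h1 := (mem_powersetCard.1 hS).2
  have h2 : #(Fintype.piFinset fun i => if i ∈ S then univ.erase (0 : ZMod p) else {0}) =
      (p - 1) ^ k := by
    rw [Fintype.card_piFinset, ← h1, ← prod_const, ← prod_subset (subset_univ S)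
      fun i _ hi => by simp [hi]]
    exact prod_congr rfl fun i hi => by simp [hi, card_erase_of_mem]
  rw [← h2]
  refine card_le_card fun ψ hψ => ?_
  have h3 : univ.filter (fun i => ψ i ≠ 0) = S := by
    ext i
    have := Fintype.mem_piFinset.1 hψ i
    by_cases hi : i ∈ S <;> simpa [hi] using this
  simp [sp, h3, h1]

lemma Act.sub (h : Act X ρ) (Q : (ι → ZMod p) → Prop) (T : Finset (ι → ZMod p))
    (hT : ∀ ψ, ψ ∈ T ↔ ψ ≠ 0 ∧ ∀ a, Q a → ψ ⬝ᵥ a = 0) :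
    ∑ ψ ∈ T, W X ρ ψ = (p - 1) * (dm (Fq X (trr ρ) Q) - dm (Fq X (trr ρ) fun _ => True)) :=
  borel_sub p isTr_trr (h.gor _) (fun _ => h.inv _) Q T hT

omit [Fintype L] [Fintype ι] [Fact p.Prime] in
lemma Fq_false : Fq X (trr ρ) (fun _ => False) = X := by ext y; simp [Fq]

lemma Act.W_bound (h : Act X ρ) {ψ : ι → ZMod p} (h0 : ψ ≠ 0) :
    (Fintype.card ι).choose (sp ψ) * (p - 1) ^ sp ψ * W X ρ ψ ≤ (p - 1) * dm X := by
  have h1 := h.sub (fun _ => False) (univ.filter fun ψ => ψ ≠ 0) (by simp)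
  rw [Fq_false] at h1
  have h2 : sp ψ ≠ 0 := by
    obtain ⟨i, hi⟩ := Function.ne_iff.1 h0
    exact card_ne_zero.2 ⟨i, by simpa using hi⟩
  calc _ ≤ #(univ.filter fun ψ' : ι → ZMod p => sp ψ' = sp ψ) * W X ρ ψ :=
        Nat.mul_le_mul_right _ (card_sp _)
    _ = ∑ ψ' ∈ univ.filter fun ψ' : ι → ZMod p => sp ψ' = sp ψ, W X ρ ψ' := by
        rw [← smul_eq_mul, ← sum_const]
        exact sum_congr rfl fun ψ' h' => h.W_eq (mem_filter.1 h').2.symm
    _ ≤ ∑ ψ' ∈ univ.filter fun ψ' : ι → ZMod p => ψ' ≠ 0, W X ρ ψ' := by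
        refine sum_le_sum_of_subset fun ψ' h' => mem_filter.2 ⟨mem_univ _, ?_⟩
        rintro rfl
        apply h2
        rw [← (mem_filter.1 h').2]
        simp [sp]
    _ ≤ _ := by rw [h1]; exact Nat.mul_le_mul_left _ (Nat.sub_le _ _)

lemma Act.W_ne_one (h : Act X ρ) (hp : Odd p) {ψ : ι → ZMod p} (h0 : ψ ≠ 0) : W X ρ ψ ≠ 1 := by
  obtain ⟨b, hb⟩ := exists_dot_one p h0
  have h1 := ((h.gor (ZMod p)).fq p (fun a => by ext; simp) isTr_trr (fun _ => h.inv _)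
    fun a => ψ ⬝ᵥ a = 0).odd_codim (trr ρ b)
    (fun y => (Fq_inv isTr_trr (fun _ => h.inv _) _ b y).2) hp
    (by rw [trr, ← map_pow, tr0_pow_p, map_one])
  have h2 : Fx (Fq X (trr ρ) fun a => ψ ⬝ᵥ a = 0) (trr ρ b) = Fq X (trr ρ) fun _ => True := by
    ext y
    refine ⟨fun hy => ⟨hy.1.1, fun a _ => ?_⟩,
      fun hy => ⟨⟨hy.1, fun a _ => hy.2 a trivial⟩, hy.2 b trivial⟩⟩
    have e : a = (a - (ψ ⬝ᵥ a) • b) + (ψ ⬝ᵥ a) • b := by abel
    rw [e, isTr_trr.add, RelIso.mul_apply, isTr_trr.smul_fix p hy.2, hy.1.2]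
    show ψ ⬝ᵥ _ = 0
    rw [dotProduct_sub, dotProduct_smul, hb]; simp
  rw [h2] at h1
  rw [W]
  omega

lemma pow_big {l : ℕ} (hl : 3 ≤ l) (m : ℕ) (hm : 3 ≤ m) : l * m ≤ 2 * (l - 1) ^ (m - 1) + 1 := by
  obtain ⟨a, rfl⟩ : ∃ a, l = a + 3 := ⟨l - 3, by omega⟩
  induction m, hm using Nat.le_induction with
  | base => show _ ≤ 2 * (a + 2) ^ 2 + 1; nlinarith
  | succ m hm ih =>
    obtain ⟨j, rfl⟩ : ∃ j, m = j + 1 := ⟨m - 1, by omega⟩
    change _ ≤ 2 * (a + 2) ^ j + 1 at ih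
    show _ ≤ 2 * (a + 2) ^ (j + 1) + 1
    rw [pow_succ]
    generalize (a + 2) ^ j = P at ih
    have h1 : 2 * P ≤ P * (a + 2) := by nlinarith
    have h2 : (a + 3) * 3 ≤ (a + 3) * (j + 1) := Nat.mul_le_mul_left _ hm
    have h3 : (a + 3) * (j + 1 + 1) = (a + 3) * (j + 1) + (a + 3) := by ring
    omega

lemma Act.cyc_model (h : Act X ρ) (hp : Odd p) (hm : 3 ≤ Fintype.card ι)
    (hd : dm X + 2 ≤ p * Fintype.card ι) {x : L} (hx : x ∈ X) (h1 : ρ (tr0 p 1) x = x)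
    (a : ι → ZMod p) : ρ (tr0 p a) x = x := by
  have hp3 : 3 ≤ p := by
    have := (Fact.out : p.Prime).two_le
    obtain ⟨k, rfl⟩ := hp
    omega
  have h2 := h.sub (fun a => a = 1) (univ.filter fun ψ => ψ ≠ 0 ∧ ψ ⬝ᵥ 1 = 0) (by simp)
  rw [sum_eq_zero] at h2
  · have hG := fun Q => (h.gor (ZMod p)).fq p (fun a => by ext; simp) (isTr_trr (ρ := ρ))
      (fun _ => h.inv _) Q
    have h3 := (hG fun a => a = 1).eq_of_dm (hG fun _ => True)
      (fun y hy => ⟨hy.1, fun a _ => hy.2 a trivial⟩) (by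
        rcases Nat.mul_eq_zero.1 h2.symm with h3 | h3 <;> omega)
    have : x ∈ Fq X (trr ρ) fun a => a = 1 := ⟨hx, by rintro _ rfl; exact h1⟩
    rw [← h3] at this
    exact this.2 a trivial
  intro ψ hψ
  obtain ⟨a1, a2⟩ := (mem_filter.1 hψ).2
  by_contra hW
  have b1 := h.W_ne_one hp a1
  have b2 := h.W_bound a1
  have b3 : 2 ≤ sp ψ := by
    by_contra hlt
    obtain ⟨i, hi⟩ := Function.ne_iff.1 a1
    rw [dotProduct, sum_eq_single i (fun j _ hj => ?_) (by simp)] at a2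
    · exact hi (by simpa using a2)
    · by_contra h5
      exact hj (card_le_one.1 (show sp ψ ≤ 1 by omega) j (by simpa using h5) i (by simpa using hi))
  have b4 : sp ψ ≤ Fintype.card ι := card_le_univ _
  generalize sp ψ = k at b2 b3 b4
  generalize Fintype.card ι = m at *
  obtain ⟨j, rfl⟩ : ∃ j, k = j + 1 := ⟨k - 1, by omega⟩
  have b5 : m.choose (j + 1) * (p - 1) ^ j * 2 ≤ dm X := by
    refine Nat.le_of_mul_le_mul_left (c := p - 1) (le_trans ?_ b2) (by omega)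
    calc _ = m.choose (j + 1) * (p - 1) ^ (j + 1) * 2 := by ring
      _ ≤ _ := Nat.mul_le_mul_left _ (by omega)
  rcases b4.lt_or_eq with b6 | b6
  · have c1 := le_choose m (j + 1) (by omega) b6
    have c2 : p - 1 ≤ (p - 1) ^ j := Nat.le_self_pow (by omega) _
    have c3 := Nat.mul_le_mul c1 c2
    obtain ⟨q, rfl⟩ : ∃ q, p = q + 1 := ⟨p - 1, by omega⟩
    simp only [Nat.add_sub_cancel] at *
    nlinarith
  · have := pow_big hp3 m hm
    subst b6
    rw [Nat.choose_self] at b5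
    simp only [Nat.add_sub_cancel] at this
    omega

/-- the cycles of a fixed-point-free element of odd prime order fix what the element fixes -/
lemma Act.cyc {α : Type} [Fintype α] {ρ : Perm α →* (L ≃o L)} (h : Act X ρ) (hp : Odd p)
    {m : ℕ} (hm : 3 ≤ m) (hc : Fintype.card α = p * m) (hd : dm X + 2 ≤ p * m) {σ : Perm α}
    (h1 : σ ^ p = 1) (h2 : ∀ a, σ a ≠ a) {x : L} (hx : x ∈ X) (h3 : ρ σ x = x) (a : α) :
    ∃ u : Perm α, ρ u x = x ∧ u a = σ a ∧ ∀ b, u b ≠ b → ∃ k : ℕ, b = (σ ^ k) a := by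
  have e : Fin m × ZMod p ≃ α := Fintype.equivOfCardEq (by simp [hc, mul_comm])
  obtain ⟨c, hc2⟩ := isConj_of_prime p (g := e.permCongrHom (tr0 p 1)) (g' := σ)
    (by rw [← map_pow, tr0_pow_p, map_one]) h1 (by
      congr 1
      ext b
      obtain ⟨⟨i, t⟩, rfl⟩ := e.surjective b
      simp [h2])
  let e' : Fin m × ZMod p ≃ α := e.trans c
  have h4 : e'.permCongrHom (tr0 p 1) = σ := by
    rw [← hc2]
    ext b
    simp [e']
  obtain ⟨⟨i, t⟩, rfl⟩ := e'.surjective a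
  refine ⟨e'.permCongrHom (tr0 p (Pi.single i 1)),
    (h.comp e'.permCongrHom.toMonoidHom e'.permCongrHom.injective).cyc_model hp (by simpa)
      (by simpa) hx (h4 ▸ h3 :) _, by simp [← h4], fun b hb => ?_⟩
  obtain ⟨⟨j, s⟩, rfl⟩ := e'.surjective b
  obtain rfl : j = i := by
    by_contra h5
    simp [h5] at hb
  refine ⟨(s - t).val, ?_⟩
  have : ((s - t).val • (1 : Fin m → ZMod p)) j = s - t := by
    rw [Pi.smul_apply, Pi.one_apply, nsmul_eq_mul, mul_one, ZMod.natCast_zmod_val]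
  rw [← h4, ← map_pow, tr0_pow]
  simp only [permCongrHom_coe, permCongr_apply, symm_apply_apply, tr0_apply, this, add_sub_cancel]

lemma six_three {ρ : Perm (Fin 2 × ZMod 3) →* (L ≃o L)} (h : Act X ρ) (hd : dm X = 4)
    (hf : ∀ g, g ^ 3 = 1 → ∃ x ∈ X, ρ g x = x) : False := by
  have h1 := h.sub (fun _ => False)
    {![1, 0], ![2, 0], ![0, 1], ![0, 2], ![1, 1], ![1, 2], ![2, 1], ![2, 2]} (by
      simp only [false_imp_iff, imp_true_iff, and_true]
      decide)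
  have h2 := h.sub (fun a => a = ![1, 0]) {![0, 1], ![0, 2]} (by
    simp only [forall_eq]
    decide)
  have h3 := h.sub (fun a => a = ![1, 1]) {![1, 2], ![2, 1]} (by
    simp only [forall_eq]
    decide)
  have pos : ∀ b, 0 < dm (Fq X (trr ρ) fun a => a = b) := by
    intro b
    obtain ⟨x, x1, x2⟩ := hf _ (tr0_pow_p 3 b)
    exact dm_pos (x := x) ⟨x1, by rintro _ rfl; exact x2⟩
  have lt : dm (Fq X (trr ρ) fun _ => True) < dm X :=
    lt_of_le_of_lt (dm_mono (Y' := Fx X (ρ (tr0 3 1))) fun y hy => And.intro hy.1 (hy.2 _ trivial))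
      (h.dm_lt (by decide))
  rw [sum_insert (by decide), sum_insert (by decide), sum_insert (by decide),
    sum_insert (by decide), sum_insert (by decide), sum_insert (by decide), sum_pair (by decide),
    Fq_false] at h1
  rw [sum_pair (by decide)] at h2 h3
  have a1 := h.W_eq (ψ := ![2, 0]) (ψ' := ![1, 0]) (by decide)
  have a2 := h.W_eq (ψ := ![0, 1]) (ψ' := ![1, 0]) (by decide)
  have a3 := h.W_eq (ψ := ![0, 2]) (ψ' := ![1, 0]) (by decide)
  have a4 := h.W_eq (ψ := ![1, 2]) (ψ' := ![1, 1]) (by decide)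
  have a5 := h.W_eq (ψ := ![2, 1]) (ψ' := ![1, 1]) (by decide)
  have a6 := h.W_eq (ψ := ![2, 2]) (ψ' := ![1, 1]) (by decide)
  have a7 := h.W_ne_one (by decide) (ψ := ![1, 0]) (by decide)
  have a8 := h.W_ne_one (by decide) (ψ := ![1, 1]) (by decide)
  have := pos ![1, 0]
  have := pos ![1, 1]
  omega

end

end Pool.Agent.MP_23c9d7_co
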