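import Pool.Agent.MP_23c9d7_co.H90.Gor

/-! Nilpotent elements of the group algebra of an elementary abelian group; Smith theory. -/

namespace Pool.Agent.MP_23c9d7_co

open Classical Finset

noncomputable section

section algebra

variable {F : Type*} [Field F] {E : Type*} [AddCommGroup E] {Ω : Type*} [AddAction E Ω]
  {J : Type*} [Fintype J]

def shE (F : Type*) [Field F] (E : Type*) [AddCommGroup E] (Ω : Type*) [AddAction E Ω] :
    Multiplicative E →* Module.End F (Ω → F) where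
  toFun t :=
    { toFun := fun f ω => f (t.toAdd +ᵥ ω)
      map_add' := fun _ _ => rfl
      map_smul' := fun _ _ => rfl }
  map_one' := by ext f ω; simp
  map_mul' s t := by
    ext f ω
    show f ((s.toAdd + t.toAdd) +ᵥ ω) = f (t.toAdd +ᵥ (s.toAdd +ᵥ ω))
    rw [vadd_vadd, add_comm]

def rhoE (F : Type*) [Field F] (E : Type*) [AddCommGroup E] (Ω : Type*) [AddAction E Ω] :
    AddMonoidAlgebra F E →ₐ[F] Module.End F (Ω → F) :=
  AddMonoidAlgebra.lift F _ E (shE F E Ω)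

lemma rhoE_single (t : E) (c : F) (f : Ω → F) (ω : Ω) :
    rhoE F E Ω (AddMonoidAlgebra.single t c) f ω = c * f (t +ᵥ ω) := by
  unfold rhoE
  rw [AddMonoidAlgebra.lift_single]
  rfl

lemma rhoE_local (v : AddMonoidAlgebra F E) (g g' : Ω → F) (ω : Ω)
    (h : ∀ t : E, g (t +ᵥ ω) = g' (t +ᵥ ω)) : rhoE F E Ω v g ω = rhoE F E Ω v g' ω := by
  induction v using AddMonoidAlgebra.induction_on with
  | of m =>
    have : AddMonoidAlgebra.of F E (Multiplicative.ofAdd m) = AddMonoidAlgebra.single m 1 := rfl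
    rw [this, rhoE_single, rhoE_single, h]
  | add x y hx hy => simp [hx, hy]
  | smul r x hx => simp [hx]

def elE (g : J → E) (a : J → F) : AddMonoidAlgebra F E := ∑ j, AddMonoidAlgebra.single (g j) (a j)

lemma rhoE_el (g : J → E) (a : J → F) (f : Ω → F) (ω : Ω) :
    rhoE F E Ω (elE g a) f ω = ∑ j, a j * f (g j +ᵥ ω) := by
  unfold elE
  rw [map_sum, LinearMap.sum_apply, Finset.sum_apply]
  simp only [rhoE_single]

lemma elE_pow (p : ℕ) [Fact p.Prime] [CharP F p] (hE : ∀ a : E, p • a = 0) (g : J → E)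
    (a : J → F) : elE g a ^ p = algebraMap F _ ((∑ j, a j) ^ p) := by
  have : CharP (AddMonoidAlgebra F E) p :=
    charP_of_injective_algebraMap (algebraMap F (AddMonoidAlgebra F E)).injective p
  unfold elE
  rw [sum_pow_char, sum_pow_char, map_sum]
  refine sum_congr rfl fun t _ => ?_
  rw [AddMonoidAlgebra.single_pow, hE]
  rfl

lemma exists_XE (p : ℕ) [Fact p.Prime] [CharP F p] (hE : ∀ a : E, p • a = 0) (g : J → E)
    (c : J → F) : ∃ X : Module.End F (Ω → F),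
    (∀ f ω, (∃ lam : E →+ F, (∀ h : E, h +ᵥ ω = ω → lam h = 0) ∧ ∑ j, c j * lam (g j) ≠ 0) →
      rhoE F E Ω (elE g c) (X f) ω - X (rhoE F E Ω (elE g c) f) ω = f ω) ∧
    (∀ f ω, (∀ t : E, f (t +ᵥ ω) = 0) → X f ω = 0) := by
  have h0 : ∀ ω : Ω, ∃ lam : E →+ F, (∀ h : E, h +ᵥ ω = ω → lam h = 0) ∧
      ((∃ lam : E →+ F, (∀ h : E, h +ᵥ ω = ω → lam h = 0) ∧ ∑ j, c j * lam (g j) ≠ 0) →
        ∑ j, c j * lam (g j) ≠ 0) := by
    intro ω
    by_cases h : ∃ lam : E →+ F, (∀ h : E, h +ᵥ ω = ω → lam h = 0) ∧ ∑ j, c j * lam (g j) ≠ 0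
    · obtain ⟨lam, h1, h2⟩ := h
      exact ⟨lam, h1, fun _ => h2⟩
    · exact ⟨0, fun _ _ => rfl, fun h' => absurd h' h⟩
  choose β hβ1 hβ2 using h0
  let rep : Ω → Ω := fun ω => Quotient.out (Quotient.mk (AddAction.orbitRel E Ω) ω)
  have hrep : ∀ (t : E) ω, rep (t +ᵥ ω) = rep ω := by
    intro t ω
    simp only [rep]
    congr 1
    exact Quotient.sound ⟨t, rfl⟩
  have hτ : ∀ ω, ∃ t : E, t +ᵥ rep ω = ω := by
    intro ω
    have : (AddAction.orbitRel E Ω).r ω (rep ω) :=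
      (AddAction.orbitRel E Ω).symm (Quotient.mk_out (s := AddAction.orbitRel E Ω) ω)
    exact this
  choose τ hτ using hτ
  let lam : Ω → E →+ F := fun ω => β (rep ω)
  let ξ : Ω → F := fun ω => lam ω (τ ω)
  have hlam : ∀ (t : E) ω, lam (t +ᵥ ω) = lam ω := by
    intro t ω
    simp only [lam, hrep]
  have hξ : ∀ (t : E) ω, ξ (t +ᵥ ω) = ξ ω + lam ω t := by
    intro t ω
    simp only [ξ, hlam]
    have h1 : (τ (t +ᵥ ω) - t - τ ω) +ᵥ rep ω = rep ω := by
      have h2 := hτ (t +ᵥ ω)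
      rw [hrep] at h2
      have h3 : τ (t +ᵥ ω) - t - τ ω = (- τ ω) + (- t + τ (t +ᵥ ω)) := by abel
      rw [h3, ← vadd_vadd, ← vadd_vadd, h2, neg_vadd_vadd]
      exact neg_vadd_eq_iff.2 (hτ ω).symm
    have h4 := hβ1 _ _ h1
    rw [map_sub, map_sub] at h4
    simp only [lam]
    linear_combination h4
  let u : (E →+ F) → AddMonoidAlgebra F E := fun l => elE g fun j => c j * l (g j)
  let v : (E →+ F) → AddMonoidAlgebra F E := fun l =>
    ((∑ j, c j * l (g j)) ^ p)⁻¹ • u l ^ (p - 1)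
  have hvu : ∀ l : E →+ F, ∑ j, c j * l (g j) ≠ 0 → v l * u l = 1 := by
    intro l hl
    simp only [v]
    rw [smul_mul_assoc, ← pow_succ, Nat.sub_add_cancel (Fact.out : p.Prime).one_le]
    simp only [u]
    rw [elE_pow p hE, Algebra.smul_def, ← map_mul, inv_mul_cancel₀ (pow_ne_zero _ hl), map_one]
  let X : Module.End F (Ω → F) :=
    { toFun := fun f ω => rhoE F E Ω (v (lam ω)) (mulf F ξ f) ω
      map_add' := by intro f g; funext ω; simp
      map_smul' := by intro c f; funext ω; simp }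
  have hX : ∀ f ω, X f ω = rhoE F E Ω (v (lam ω)) (mulf F ξ f) ω := fun _ _ => rfl
  refine ⟨X, ?_, ?_⟩
  · intro f ω hω
    have hne : ∑ j, c j * lam ω (g j) ≠ 0 := by
      apply hβ2
      obtain ⟨l, l1, l2⟩ := hω
      refine ⟨l, fun h hh => l1 h ?_, l2⟩
      rw [← hτ ω, vadd_vadd, add_comm, ← vadd_vadd, hh]
    have h1 : rhoE F E Ω (elE g c) (X f) ω =
        rhoE F E Ω (v (lam ω)) (rhoE F E Ω (elE g c) (mulf F ξ f)) ω := by
      have : rhoE F E Ω (elE g c) (X f) ω =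
          rhoE F E Ω (elE g c) (rhoE F E Ω (v (lam ω)) (mulf F ξ f)) ω := by
        apply rhoE_local
        intro t
        rw [hX, hlam]
      rw [this]
      generalize mulf F ξ f = g
      rw [← Module.End.mul_apply, ← map_mul, mul_comm, map_mul, Module.End.mul_apply]
    rw [h1, hX, ← Pi.sub_apply, ← map_sub]
    have h2 : rhoE F E Ω (v (lam ω)) (rhoE F E Ω (elE g c) (mulf F ξ f) -
          mulf F ξ (rhoE F E Ω (elE g c) f)) ω =
        rhoE F E Ω (v (lam ω)) (rhoE F E Ω (u (lam ω)) f) ω := by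
      apply rhoE_local
      intro s
      simp only [u]
      rw [Pi.sub_apply, mulf_apply, rhoE_el, rhoE_el, rhoE_el, mul_sum, ← sum_sub_distrib]
      refine sum_congr rfl fun t _ => ?_
      rw [mulf_apply, hξ (g t) (s +ᵥ ω), hlam]
      ring
    rw [h2, ← Module.End.mul_apply, ← map_mul, hvu _ hne]
    simp
  · intro f ω h
    rw [hX, rhoE_local (v (lam ω)) (mulf F ξ f) 0 ω (fun t => by simp [h t])]
    simp

lemma rhoE_exact (p : ℕ) [Fact p.Prime] [CharP F p] (hE : ∀ a : E, p • a = 0) (g : J → E)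
    (c : J → F) {P : Ω → Prop} (hP : ∀ (t : E) ω, P (t +ᵥ ω) → P ω)
    (hfix : ∀ ω, P ω →
      ∃ lam : E →+ F, (∀ h : E, h +ᵥ ω = ω → lam h = 0) ∧ ∑ j, c j * lam (g j) ≠ 0) :
    (∀ v ∈ sup F P, rhoE F E Ω (elE g c) v = 0 →
      ∃ w ∈ sup F P, (rhoE F E Ω (elE g c) ^ (p - 1)) w = v) ∧
    (∀ v ∈ sup F P, (rhoE F E Ω (elE g c) ^ (p - 1)) v = 0 →
      ∃ w ∈ sup F P, rhoE F E Ω (elE g c) w = v) := by
  obtain ⟨X, hX1, hX2⟩ := exists_XE (F := F) (Ω := Ω) p hE g c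
  have hm : ∀ f ∈ sup F P, rhoE F E Ω (elE g c) f ∈ sup F P := by
    intro f hf ω hω
    rw [rhoE_el]
    refine sum_eq_zero fun t _ => ?_
    rw [hf _ (fun h => hω (hP _ ω h)), mul_zero]
  have hXm : ∀ v ∈ sup F P, X v ∈ sup F P := by
    intro v hv ω hω
    exact hX2 v ω (fun t => hv _ (fun h => hω (hP t ω h)))
  refine weyl_exact (sup F P) _ X hm hXm ?_ (p - 1) ?_
  · intro v hv
    funext ω
    by_cases h : P ω
    · exact hX1 v ω (hfix ω h)
    · rw [Pi.sub_apply, hm _ (hXm v hv) ω h, hXm _ (hm _ hv) ω h, hv ω h, sub_zero]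
  · rw [Ne, CharP.cast_eq_zero_iff F p, (Fact.out : p.Prime).dvd_factorial]
    have := (Fact.out : p.Prime).one_lt
    omega

end algebra

variable {F : Type*} [Field F] {L : Type*} [Fintype L] [PartialOrder L]
  {E : Type*} [AddCommGroup E] {J : Type*} [Fintype J]

/-- an additive action by order automorphisms -/
structure IsTr (tr : E → L ≃o L) : Prop where
  zero : tr 0 = 1
  add : ∀ s t, tr (s + t) = tr s * tr t

omit [Fintype L] in
lemma IsTr.nsmul {tr : E → L ≃o L} (h : IsTr tr) (t : E) (k : ℕ) : tr (k • t) = tr t ^ k := by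
  induction k with
  | zero => simp [h.zero]
  | succ k ih => rw [pow_succ, ← ih, ← h.add, succ_nsmul]

omit [Fintype L] in
lemma IsTr.comm {tr : E → L ≃o L} (h : IsTr tr) (s t : E) (y : L) :
    tr s (tr t y) = tr t (tr s y) := by
  rw [← RelIso.mul_apply, ← h.add, add_comm, h.add, RelIso.mul_apply]

omit [Fintype L] in
lemma pow_fix {e : L ≃o L} {y : L} (h : e y = y) (k : ℕ) : (e ^ k) y = y := by
  induction k with
  | zero => rfl
  | succ k ih => rw [pow_succ, RelIso.mul_apply, h, ih]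

/-- the operator attached to coefficients `c` and group elements `g` -/
def thE (tr : E → L ≃o L) (g : J → E) (c : J → F) : Module.End F (Finset L → F) :=
  ∑ j, c j • pull F (tr (g j))

omit [Fintype L] [AddCommGroup E] in
lemma thE_apply (tr : E → L ≃o L) (g : J → E) (c : J → F) (f : Finset L → F) :
    thE tr g c f = ∑ j, c j • pull F (tr (g j)) f := by
  unfold thE
  rw [LinearMap.sum_apply]
  rfl

omit [Fintype L] in
lemma pull_eq_self {e : L ≃o L} {Y : Set L} (h : ∀ y ∈ Y, e y = y) {f : Finset L → F}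
    (hf : f ∈ C F Y) : pull F e f = f := by
  funext σ
  rw [pull_apply]
  by_cases h1 : (σ : Set L) ⊆ Y
  · rw [image_congr (g := id) (fun y hy => h y (h1 hy)), image_id]
  · rw [hf σ (fun h2 => h1 h2.2), hf _ (fun h2 => h1 fun y hy => ?_)]
    have h3 : e y ∈ Y := h2.2 (mem_coe.2 (mem_image_of_mem _ hy))
    rwa [e.injective (h _ h3)] at h3

omit [Fintype L] in
lemma image_sub_iff {Z : Set L} {g : L ≃o L} (hg : ∀ y, g y ∈ Z ↔ y ∈ Z) (σ : Finset L) :
    ((σ.image g : Finset L) : Set L) ⊆ Z ↔ (σ : Set L) ⊆ Z := by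
  rw [coe_image, Set.image_subset_iff]
  exact ⟨fun h y hy => (hg y).1 (h hy), fun h y hy => (hg y).2 (h hy)⟩

lemma setup_of (p : ℕ) [Fact p.Prime] [CharP F p] (hE : ∀ a : E, p • a = 0) {tr : E → L ≃o L}
    (ht : IsTr tr) (g : J → E) (c : J → F) (hc : ∑ j, c j = 0) {Y Y0 : Set L}
    (hY : ∀ t y, tr t y ∈ Y ↔ y ∈ Y) (hY0 : ∀ t y, tr t y ∈ Y0 ↔ y ∈ Y0) (hs : Y0 ⊆ Y)
    (hk : ∀ f ∈ C F Y0, thE tr g c f = 0)
    (hfree : ∀ y ∈ Y, y ∉ Y0 →
      ∃ lam : E →+ F, (∀ h : E, tr h y = y → lam h = 0) ∧ ∑ j, c j * lam (g j) ≠ 0) :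
    Setup (thE tr g c) (p - 1) Y Y0 := by
  have hpp : p.Prime := Fact.out
  let _ : AddAction E (Finset L) :=
    { vadd := fun t σ => σ.image (tr t)
      zero_vadd := fun σ => by
        show σ.image (tr 0) = σ
        rw [ht.zero]; exact image_id
      add_vadd := fun s t σ => by
        show σ.image (tr (s + t)) = (σ.image (tr t)).image (tr s)
        rw [ht.add, image_image]; rfl }
  have hv : ∀ (t : E) (σ : Finset L), t +ᵥ σ = σ.image (tr t) := fun _ _ => rfl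
  have hθ : thE tr g c = rhoE F E (Finset L) (elE g c) := by
    refine LinearMap.ext fun f => funext fun σ => ?_
    rw [thE_apply, rhoE_el, Finset.sum_apply]
    rfl
  have htrp : ∀ t, tr t ^ p = 1 := by
    intro t
    rw [← ht.nsmul, hE, ht.zero]
  have hinv : ∀ (j : ℕ) (t : E) (σ : Finset L),
      ((IsCh (t +ᵥ σ) ∧ ((t +ᵥ σ : Finset L) : Set L) ⊆ Y) ∧
        ¬ ((t +ᵥ σ : Finset L) : Set L) ⊆ Y0 ∧ (t +ᵥ σ).card = j) ↔
      ((IsCh σ ∧ (σ : Set L) ⊆ Y) ∧ ¬ (σ : Set L) ⊆ Y0 ∧ σ.card = j) := by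
    intro j t σ
    rw [hv, isCh_image, image_sub_iff (hY t), image_sub_iff (hY0 t), card_image_iso]
  have hnofix : ∀ (j : ℕ) (σ : Finset L),
      ((IsCh σ ∧ (σ : Set L) ⊆ Y) ∧ ¬ (σ : Set L) ⊆ Y0 ∧ σ.card = j) →
      ∃ lam : E →+ F, (∀ h : E, h +ᵥ σ = σ → lam h = 0) ∧ ∑ j, c j * lam (g j) ≠ 0 := by
    intro j σ h
    obtain ⟨y, hy, hy0⟩ := Set.not_subset.1 h.2.1
    obtain ⟨lam, l1, l2⟩ := hfree y (h.1.2 hy) hy0
    refine ⟨lam, fun t h2 => l1 t (fixed_of_comparable p hpp.pos _ (htrp t) y ?_), l2⟩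
    apply h.1.1 _ _ y hy
    rw [← h2, hv]
    exact mem_image_of_mem _ hy
  exact
    { nil := by
        rw [Nat.sub_add_cancel hpp.one_le, hθ, ← map_pow, elE_pow p hE, hc, zero_pow hpp.ne_zero]
        simp
      mpos := by have := hpp.one_lt; omega
      cb := by
        intro f
        rw [thE_apply, thE_apply, map_sum]
        simp only [map_smul, bd_pull]
      cw := by
        intro c f
        rw [thE_apply, thE_apply, map_sum]
        simp only [map_smul, pull_wt]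
      stab := by
        intro f hf
        rw [thE_apply]
        exact sum_mem fun t _ => Submodule.smul_mem _ _ (pull_mem F _ (fun y => (hY _ y).1) hf)
      sub := hs
      kill := hk
      cind := by
        intro j f
        funext σ
        rw [mulf_apply, hθ, rhoE_el, rhoE_el, mul_sum]
        refine sum_congr rfl fun t _ => ?_
        rw [mulf_apply]
        simp only [hinv j (g t) σ]
        ring
      ex1 := fun j => hθ ▸ (rhoE_exact p hE g c (fun t σ h => (hinv j t σ).1 h) (hnofix j)).1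
      ex2 := fun j => hθ ▸ (rhoE_exact p hE g c (fun t σ h => (hinv j t σ).1 h) (hnofix j)).2 }

/-- boundaries of the total complex -/
def DB (θ : Module.End F (Finset L → F)) (m : ℕ) (Y : Set L) :
    Submodule F ((Finset L → F) × (Finset L → F)) :=
  Submodule.map (dl θ m) ((C F Y).prod (C F Y))

variable {θ : Module.End F (Finset L → F)} {m : ℕ} {Y Y0 : Set L}

lemma DB_mono {Y Y' : Set L} (h : Y ⊆ Y') : DB θ m Y ≤ DB θ m Y' :=
  Submodule.map_mono (Submodule.prod_mono (C_mono F h) (C_mono F h))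

lemma Setup.exD (S : Setup θ m Y Y0) {n : ℕ} {z : Finset L → F} (hz : Sph F Y n z)
    {a b : Finset L → F} (ha : a ∈ C F Y0) (hb : b ∈ C F Y0) (ha2 : bd F a = 0)
    (hb2 : bd F b = 0) : ∃ u1 u2 : F, (a, b) - (u1 • z, u2 • z) ∈ DB θ m Y := by
  obtain ⟨x, hx, u1, u2, h⟩ := S.exE hz (y := (a, b)) ⟨C_mono F S.sub ha, C_mono F S.sub hb⟩ (by
    rw [S.dl_fixed ⟨ha, hb⟩]
    simp [ha2, hb2])
  exact ⟨u1, u2, x, hx, by rw [h]; abel⟩

lemma Setup.uniqD (S : Setup θ m Y Y0) {n : ℕ} {z : Finset L → F} (hz : Sph F Y n z)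
    {u1 u2 : F} (h : (u1 • z, u2 • z) ∈ DB θ m Y) : u1 = 0 ∧ u2 = 0 := by
  obtain ⟨x, hx, h2⟩ := h
  exact S.uniqE hz hx h2.symm

lemma Setup.injDB (S : Setup θ m Y Y0) {a b : Finset L → F} (ha : a ∈ C F Y0) (hb : b ∈ C F Y0)
    (h : (a, b) ∈ DB θ m Y) : (∃ d ∈ C F Y0, bd F d = a) ∧ ∃ d ∈ C F Y0, bd F d = b := by
  obtain ⟨x, hx, h2⟩ := h
  exact S.injD ha hb hx h2.symm

lemma eq_zero_of_bd {w : Finset L → F} (hwn : ∀ u ∈ C F Y0, bd F u ≠ w) {c : F}
    (h : ∃ d ∈ C F Y0, bd F d = c • w) : c = 0 := by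
  obtain ⟨d, hd, hd2⟩ := h
  by_contra hc
  apply hwn (c⁻¹ • d) (Submodule.smul_mem _ _ hd)
  rw [map_smul, hd2, smul_smul, inv_mul_cancel₀ hc, one_smul]

lemma Setup.span (S : Setup θ m Y Y0) {n : ℕ} {z : Finset L → F} (hz : Sph F Y n z)
    {w : Finset L → F} (hw : w ∈ C F Y0) (hwb : bd F w = 0) (hwn : ∀ u ∈ C F Y0, bd F u ≠ w) :
    ∀ f ∈ C F Y0, bd F f = 0 → ∃ c : F, ∃ u ∈ C F Y0, f = c • w + bd F u := by
  intro f hf hfb
  obtain ⟨u1, u2, hu⟩ := S.exD hz hw (zero_mem _) hwb (map_zero _)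
  obtain ⟨v1, v2, hv⟩ := S.exD hz (zero_mem _) hw (map_zero _) hwb
  obtain ⟨a1, a2, ha⟩ := S.exD hz hf (zero_mem _) hfb (map_zero _)
  have hdep : ¬ LinearIndependent F ![(a1, a2), (u1, u2), (v1, v2)] := by
    intro h
    have := h.fintype_card_le_finrank
    simp at this
  obtain ⟨g, hg, i, hi⟩ := Fintype.not_linearIndependent_iff.1 hdep
  simp only [Fin.sum_univ_three, Matrix.cons_val_zero, Matrix.cons_val_one, Matrix.cons_val,
    Prod.smul_mk, Prod.mk_add_mk, smul_eq_mul, Prod.mk_eq_zero] at hg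
  have h1 : (g 0 • f + g 1 • w, g 2 • w) ∈ DB θ m Y := by
    have := add_mem (add_mem (Submodule.smul_mem _ (g 0) ha) (Submodule.smul_mem _ (g 1) hu))
      (Submodule.smul_mem _ (g 2) hv)
    convert this using 1
    ext1
    · simp only [Prod.fst_add, Prod.smul_fst, Prod.fst_sub]
      linear_combination (norm := module) hg.1 • z
    · simp only [Prod.snd_add, Prod.smul_snd, Prod.snd_sub]
      linear_combination (norm := module) hg.2 • z
  obtain ⟨⟨d, hd, hd2⟩, k2⟩ := S.injDB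
    (add_mem (Submodule.smul_mem _ _ hf) (Submodule.smul_mem _ _ hw))
    (Submodule.smul_mem _ _ hw) h1
  have g2 := eq_zero_of_bd hwn k2
  have g0 : g 0 ≠ 0 := by
    intro g0
    have g1 := eq_zero_of_bd hwn (c := g 1) ⟨d, hd, by rw [hd2, g0, zero_smul, zero_add]⟩
    fin_cases i
    · exact hi g0
    · exact hi g1
    · exact hi g2
  refine ⟨-(g 1 / g 0), (g 0)⁻¹ • d, Submodule.smul_mem _ _ hd, ?_⟩
  rw [map_smul, hd2, smul_add, smul_smul, smul_smul, inv_mul_cancel₀ g0, one_smul, neg_smul,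
    div_eq_inv_mul]
  abel

theorem smith_gor (Φ : Set L) (Inv : Set L → Prop)
    (hInv : ∀ Y, Inv Y → ∀ x ∈ Φ, Inv (Lk Y x)) (hS : ∀ Y, Inv Y → Setup θ m Y (Y ∩ Φ))
    (hR : ∀ x ∈ Φ, ∀ f, Rm F x (θ f) = θ (Rm F x f)) {Y : Set L} (h : Gor F Y) :
    Inv Y → Gor F (Y ∩ Φ) := by
  induction h with
  | @mk Y n z hz hl ih =>
  intro hI
  have S := hS Y hI
  have hlk : ∀ x, Lk (Y ∩ Φ) x = Lk Y x ∩ Φ := by
    intro x
    ext y
    simp only [Lk, Set.mem_inter_iff, Set.mem_ofPred_eq]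
    tauto
  have hl' : ∀ x ∈ Y ∩ Φ, Gor F (Lk (Y ∩ Φ) x) :=
    fun x hx => hlk x ▸ ih x hx.1 (hInv Y hI x hx.2)
  obtain ⟨n', w, hw, hwd, hwb, hwn⟩ := S.exists_w hz
  have hw0 : w ≠ 0 := fun h => hwn 0 (zero_mem _) (by rw [h, map_zero])
  obtain ⟨u1, u2, hu⟩ := S.exD hz hw (zero_mem _) hwb (map_zero _)
  refine Gor.mk (n := n') ⟨hw, hwb, hw0, hwd, ?_, S.span hz hw hwb hwn⟩ hl'
  intro σ h1 h2
  rcases σ.eq_empty_or_nonempty with rfl | ⟨x, hx⟩
  · simp
  have hxY := h2 hx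
  have S' := hS _ (hInv Y hI x hxY.2)
  have hnb : ∀ d ∈ C F (Lk (Y ∩ Φ) x), bd F d ≠ Rm F x w := by
    intro d hd hd2
    rw [hlk] at hd
    obtain ⟨y, hy, hy2⟩ := id hu
    have hRm : ∀ f, Rm F x ((θ ^ m) f) = (θ ^ m) (Rm F x f) := by
      intro f
      simpa using (pow_comm_of (T := Rm F x) 1 (fun f => by simpa using (hR x hxY.2 f).symm)
        m f).symm
    have a1 : (Rm F x w, Rm F x 0) - (u1 • Rm F x z, u2 • Rm F x z) ∈ DB θ m (Lk Y x) := by
      refine ⟨(Rm F x y.1, Rm F x y.2), ⟨Rm_mem F x hy.1, Rm_mem F x hy.2⟩, ?_⟩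
      rw [dl_apply] at hy2 ⊢
      have b1 := congrArg (fun q => Rm F x q.1) hy2
      have b2 := congrArg (fun q => Rm F x q.2) hy2
      simp only [map_add, map_sub, map_smul, Prod.fst_sub, Prod.snd_sub, hRm, hR x hxY.2,
        ← bd_Rm F x hy.1, ← bd_Rm F x hy.2] at b1 b2
      exact Prod.ext b1 b2
    have a2 : (Rm F x w, Rm F x 0) ∈ DB θ m (Lk Y x) := by
      refine ⟨(d, 0), ⟨C_mono F S'.sub hd, zero_mem _⟩, ?_⟩
      rw [S'.dl_fixed (y := (d, 0)) ⟨hd, zero_mem _⟩, hd2]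
      simp
    obtain ⟨k1, k2⟩ := S'.uniqD ((Gor.mk hz hl).link hz hxY.1).2 (u1 := u1) (u2 := u2)
      (by simpa using sub_mem a2 a1)
    obtain ⟨⟨d', hd', e⟩, -⟩ := S.injDB hw (zero_mem _) (by simpa [k1, k2] using hu)
    exact hwn d' hd' e
  have hne : Rm F x w ≠ 0 := fun h => hnb 0 (zero_mem _) (by rw [h, map_zero])
  obtain ⟨τ, t1, t2⟩ := Rm_ne_iff.1 hne
  have t3 : τ.card = n' := by by_contra h; exact t2 (hwd τ h)
  obtain ⟨j, hj⟩ : ∃ j, n' = j + 1 := ⟨n' - 1, by have := card_pos.2 ⟨x, t1⟩; omega⟩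
  subst hj
  have hdeg := Rm_deg x hwd
  obtain ⟨w', hw'⟩ := (hl' x hxY).sph
  have : j = dm (Lk (Y ∩ Φ) x) := by
    by_contra hj
    obtain ⟨u, hu1, -, hu2⟩ := hw'.low_cycle hj (Rm_mem F x hw)
      (by rw [pr_eq_self F hdeg, bd_Rm F x hw, hwb, map_zero])
    exact hnb u hu1 (by rw [hu2, pr_eq_self F hdeg])
  rw [this]
  exact card_le_dm_lk hx h1 h2

omit [Fintype L] in
lemma Rm_pull {e : L ≃o L} {x : L} (hx : e x = x) (f : Finset L → F) :
    Rm F x (pull F e f) = pull F e (Rm F x f) := by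
  funext τ
  rw [pull_apply, Rm_apply, Rm_apply, pull_apply, image_insert, hx]
  have h1 : x ∉ τ.image e ↔ x ∉ τ := by
    conv_lhs => rw [← hx]
    simp
  have h2 : su F x (τ.image e) = su F x τ := by
    unfold su
    rw [filter_image, card_image_of_injective _ e.injective]
    congr 2
    ext y
    conv_lhs => rw [← hx]
    simp
  simp only [h1, h2]

omit [Fintype L] in
lemma lk_inv {e : L ≃o L} {Y : Set L} (hY : ∀ y, e y ∈ Y ↔ y ∈ Y) {x : L} (hx : e x = x) (y : L) :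
    e y ∈ Lk Y x ↔ y ∈ Lk Y x := by
  simp only [Lk, Set.mem_ofPred_eq, hY]
  conv_lhs => rw [← hx]
  simp

omit [Fintype L] in
lemma pow_inv_set {e : L ≃o L} {Y : Set L} (hY : ∀ y, e y ∈ Y ↔ y ∈ Y) (k : ℕ) :
    ∀ y, (e ^ k) y ∈ Y ↔ y ∈ Y := by
  induction k with
  | zero => intro y; rfl
  | succ k ih => intro y; rw [pow_succ, RelIso.mul_apply, ih, hY]

/-- Smith theory: the fixed points of an automorphism of order `p` -/
theorem Gor.fx (p : ℕ) [Fact p.Prime] [CharP F p] {Y : Set L} (h : Gor F Y) (e : L ≃o L)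
    (he : e ^ p = 1) (hY : ∀ y, e y ∈ Y ↔ y ∈ Y) : Gor F (Fx Y e) := by
  have hp : p.Prime := Fact.out
  have : Fact (1 < p) := ⟨hp.one_lt⟩
  let tr : ZMod p → L ≃o L := fun t => e ^ t.val
  have ht : IsTr tr :=
    ⟨by simp [tr], fun s t => by
      simp only [tr]
      rw [ZMod.val_add, ← pow_add]
      conv_rhs => rw [← Nat.mod_add_div (s.val + t.val) p, pow_add, pow_mul, he, one_pow, mul_one]⟩
  have h1 : tr 1 = e := by simp [tr, ZMod.val_one]
  let g : Bool → ZMod p := fun b => if b then 1 else 0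
  let c : Bool → F := fun b => if b then 1 else -1
  have hθ : ∀ f, thE tr g c f = pull F e f - f := by
    intro f
    rw [thE_apply]
    simp [g, c, h1, ht.zero, pull_one, sub_eq_add_neg]
  refine smith_gor (θ := thE tr g c) (m := p - 1) {y | e y = y} (fun Y => ∀ y, e y ∈ Y ↔ y ∈ Y)
    (fun Y hY x hx => lk_inv hY hx) (fun Y hY => ?_)
    (fun x hx f => by rw [hθ, hθ, map_sub, Rm_pull hx]) h hY
  refine setup_of p (fun a => by simp) ht g c (by simp [c]) (fun t => pow_inv_set hY _)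
    (fun t => pow_inv_set (fun y => ?_) _) Set.inter_subset_left ?_ ?_
  · simp only [Set.mem_inter_iff, hY, Set.mem_ofPred_eq, EmbeddingLike.apply_eq_iff_eq]
  · intro f hf
    rw [hθ, pull_eq_self (fun y hy => hy.2) hf, sub_self]
  · intro y hy hy0
    refine ⟨(ZMod.castHom (dvd_refl p) F).toAddMonoidHom, fun t ht2 => ?_, by simp [c, g]⟩
    by_contra hne
    have ht0 : t ≠ 0 := by rintro rfl; simp at hne
    apply hy0
    refine ⟨hy, ?_⟩
    have : (t⁻¹).val • t = 1 := by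
      rw [nsmul_eq_mul, ZMod.natCast_zmod_val, inv_mul_cancel₀ ht0]
    show e y = y
    rw [← h1, ← this, ht.nsmul]
    exact pow_fix ht2 _

/-- common fixed points of the group elements satisfying `Q` -/
def Fq (Y : Set L) (tr : E → L ≃o L) (Q : E → Prop) : Set L :=
  {y | y ∈ Y ∧ ∀ a, Q a → tr a y = y}

omit [Fintype L] in
lemma Fq_inv {tr : E → L ≃o L} (ht : IsTr tr) {Y : Set L} (hY : ∀ t y, tr t y ∈ Y ↔ y ∈ Y)
    (Q : E → Prop) (t : E) (y : L) : tr t y ∈ Fq Y tr Q ↔ y ∈ Fq Y tr Q := by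
  simp only [Fq, Set.mem_ofPred_eq, hY, ht.comm _ t, EmbeddingLike.apply_eq_iff_eq]

theorem Gor.fq (p : ℕ) [Fact p.Prime] [CharP F p] [Finite E] (hE : ∀ a : E, p • a = 0)
    {tr : E → L ≃o L} (ht : IsTr tr) {Y : Set L} (h : Gor F Y)
    (hY : ∀ t y, tr t y ∈ Y ↔ y ∈ Y) (Q : E → Prop) : Gor F (Fq Y tr Q) := by
  have key : ∀ T : Finset E, Gor F (Fq Y tr (· ∈ T)) := by
    intro T
    induction T using Finset.induction_on with
    | empty => simpa [Fq] using h
    | insert a T _ ih =>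
      have := ih.fx p (tr a) (by rw [← ht.nsmul, hE, ht.zero]) (Fq_inv ht hY _ a)
      convert this using 1
      ext y
      simp only [Fq, Fx, Set.mem_ofPred_eq, mem_insert, forall_eq_or_imp]
      tauto
  have := Fintype.ofFinite E
  simpa using key (univ.filter Q)

end

end Pool.Agent.MP_23c9d7_co
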